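import Pool.Agent.H.MP_3adc02_co.ts.Edm

/-! Edmonds' theorem with the sources outside the vertex set. -/

open Finset

namespace Ts

/- PROOF.
Apply edmonds with Omega = T + Bool, heads Sum.inl (hd e), tails tl e, root sets (R c).image Sum.inl united with
the two sources.  A set W of Omega containing a source is disjoint from no root set, so p(W) = 0; a set without
sources is the image of a set of T (W.preimage or filter), and then the conditions agree.
-/
theorem edmondsT {T C E : Type} [Fintype T] [DecidableEq T] [Fintype C] [DecidableEq E]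
    (hd : E → T) (tl : E → T ⊕ Bool) (A : Finset E) (R : C → Finset T)
    (h : ∀ W : Finset T, W.Nonempty → (univ.filter (fun c => Disjoint (R c) W)).card ≤
      (A.filter (fun e => hd e ∈ W ∧ ∀ u ∈ W, tl e ≠ Sum.inl u)).card) :
    ∃ B : C → Finset E, (∀ c, B c ⊆ A) ∧ (∀ c c', c ≠ c' → Disjoint (B c) (B c')) ∧
      ∀ c, ∀ W : Finset T, W.Nonempty → Disjoint (R c) W →
        ∃ e ∈ B c, hd e ∈ W ∧ ∀ u ∈ W, tl e ≠ Sum.inl u := by
  have hRin : ∀ c s, (Sum.inr s : T ⊕ Bool) ∈
      (R c).image Sum.inl ∪ univ.image (Sum.inr : Bool → T ⊕ Bool) := fun c s =>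
    mem_union_right _ (mem_image_of_mem _ (mem_univ s))
  obtain ⟨B, hB1, hB2, hB3⟩ := edmonds (Ω := T ⊕ Bool) (fun e => Sum.inl (hd e)) tl A
    (fun c => (R c).image Sum.inl ∪ univ.image (Sum.inr : Bool → T ⊕ Bool)) (by
      intro W hW
      by_cases hs : ∃ s : Bool, (Sum.inr s : T ⊕ Bool) ∈ W
      · obtain ⟨s, hs⟩ := hs
        have h0 : (univ.filter (fun c => Disjoint
            ((R c).image Sum.inl ∪ univ.image (Sum.inr : Bool → T ⊕ Bool)) W)) = ∅ := by
          rw [filter_eq_empty_iff]
          intro c _ hd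
          exact (Finset.disjoint_left.1 hd) (hRin c s) hs
        rw [h0]
        exact Nat.zero_le _
      · have hs' : ∀ s : Bool, (Sum.inr s : T ⊕ Bool) ∉ W := fun s hh => hs ⟨s, hh⟩
        have hW0 : (univ.filter (fun t : T => (Sum.inl t : T ⊕ Bool) ∈ W)).Nonempty := by
          obtain ⟨x, hx⟩ := hW
          rcases x with t | s
          · exact ⟨t, by simpa using hx⟩
          · exact absurd hx (hs' s)
        refine le_trans (card_le_card ?_) ((h _ hW0).trans (card_le_card ?_))
        · intro c hc
          rw [mem_filter] at hc ⊢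
          refine ⟨mem_univ _, Finset.disjoint_left.2 fun t ht ht' => ?_⟩
          rw [mem_filter] at ht'
          exact (Finset.disjoint_left.1 hc.2)
            (mem_union_left _ (mem_image_of_mem _ ht)) ht'.2
        · intro e he
          rw [mem_filter, mem_filter] at he
          rw [mem_filter]
          refine ⟨he.1, he.2.1.2, fun ht => ?_⟩
          cases hte : tl e with
          | inl u =>
            rw [hte] at ht
            exact he.2.2 u (mem_filter.2 ⟨mem_univ _, ht⟩) hte
          | inr s =>
            rw [hte] at ht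
            exact hs' s ht)
  refine ⟨B, hB1, hB2, fun c W hW hd => ?_⟩
  obtain ⟨e, he, h1, h2⟩ := hB3 c (W.image Sum.inl) (hW.image _) (by
    rw [Finset.disjoint_left]
    intro x hx hx'
    obtain ⟨t, ht, rfl⟩ := mem_image.1 hx'
    rcases mem_union.1 hx with hx | hx
    · obtain ⟨t', ht', htt⟩ := mem_image.1 hx
      rw [Sum.inl.injEq] at htt
      subst htt
      exact (Finset.disjoint_left.1 hd) ht' ht
    · obtain ⟨s, _, hs⟩ := mem_image.1 hx
      cases hs)
  refine ⟨e, he, ?_, fun u hu hte => h2 ?_⟩
  · obtain ⟨t, ht, htt⟩ := mem_image.1 h1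
    rw [Sum.inl.injEq] at htt
    rwa [← htt]
  · rw [hte]
    exact mem_image_of_mem _ hu

end Ts
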