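import Mathlib

/-! Two-colourings respecting a matching and balanced on two classes. -/

open Finset

namespace Ts

/-- A matching, as a symmetric irreflexive relation with unique partners. -/
private def two_Mt {K : Type} (M : K → K → Prop) : Prop :=
  (∀ x y, M x y → M y x) ∧ (∀ x, ¬ M x x) ∧ ∀ x y z, M x y → M x z → y = z

/-- One step of the two-colouring of a union of two matchings. -/
private theorem two_step {K : Type} [DecidableEq K] (S : Finset K) (M N : K → K → Prop)
    (hM : two_Mt M) (hN : two_Mt N)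
    (ih : ∀ S' : Finset K, S'.card < S.card → ∀ M' : K → K → Prop, two_Mt M' →
      ∃ κ : K → Bool, (∀ x ∈ S', ∀ y ∈ S', M' x y → κ x ≠ κ y) ∧
        ∀ x ∈ S', ∀ y ∈ S', N x y → κ x ≠ κ y)
    {x y : K} (hx : x ∈ S) (hy : y ∈ S) (hxy : N x y) :
    ∃ κ : K → Bool, (∀ x ∈ S, ∀ y ∈ S, M x y → κ x ≠ κ y) ∧
      ∀ x ∈ S, ∀ y ∈ S, N x y → κ x ≠ κ y := by
  obtain ⟨ms, mi, mu⟩ := hM
  obtain ⟨ns, ni, nu⟩ := hN
  have hne : x ≠ y := by
    rintro rfl
    exact ni x hxy
  obtain ⟨S', hS'⟩ : ∃ S' : Finset K, S' = (S.erase x).erase y := ⟨_, rfl⟩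
  have hmem : ∀ z, z ∈ S' ↔ z ≠ y ∧ z ≠ x ∧ z ∈ S := fun z => by
    rw [hS', mem_erase, mem_erase]
  have hcard : S'.card < S.card := by
    rw [hS']
    exact (card_le_card (erase_subset _ _)).trans_lt (card_erase_lt_of_mem hx)
  obtain ⟨M', hM'⟩ : ∃ M' : K → K → Prop, M' = fun u v => u ∈ S' ∧ v ∈ S' ∧
      (M u v ∨ (M u x ∧ M y v) ∨ (M u y ∧ M x v)) := ⟨_, rfl⟩
  have h1 : two_Mt M' := by
    rw [hM']
    refine ⟨?_, ?_, ?_⟩
    · rintro u v ⟨hu, hv, h | ⟨h, h'⟩ | ⟨h, h'⟩⟩
      · exact ⟨hv, hu, Or.inl (ms _ _ h)⟩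
      · exact ⟨hv, hu, Or.inr (Or.inr ⟨ms _ _ h', ms _ _ h⟩)⟩
      · exact ⟨hv, hu, Or.inr (Or.inl ⟨ms _ _ h', ms _ _ h⟩)⟩
    · rintro u ⟨hu, -, h | ⟨h, h'⟩ | ⟨h, h'⟩⟩
      · exact mi u h
      · exact hne (mu u x y h (ms _ _ h'))
      · exact hne (mu u x y (ms _ _ h') h)
    · rintro u v w ⟨hu, hv, h⟩ ⟨-, hw, k⟩
      have hv' := (hmem v).1 hv
      have hw' := (hmem w).1 hw
      rcases h with h | ⟨h, h'⟩ | ⟨h, h'⟩ <;> rcases k with k | ⟨k, k'⟩ | ⟨k, k'⟩
      · exact mu _ _ _ h k
      · exact absurd (mu _ _ _ h k) hv'.2.1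
      · exact absurd (mu _ _ _ h k) hv'.1
      · exact absurd (mu _ _ _ k h) hw'.2.1
      · exact mu _ _ _ h' k'
      · exact absurd (mu _ _ _ h k) hne
      · exact absurd (mu _ _ _ k h) hw'.1
      · exact absurd (mu _ _ _ k h) hne
      · exact mu _ _ _ h' k'
  obtain ⟨κ, hκ1, hκ2⟩ := ih S' hcard M' h1
  -- the new colour
  obtain ⟨β, hβ1, hβ2⟩ : ∃ β : Bool, (∀ u ∈ S', M x u → β ≠ κ u) ∧
      ∀ v ∈ S', M y v → (!β) ≠ κ v := by
    by_cases e1 : ∃ u ∈ S', M x u
    · obtain ⟨u, hu, hxu⟩ := e1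
      refine ⟨!(κ u), ?_, ?_⟩
      · intro w _ hw
        rw [← mu _ _ _ hxu hw]
        simp
      · intro v hv hyv
        rw [Bool.not_not]
        refine hκ1 u hu v hv ?_
        rw [hM']
        exact ⟨hu, hv, Or.inr (Or.inl ⟨ms _ _ hxu, hyv⟩)⟩
    · push Not at e1
      by_cases e2 : ∃ v ∈ S', M y v
      · obtain ⟨v, hv, hyv⟩ := e2
        refine ⟨κ v, fun u hu h => absurd h (e1 u hu), ?_⟩
        intro w _ hw
        rw [← mu _ _ _ hyv hw]
        simp
      · push Not at e2
        exact ⟨true, fun u hu h => absurd h (e1 u hu), fun u hu h => absurd h (e2 u hu)⟩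
  obtain ⟨κ', hκ'⟩ : ∃ κ' : K → Bool, κ' = fun z => if z = x then β else if z = y then !β else κ z :=
    ⟨_, rfl⟩
  have kx : κ' x = β := by rw [hκ']; simp
  have ky : κ' y = !β := by rw [hκ']; simp [hne.symm]
  have kz : ∀ z ∈ S', κ' z = κ z := by
    intro z hz
    have hz' := (hmem z).1 hz
    rw [hκ']
    simp [hz'.1, hz'.2.1]
  have hcase : ∀ z ∈ S, z = x ∨ z = y ∨ z ∈ S' := by
    intro z hz
    by_cases e1 : z = x
    · exact Or.inl e1
    · by_cases e2 : z = y
      · exact Or.inr (Or.inl e2)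
      · exact Or.inr (Or.inr ((hmem z).2 ⟨e2, e1, hz⟩))
  refine ⟨κ', ?_, ?_⟩
  · intro u hu v hv huv
    rcases hcase u hu with rfl | rfl | hu' <;> rcases hcase v hv with rfl | rfl | hv'
    · exact absurd huv (mi _)
    · rw [kx, ky]
      simp
    · rw [kx, kz v hv']
      exact hβ1 v hv' huv
    · rw [kx, ky]
      simp
    · exact absurd huv (mi _)
    · rw [ky, kz v hv']
      exact hβ2 v hv' huv
    · rw [kx, kz u hu']
      exact (hβ1 u hu' (ms _ _ huv)).symm
    · rw [ky, kz u hu']
      exact (hβ2 u hu' (ms _ _ huv)).symm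
    · rw [kz u hu', kz v hv']
      refine hκ1 u hu' v hv' ?_
      rw [hM']
      exact ⟨hu', hv', Or.inl huv⟩
  · intro u hu v hv huv
    rcases hcase u hu with rfl | rfl | hu' <;> rcases hcase v hv with rfl | rfl | hv'
    · exact absurd huv (ni _)
    · rw [kx, ky]
      simp
    · exact absurd (nu _ _ _ huv hxy) ((hmem v).1 hv').1
    · rw [kx, ky]
      simp
    · exact absurd huv (ni _)
    · exact absurd (nu _ _ _ huv (ns _ _ hxy)) ((hmem v).1 hv').2.1
    · exact absurd (nu _ _ _ (ns _ _ huv) hxy) ((hmem u).1 hu').1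
    · exact absurd (nu _ _ _ (ns _ _ huv) (ns _ _ hxy)) ((hmem u).1 hu').2.1
    · rw [kz u hu', kz v hv']
      exact hκ2 u hu' v hv' huv

/-- A union of two matchings is two-colourable. -/
private theorem two_col {K : Type} [DecidableEq K] : ∀ (n : ℕ) (S : Finset K), S.card = n →
    ∀ M N : K → K → Prop, two_Mt M → two_Mt N →
    ∃ κ : K → Bool, (∀ x ∈ S, ∀ y ∈ S, M x y → κ x ≠ κ y) ∧
      ∀ x ∈ S, ∀ y ∈ S, N x y → κ x ≠ κ y := by
  intro n
  induction n using Nat.strong_induction_on with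
  | _ n ih =>
    intro S hS M N hM hN
    by_cases h1 : ∃ x ∈ S, ∃ y ∈ S, N x y
    · obtain ⟨x, hx, y, hy, hxy⟩ := h1
      exact two_step S M N hM hN (fun S' hS' M' hM' =>
        ih S'.card (hS ▸ hS') S' rfl M' N hM' hN) hx hy hxy
    · by_cases h2 : ∃ x ∈ S, ∃ y ∈ S, M x y
      · obtain ⟨x, hx, y, hy, hxy⟩ := h2
        obtain ⟨κ, hκ1, hκ2⟩ := two_step S N M hN hM (fun S' hS' M' hM' =>
          ih S'.card (hS ▸ hS') S' rfl M' M hM' hM) hx hy hxy
        exact ⟨κ, hκ2, hκ1⟩
      · exact ⟨fun _ => true, fun x hx y hy h => absurd ⟨x, hx, y, hy, h⟩ h2,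
          fun x hx y hy h => absurd ⟨x, hx, y, hy, h⟩ h1⟩

/-- Pairing up all but at most one element of a finite set. -/
private theorem two_pair {K : Type} [DecidableEq K] : ∀ (n : ℕ) (S : Finset K), S.card = n →
    ∃ N : K → K → Prop, two_Mt N ∧ (∀ x y, N x y → x ∈ S) ∧
      ∀ κ : K → Bool, (∀ x y, N x y → κ x ≠ κ y) → ∀ b,
        (S.filter (fun k => κ k = b)).card ≤ (S.filter (fun k => κ k = !b)).card + 1 := by
  intro n
  induction n using Nat.strong_induction_on with
  | _ n ih =>
    intro S hS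
    by_cases h1 : S.card ≤ 1
    · refine ⟨fun _ _ => False, ⟨fun _ _ h => h, fun _ h => h, fun _ _ _ h => h.elim⟩,
        fun _ _ h => h.elim, fun κ _ b => ?_⟩
      have := card_filter_le S (fun k => κ k = b)
      omega
    · obtain ⟨x, hx, y, hy, hxy⟩ := Finset.one_lt_card.1 (by omega : 1 < S.card)
      obtain ⟨S', hS'⟩ : ∃ S' : Finset K, S' = (S.erase x).erase y := ⟨_, rfl⟩
      have hmem : ∀ z, z ∈ S' ↔ z ≠ y ∧ z ≠ x ∧ z ∈ S := fun z => by
        rw [hS', mem_erase, mem_erase]
      have hcard : S'.card < n := by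
        rw [← hS, hS']
        exact (card_le_card (erase_subset _ _)).trans_lt (card_erase_lt_of_mem hx)
      have hSx : S = insert x (insert y S') := by
        ext z
        rw [mem_insert, mem_insert, hmem]
        constructor
        · intro hz
          by_cases e1 : z = x
          · exact Or.inl e1
          · by_cases e2 : z = y
            · exact Or.inr (Or.inl e2)
            · exact Or.inr (Or.inr ⟨e2, e1, hz⟩)
        · rintro (rfl | rfl | h)
          · exact hx
          · exact hy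
          · exact h.2.2
      have hyS : y ∉ S' := fun h => ((hmem y).1 h).1 rfl
      have hxS : x ∉ S' := fun h => ((hmem x).1 h).2.1 rfl
      obtain ⟨N, ⟨ns, ni, nu⟩, nS, nc⟩ := ih S'.card hcard S' rfl
      have nS' : ∀ u v, N u v → v ∈ S' := fun u v h => nS v u (ns _ _ h)
      refine ⟨fun u v => N u v ∨ (u = x ∧ v = y) ∨ (u = y ∧ v = x), ⟨?_, ?_, ?_⟩, ?_, ?_⟩
      · rintro u v (h | ⟨h, h'⟩ | ⟨h, h'⟩)
        · exact Or.inl (ns _ _ h)
        · exact Or.inr (Or.inr ⟨h', h⟩)
        · exact Or.inr (Or.inl ⟨h', h⟩)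
      · rintro u (h | ⟨h, h'⟩ | ⟨h, h'⟩)
        · exact ni u h
        · exact hxy (h.symm.trans h')
        · exact hxy (h'.symm.trans h)
      · rintro u v w (h | ⟨h, h'⟩ | ⟨h, h'⟩) (k | ⟨k, k'⟩ | ⟨k, k'⟩)
        · exact nu _ _ _ h k
        · exact absurd (k ▸ nS _ _ h) hxS
        · exact absurd (k ▸ nS _ _ h) hyS
        · exact absurd (h ▸ nS _ _ k) hxS
        · rw [h', k']
        · exact absurd (h.symm.trans k) hxy
        · exact absurd (h ▸ nS _ _ k) hyS
        · exact absurd (k.symm.trans h) hxy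
        · rw [h', k']
      · rintro u v (h | ⟨h, h'⟩ | ⟨h, h'⟩)
        · exact ((hmem u).1 (nS _ _ h)).2.2
        · rw [h]
          exact hx
        · rw [h]
          exact hy
      · intro κ hκ b
        have hne : κ x ≠ κ y := hκ x y (Or.inr (Or.inl ⟨rfl, rfl⟩))
        have c : ∀ b, (S.filter (fun k => κ k = b)).card =
            (S'.filter (fun k => κ k = b)).card + 1 := by
          intro b
          rw [hSx, filter_insert, filter_insert]
          by_cases hb : κ x = b
          · have hb' : ¬ κ y = b := fun h => hne (hb.trans h.symm)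
            rw [if_pos hb, if_neg hb', card_insert_of_notMem]
            exact fun h => hxS (mem_filter.1 h).1
          · have hb' : κ y = b := by
              by_contra h
              exact hne ((Bool.eq_not.2 hb).trans (Bool.eq_not.2 h).symm)
            rw [if_neg hb, if_pos hb', card_insert_of_notMem]
            exact fun h => hyS (mem_filter.1 h).1
        have h2 := nc κ (fun u v h => hκ u v (Or.inl h)) b
        rw [c b, c (!b)]
        omega

/- PROOF.
(1) For two symmetric irreflexive relations M, N with unique partners there is kappa with kappa x <> kappa y for M x y and for N x y: induction on a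
finite set S of vertices supporting both (statement for relations restricted to a Finset S or for types of smaller card): if no N-pair,
colour the M-pairs; otherwise take N x y; if M x y, remove x, y; else let x' (y') be the M-partner of x (y) if it exists, remove x and y, add the M-pair
{x', y'} if both exist; colour the rest, kappa x = not kappa x', kappa y = not kappa y' (if one of them does not exist choose it opposite to the other one).
(2) In each class {k : g k = s} choose N pairing all elements but at most one (induction on the card, or through an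
equivalence with Fin n, pairing 2m and 2m+1); then a kappa with kappa x <> kappa y on N-pairs has counts in the class differing by at most one.
-/
theorem two_bal {K : Type} [Fintype K] [DecidableEq K] (g : K → Bool) (M : K → K → Prop)
    (hs : ∀ x y, M x y → M y x) (hi : ∀ x, ¬ M x x) (hu : ∀ x y z, M x y → M x z → y = z) :
    ∃ κ : K → Bool, (∀ x y, M x y → κ x ≠ κ y) ∧
      ∀ s b, (univ.filter (fun k => g k = s ∧ κ k = b)).card ≤
        (univ.filter (fun k => g k = s ∧ κ k = !b)).card + 1 := by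
  choose N hN hNS hNc using fun s : Bool => two_pair _ (univ.filter (fun k : K => g k = s)) rfl
  have hNS1 : ∀ s x y, N s x y → g x = s := fun s x y h => (mem_filter.1 (hNS s x y h)).2
  have hNN : two_Mt (fun x y => ∃ s, N s x y) := by
    refine ⟨?_, ?_, ?_⟩
    · rintro x y ⟨s, h⟩
      exact ⟨s, (hN s).1 _ _ h⟩
    · rintro x ⟨s, h⟩
      exact (hN s).2.1 x h
    · rintro x y z ⟨s, h⟩ ⟨t, k⟩
      have e : s = t := (hNS1 s x y h).symm.trans (hNS1 t x z k)
      subst e
      exact (hN s).2.2 _ _ _ h k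
  obtain ⟨κ, h1, h2⟩ := two_col _ (univ : Finset K) rfl M (fun x y => ∃ s, N s x y)
    ⟨hs, hi, hu⟩ hNN
  refine ⟨κ, fun x y h => h1 x (mem_univ _) y (mem_univ _) h, fun s b => ?_⟩
  have h3 := hNc s κ (fun x y h => h2 x (mem_univ _) y (mem_univ _) ⟨s, h⟩) b
  rwa [filter_filter, filter_filter] at h3

end Ts
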