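import Pool.Agent.H.MP_3adc02_co.ts.Tree
import Pool.Agent.H.MP_3adc02_co.ts.EdmT
import Pool.Agent.H.MP_3adc02_co.ts.Two

/-! Balancing the root arcs of two colours (note, 4a). -/

open Finset

namespace Ts

variable {T E : Type} [Fintype T] [DecidableEq T] [Fintype E] [DecidableEq E]

/-- number of arcs of colour `c` leaving the source `s` -/
def rc {τ : ℕ} (tl : E → T ⊕ Bool) (a : Fin τ → T → E) (c : Fin τ) (s : Bool) : ℕ :=
  (univ.filter (fun z => tl (a c z) = Sum.inr s)).card

/- PROOF.
K = {(z, b) : b in {i, j}, tl (a b z) = inr s for some s} (subtype of T x Bool or similar), g (z, b) = the s.  Call W (nonempty) closed if for z in W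
neither tl (a i z) nor tl (a j z) is inl u with u notin W (no non-root arc of colours i, j enters W).  Closed sets are closed under nonempty
intersection; minimal closed sets are pairwise disjoint or equal and every closed set contains a minimal one.  A closed W contains the
heads of at least 2 root arcs of colours i, j: one of colour i and one of colour j by p3 (Acy for i gives z in W whose i-parent is not in W, so it
is a root arc).  For each minimal closed W choose such a pair (k_i, k_j) and let M be the matching consisting of these pairs (they are disjoint for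
different W).  two_bal gives kappa.  edmondsT with C = {i, j} (Bool), R i = heads of k in K with kappa k = true, R j = heads with kappa k = false,
A = non-root arcs a i z, a j z.  Condition for W: let m be the number of arcs of A entering W.  If m >= 2 fine.  If m = 1: W contains the head of some
root arc k (colour i or colour j enters W by p3 with a root arc, since only one non-root arc enters), so one of the two root sets meets W: needed <= 1.
If m = 0: W is closed, contains a minimal one and so heads of both kappa-values: needed 0.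
Result: B i, B j; at z: the arcs into z of colours i, j are two; those in K get the colour kappa; if one is in K and the other not, the other one must be in the
other B (singleton {z} is disjoint from that R); if both are in K at z they have different kappa, because otherwise W = {z} would not be reached
(both root arcs at z means {z} is closed, so minimal closed).  Define a' accordingly: it is a swap at each z.  p3 for a': W with all parents inside W:
if W meets R i then the root arc there has no parent in W: contradiction; otherwise B i enters W by the arc a' i z.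
rc counts: rc a' i s = #{k : g k = s, kappa k = true}, rc a' j s = #{k : g k = s, kappa k = false}.
-/
private theorem bb_ne_not (b : Bool) : b ≠ !b := by cases b <;> decide

private theorem bb_eq_of_ne_not {a b : Bool} (h : ¬ a = !b) : a = b := by
  cases a <;> cases b <;> first | rfl | exact absurd rfl h

private theorem bb_not_of_ne {a b : Bool} (h : a ≠ b) : a = !b := by
  cases a <;> cases b <;> first | rfl | exact absurd rfl h

private theorem bb_third {a b c : Bool} (h : a ≠ b) (h2 : ¬ a = c) : b = c := by
  cases a <;> cases b <;> cases c <;> first | rfl | exact absurd rfl h | exact absurd rfl h2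

private theorem bb_xor_cancel {a b s : Bool} (h : xor a s = xor b s) : a = b := by
  cases a <;> cases b <;> cases s <;> first | rfl | exact absurd h (by decide)

theorem balance {τ : ℕ} {hd : E → T} {tl : E → T ⊕ Bool} {a : Fin τ → T → E}
    (ha : Pk0 τ hd tl a) {i j : Fin τ} (hij : i ≠ j) :
    ∃ a' : Fin τ → T → E, Pk0 τ hd tl a' ∧ (∀ c, c ≠ i → c ≠ j → a' c = a c) ∧
      (∀ z, (a' i z = a i z ∧ a' j z = a j z) ∨ (a' i z = a j z ∧ a' j z = a i z)) ∧
      ∀ s, rc tl a' i s ≤ rc tl a' j s + 1 ∧ rc tl a' j s ≤ rc tl a' i s + 1 := by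
  classical
  let col : Bool → Fin τ := fun b => cond b i j
  have hcol : ∀ b b', col b = col b' → b = b' := by
    intro b b' h
    cases b <;> cases b'
    · rfl
    · exact absurd h.symm hij
    · exact absurd h hij
    · rfl
  -- the arcs are determined by head and colour
  have harc : ∀ b z b' z', a (col b) z = a (col b') z' → z = z' ∧ b = b' := by
    intro b z b' z' h
    have h1 : z = z' := by rw [← ha.p1 (col b) z, h, ha.p1]
    subst h1
    exact ⟨rfl, hcol _ _ (ha.p2 z h)⟩
  let K := {k : T × Bool // ∃ s, tl (a (col k.2) k.1) = Sum.inr s}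
  let g : K → Bool := fun k => k.2.choose
  have hg : ∀ k : K, tl (a (col k.1.2) k.1.1) = Sum.inr (g k) := fun k => k.2.choose_spec
  let Cl : Finset T → Prop := fun W => W.Nonempty ∧
    ∀ z ∈ W, ∀ b u, tl (a (col b) z) = Sum.inl u → u ∈ W
  let Mn : Finset T → Prop := fun W => Cl W ∧ ∀ W', W' ⊆ W → Cl W' → W' = W
  have hroot : ∀ W, Cl W → ∀ b, ∃ k : K, k.1.1 ∈ W ∧ k.1.2 = b := by
    intro W hW b
    obtain ⟨z, hz, hz'⟩ := ha.p3 (col b) W hW.1
    rcases hq : tl (a (col b) z) with u | s
    · exact absurd hq (hz' u (hW.2 z hz b u hq))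
    · exact ⟨⟨(z, b), s, hq⟩, hz, rfl⟩
  have hmin : ∀ n, ∀ W : Finset T, W.card = n → Cl W → ∃ W0, W0 ⊆ W ∧ Mn W0 := by
    intro n
    induction n using Nat.strong_induction_on with
    | _ n ih =>
      intro W hn hW
      by_cases h : ∃ W', W' ⊆ W ∧ Cl W' ∧ W' ≠ W
      · obtain ⟨W', h1, h2, h3⟩ := h
        have h4 : W'.card < n := by
          rw [← hn]
          exact card_lt_card (lt_of_le_of_ne h1 h3)
        obtain ⟨W0, h5, h6⟩ := ih _ h4 W' rfl h2
        exact ⟨W0, h5.trans h1, h6⟩
      · push Not at h
        exact ⟨W, subset_refl _, hW, fun W' h1 h2 => h W' h1 h2⟩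
  have huniq : ∀ W W' z, Mn W → Mn W' → z ∈ W → z ∈ W' → W = W' := by
    intro W W' z hW hW' hz hz'
    have h1 : Cl (W ∩ W') := by
      refine ⟨⟨z, mem_inter.2 ⟨hz, hz'⟩⟩, fun y hy b u h => ?_⟩
      rw [mem_inter] at hy ⊢
      exact ⟨hW.1.2 y hy.1 b u h, hW'.1.2 y hy.2 b u h⟩
    rw [← hW.2 _ inter_subset_left h1]
    exact hW'.2 _ inter_subset_right h1
  choose F hF1 hF2 using hroot
  let M : K → K → Prop := fun x y => ∃ W, ∃ h : Mn W, ∃ b, x = F W h.1 b ∧ y = F W h.1 (!b)
  obtain ⟨κ, hκM, hκb⟩ := two_bal g M (by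
    rintro x y ⟨W, h, b, h1, h2⟩
    exact ⟨W, h, !b, h2, by rw [Bool.not_not]; exact h1⟩) (by
    rintro x ⟨W, h, b, h1, h2⟩
    have e1 := hF2 W h.1 b
    have e2 := hF2 W h.1 (!b)
    rw [← h1] at e1
    rw [← h2, e1] at e2
    cases b <;> exact absurd e2 (by decide)) (by
    rintro x y z ⟨W, h, b, h1, h2⟩ ⟨W', h', b', h1', h2'⟩
    have e : W = W' := by
      refine huniq W W' x.1.1 h h' ?_ ?_
      · rw [h1]; exact hF1 W h.1 b
      · rw [h1']; exact hF1 W' h'.1 b'
    subst e
    have e1 := hF2 W h.1 b
    have e2 := hF2 W h.1 b'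
    rw [← h1] at e1
    rw [← h1', e1] at e2
    rw [h2, h2', e2])
  let R : Bool → Finset T := fun c => univ.filter fun z => ∃ k : K, k.1.1 = z ∧ κ k = c
  let A : Finset E := univ.filter fun e => ∃ z b, e = a (col b) z ∧ ∃ u, tl e = Sum.inl u
  have hRm : ∀ c z, z ∈ R c ↔ ∃ k : K, k.1.1 = z ∧ κ k = c := by
    intro c z
    simp only [R, mem_filter, mem_univ, true_and]
  have hAm : ∀ e, e ∈ A ↔ ∃ z b, e = a (col b) z ∧ ∃ u, tl e = Sum.inl u := by
    intro e
    simp only [A, mem_filter, mem_univ, true_and]
  -- minimal closed sets meet both root sets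
  have hclR : ∀ W, Cl W → ∀ c, ∃ z ∈ W, z ∈ R c := by
    intro W hW c
    obtain ⟨W0, h1, h2⟩ := hmin _ W rfl hW
    have h3 := hκM (F W0 h2.1 true) (F W0 h2.1 false) ⟨W0, h2, true, rfl, rfl⟩
    by_cases h4 : κ (F W0 h2.1 true) = c
    · exact ⟨_, h1 (hF1 W0 h2.1 true), (hRm _ _).2 ⟨_, rfl, h4⟩⟩
    · have h5 : κ (F W0 h2.1 false) = c := bb_third h3 h4
      exact ⟨_, h1 (hF1 W0 h2.1 false), (hRm _ _).2 ⟨_, rfl, h5⟩⟩
  obtain ⟨B, hB1, hB2, hB3⟩ := edmondsT hd tl A R (by
    intro W hW
    obtain ⟨z1, hz1, hz1'⟩ := ha.p3 (col true) W hW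
    obtain ⟨z2, hz2, hz2'⟩ := ha.p3 (col false) W hW
    by_cases hcl : Cl W
    · have h1 : univ.filter (fun c => Disjoint (R c) W) = ∅ := by
        rw [filter_eq_empty_iff]
        intro c _ hdis
        obtain ⟨z, hz, hz'⟩ := hclR W hcl c
        exact (disjoint_left.1 hdis) hz' hz
      rw [h1, card_empty]
      exact Nat.zero_le _
    · -- a non-root arc enters
      have h1 : ∃ z ∈ W, ∃ b u, tl (a (col b) z) = Sum.inl u ∧ u ∉ W := by
        by_contra hcon
        push Not at hcon
        exact hcl ⟨hW, fun z hz b u h => hcon z hz b u h⟩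
      obtain ⟨z, hz, b, u, hu, huW⟩ := h1
      have hin : ∀ z ∈ W, ∀ b, (∃ u, tl (a (col b) z) = Sum.inl u) →
          (∀ u ∈ W, tl (a (col b) z) ≠ Sum.inl u) → a (col b) z ∈
            A.filter (fun e => hd e ∈ W ∧ ∀ u ∈ W, tl e ≠ Sum.inl u) := by
        intro z hz b h1 h2
        rw [mem_filter, hAm]
        exact ⟨⟨z, b, rfl, h1⟩, by rw [ha.p1]; exact hz, h2⟩
      have hin1 := hin z hz b ⟨u, hu⟩ (fun u' hu' h => huW (by
        rw [hu] at h
        rw [Sum.inl.inj h]
        exact hu'))
      by_cases hr : ∃ c, ¬ Disjoint (R c) W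
      · have h2 : (univ.filter (fun c => Disjoint (R c) W)).card ≤ 1 := by
          obtain ⟨c, hc⟩ := hr
          have h3 : univ.filter (fun c => Disjoint (R c) W) ⊆ {!c} := by
            intro c' hc'
            rw [mem_filter] at hc'
            rw [mem_singleton]
            by_contra h4
            have : c' = c := bb_eq_of_ne_not h4
            rw [this] at hc'
            exact hc hc'.2
          exact (card_le_card h3).trans (by simp)
        exact h2.trans (card_pos.2 ⟨_, hin1⟩)
      · push Not at hr
        -- both colours enter through non-root arcs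
        have hnr : ∀ b' z', z' ∈ W → (∀ u ∈ W, tl (a (col b') z') ≠ Sum.inl u) →
            ∃ u, tl (a (col b') z') = Sum.inl u := by
          intro b' z' hz' _
          rcases hq : tl (a (col b') z') with u' | s
          · exact ⟨u', rfl⟩
          · exfalso
            have h3 : z' ∈ R (κ ⟨(z', b'), s, hq⟩) := (hRm _ _).2 ⟨⟨(z', b'), s, hq⟩, rfl, rfl⟩
            exact (disjoint_left.1 (hr _)) h3 hz'
        have k1 := hin z1 hz1 true (hnr true z1 hz1 hz1') hz1'
        have k2 := hin z2 hz2 false (hnr false z2 hz2 hz2') hz2'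
        have hne : a (col true) z1 ≠ a (col false) z2 := fun h =>
          absurd (harc _ _ _ _ h).2 (by decide)
        have h5 : 2 ≤ (A.filter (fun e => hd e ∈ W ∧ ∀ u ∈ W, tl e ≠ Sum.inl u)).card :=
          one_lt_card.2 ⟨_, k1, _, k2, hne⟩
        refine le_trans ?_ h5
        refine (card_le_univ _).trans ?_
        simp)
  -- the swaps
  have hσ : ∀ z, ∃ σ : Bool, ∀ b, (∀ k : K, k.1 = (z, b) → κ k = xor b σ) ∧
      ((∃ u, tl (a (col b) z) = Sum.inl u) → a (col b) z ∈ B (xor b σ)) := by
    intro z
    have hself : ∀ b, tl (a (col b) z) ≠ Sum.inl z := by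
      intro b
      obtain ⟨y, hy, hy'⟩ := ha.p3 (col b) {z} (singleton_nonempty z)
      rw [mem_singleton] at hy
      subst hy
      exact hy' y (mem_singleton_self _)
    have hBz : ∀ c, z ∉ R c → ∃ b, a (col b) z ∈ B c ∧ ∃ u, tl (a (col b) z) = Sum.inl u := by
      intro c hc
      obtain ⟨e, he, he1, he2⟩ := hB3 c {z} (singleton_nonempty z) (by
        rw [disjoint_singleton_right]; exact hc)
      rw [mem_singleton] at he1
      obtain ⟨z', b, h1, h2⟩ := (hAm e).1 (hB1 c he)
      have h3 : z' = z := by rw [← he1, h1, ha.p1]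
      subst h3
      exact ⟨b, h1 ▸ he, h1 ▸ h2⟩
    have hkeq : ∀ (b : Bool) (k k' : K), k.1 = (z, b) → k'.1 = (z, b) → k = k' :=
      fun b k k' h h' => Subtype.ext (h.trans h'.symm)
    have hexcl : ∀ b, (∃ u, tl (a (col b) z) = Sum.inl u) → ∀ k : K, k.1 ≠ (z, b) := by
      rintro b ⟨u, hu⟩ k hk
      have h1 := hg k
      rw [hk] at h1
      simp only at h1
      rw [hu] at h1
      cases h1
    rcases h1 : tl (a (col true) z) with u1 | s1 <;> rcases h2 : tl (a (col false) z) with u2 | s2
    · -- no roots
      have hno : ∀ c, z ∉ R c := by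
        intro c hc
        obtain ⟨k, hk1, -⟩ := (hRm _ _).1 hc
        rcases hk2 : k.1.2 with _ | _
        · exact hexcl false ⟨u2, h2⟩ k (Prod.ext hk1 hk2)
        · exact hexcl true ⟨u1, h1⟩ k (Prod.ext hk1 hk2)
      obtain ⟨b1, hb1, -⟩ := hBz true (hno true)
      obtain ⟨b2, hb2, -⟩ := hBz false (hno false)
      have hb12 : b2 = !b1 := by
        by_contra hcon
        have : b2 = b1 := bb_eq_of_ne_not hcon
        rw [this] at hb2
        exact (disjoint_left.1 (hB2 true false (by decide))) hb1 hb2
      refine ⟨xor b1 true, fun b => ⟨fun k hk => ?_, fun _ => ?_⟩⟩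
      · exfalso
        cases b
        · exact hexcl false ⟨u2, h2⟩ k hk
        · exact hexcl true ⟨u1, h1⟩ k hk
      · by_cases hb : b = b1
        · subst hb
          have : xor b (xor b true) = true := by cases b <;> rfl
          rw [this]; exact hb1
        · have hb' : b = b2 := by rw [hb12]; exact bb_not_of_ne hb
          rw [hb']
          have : xor b2 (xor b1 true) = false := by rw [hb12]; cases b1 <;> rfl
          rw [this]; exact hb2
    · -- the arc of colour false is a root arc
      let k0 : K := ⟨(z, false), s2, h2⟩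
      have hno : z ∉ R (!κ k0) := by
        intro hc
        obtain ⟨k, hk1, hk2⟩ := (hRm _ _).1 hc
        rcases hk3 : k.1.2 with _ | _
        · have := hkeq false k k0 (Prod.ext hk1 hk3) rfl
          rw [this] at hk2
          exact bb_ne_not _ hk2
        · exact hexcl true ⟨u1, h1⟩ k (Prod.ext hk1 hk3)
      obtain ⟨b1, hb1, hb1'⟩ := hBz _ hno
      have hb1t : b1 = true := by
        cases b1
        · obtain ⟨u, hu⟩ := hb1'
          rw [h2] at hu
          cases hu
        · rfl
      rw [hb1t] at hb1
      refine ⟨κ k0, fun b => ⟨fun k hk => ?_, fun hb => ?_⟩⟩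
      · cases b
        · rw [hkeq false k k0 hk rfl, Bool.false_xor]
        · exact absurd hk (hexcl true ⟨u1, h1⟩ k)
      · cases b
        · obtain ⟨u, hu⟩ := hb
          rw [h2] at hu
          cases hu
        · rw [Bool.true_xor]; exact hb1
    · -- the arc of colour true is a root arc
      let k0 : K := ⟨(z, true), s1, h1⟩
      have hno : z ∉ R (!κ k0) := by
        intro hc
        obtain ⟨k, hk1, hk2⟩ := (hRm _ _).1 hc
        rcases hk3 : k.1.2 with _ | _
        · exact hexcl false ⟨u2, h2⟩ k (Prod.ext hk1 hk3)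
        · have := hkeq true k k0 (Prod.ext hk1 hk3) rfl
          rw [this] at hk2
          exact bb_ne_not _ hk2
      obtain ⟨b1, hb1, hb1'⟩ := hBz _ hno
      have hb1t : b1 = false := by
        cases b1
        · rfl
        · obtain ⟨u, hu⟩ := hb1'
          rw [h1] at hu
          cases hu
      rw [hb1t] at hb1
      refine ⟨!κ k0, fun b => ⟨fun k hk => ?_, fun hb => ?_⟩⟩
      · cases b
        · exact absurd hk (hexcl false ⟨u2, h2⟩ k)
        · rw [hkeq true k k0 hk rfl, Bool.true_xor, Bool.not_not]
      · cases b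
        · rw [Bool.false_xor]; exact hb1
        · obtain ⟨u, hu⟩ := hb
          rw [h1] at hu
          cases hu
    · -- two root arcs
      let k1 : K := ⟨(z, true), s1, h1⟩
      let k2 : K := ⟨(z, false), s2, h2⟩
      have hcl : Cl {z} := by
        refine ⟨singleton_nonempty z, fun y hy b u hu => ?_⟩
        rw [mem_singleton] at hy
        subst hy
        cases b
        · rw [h2] at hu; cases hu
        · rw [h1] at hu; cases hu
      have hne : κ k1 ≠ κ k2 := by
        intro heq
        obtain ⟨y, hy, hy'⟩ := hclR {z} hcl (!κ k1)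
        rw [mem_singleton] at hy
        subst hy
        obtain ⟨k, hk1, hk2⟩ := (hRm _ _).1 hy'
        rcases hk3 : k.1.2 with _ | _
        · have := hkeq false k k2 (Prod.ext hk1 hk3) rfl
          rw [this, ← heq] at hk2
          exact bb_ne_not _ hk2
        · have := hkeq true k k1 (Prod.ext hk1 hk3) rfl
          rw [this] at hk2
          exact bb_ne_not _ hk2
      refine ⟨κ k2, fun b => ⟨fun k hk => ?_, fun hb => ?_⟩⟩
      · cases b
        · rw [hkeq false k k2 hk rfl, Bool.false_xor]
        · rw [hkeq true k k1 hk rfl, Bool.true_xor]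
          exact bb_not_of_ne hne
      · cases b
        · obtain ⟨u, hu⟩ := hb
          rw [h2] at hu
          cases hu
        · obtain ⟨u, hu⟩ := hb
          rw [h1] at hu
          cases hu
  choose σ hσ1 hσ2 using hσ
  let a' : Fin τ → T → E := fun c z => a (if σ z then Equiv.swap i j c else c) z
  have ha'col : ∀ c z, a' (col c) z = a (col (xor c (σ z))) z := by
    intro c z
    simp only [a']
    cases h : σ z
    · rw [if_neg (by simp), Bool.xor_false]
    · rw [if_pos rfl, Bool.xor_true]
      cases c
      · simp only [col, cond_false, cond_true, Bool.not_false, Equiv.swap_apply_right]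
      · simp only [col, cond_false, cond_true, Bool.not_true, Equiv.swap_apply_left]
  have hother : ∀ c, c ≠ i → c ≠ j → a' c = a c := by
    intro c hci hcj
    funext z
    simp only [a']
    rw [Equiv.swap_apply_of_ne_of_ne hci hcj, ite_self]
  have hp3 : ∀ c : Bool, Acy fun t => tl (a' (col c) t) := by
    intro c W hW
    by_cases hdis : Disjoint (R c) W
    · obtain ⟨e, he, he1, he2⟩ := hB3 c W hW hdis
      obtain ⟨z, b, h1, h2⟩ := (hAm e).1 (hB1 c he)
      have h3 : hd e = z := by rw [h1, ha.p1]
      rw [h3] at he1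
      rw [h1] at h2 he he2
      have h4 := hσ2 z b h2
      have h5 : xor b (σ z) = c := by
        by_contra hne
        exact (disjoint_left.1 (hB2 _ _ hne)) h4 he
      refine ⟨z, he1, fun u hu => ?_⟩
      have h6 : xor c (σ z) = b := by rw [← h5]; cases b <;> cases σ z <;> rfl
      simp only
      rw [ha'col, h6]
      exact he2 u hu
    · rw [not_disjoint_iff] at hdis
      obtain ⟨z, hz, hzW⟩ := hdis
      obtain ⟨k, hk1, hk2⟩ := (hRm _ _).1 hz
      have h1 := hσ1 z k.1.2 k (Prod.ext hk1 rfl)
      refine ⟨z, hzW, fun u _ => ?_⟩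
      have h6 : xor c (σ z) = k.1.2 := by
        rw [← hk2, h1]; cases k.1.2 <;> cases σ z <;> rfl
      simp only
      rw [ha'col, h6]
      have h7 := hg k
      rw [hk1] at h7
      rw [h7]
      exact fun h => by cases h
  have hrc : ∀ (c s : Bool), rc tl a' (col c) s =
      (univ.filter (fun k : K => g k = s ∧ κ k = c)).card := by
    intro c s
    unfold rc
    symm
    refine card_bij (fun k _ => k.1.1) ?_ ?_ ?_
    · intro k hk
      rw [mem_filter] at hk
      have h1 := hσ1 k.1.1 k.1.2 k rfl
      have h6 : xor c (σ k.1.1) = k.1.2 := by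
        rw [← hk.2.2, h1]; cases k.1.2 <;> cases σ k.1.1 <;> rfl
      rw [mem_filter, ha'col, h6, hg k, hk.2.1]
      exact ⟨mem_univ _, rfl⟩
    · intro k hk k' hk' heq
      rw [mem_filter] at hk hk'
      have h1 := hσ1 k.1.1 k.1.2 k rfl
      have h1' := hσ1 k'.1.1 k'.1.2 k' rfl
      rw [hk.2.2] at h1
      rw [hk'.2.2, ← heq] at h1'
      have h2 : k.1.2 = k'.1.2 := by
        exact bb_xor_cancel (h1.symm.trans h1')
      exact Subtype.ext (Prod.ext heq h2)
    · intro z hz
      rw [mem_filter, ha'col] at hz
      refine ⟨⟨(z, xor c (σ z)), s, hz.2⟩, ?_, rfl⟩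
      rw [mem_filter]
      refine ⟨mem_univ _, ?_, ?_⟩
      · have h1 := hg ⟨(z, xor c (σ z)), s, hz.2⟩
        exact (Sum.inr.inj (hz.2.symm.trans h1)).symm
      · rw [hσ1 z (xor c (σ z)) ⟨(z, xor c (σ z)), s, hz.2⟩ rfl]
        cases c <;> cases σ z <;> rfl
  have hci : col true = i := rfl
  have hcj : col false = j := rfl
  refine ⟨a', ⟨fun c t => ha.p1 _ _, fun t => ?_, fun c => ?_⟩, hother, fun z => ?_, fun s => ?_⟩
  · intro c c' h
    simp only [a'] at h
    have h1 := ha.p2 t h
    cases h2 : σ t
    · rw [h2] at h1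
      simpa using h1
    · rw [h2] at h1
      simpa using h1
  · by_cases h1 : c = i
    · rw [h1, ← hci]; exact hp3 true
    · by_cases h2 : c = j
      · rw [h2, ← hcj]; exact hp3 false
      · rw [hother c h1 h2]; exact ha.p3 c
  · have e1 := ha'col true z
    have e2 := ha'col false z
    rw [hci] at e1
    rw [hcj] at e2
    cases h : σ z
    · left
      rw [h] at e1 e2
      exact ⟨e1, e2⟩
    · right
      rw [h] at e1 e2
      exact ⟨e1, e2⟩
  · have e1 := hrc true s
    have e2 := hrc false s
    rw [hci] at e1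
    rw [hcj] at e2
    rw [e1, e2]
    exact ⟨hκb s true, hκb s false⟩

end Ts
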