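import Pool.Agent.H.MP_3adc02_co.ts.Dsc

/-! Existence of a first common vertex, and its root (note, 4d). -/

open Finset

namespace Ts

variable {T E : Type} [Fintype T] [DecidableEq T] [Fintype E] [DecidableEq E]

/- PROOF.
By a4 for S = TT s: the arc a i r has tail inr s and head r in TT s (hb with ds_refl), so the left side is >= 1 and some
arc e has tail in TT s and head notin TT s; by a3 its head is notin TT (!s).  So there is a vertex outside both.  exists_min (Tree)
for P z = (z notin TT s and z notin TT (!s)) gives y with P y and no proper ancestor with P.  Let r0 be its root (exists_root), tl (a i r0) = inr s0.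
If s0 = s then r0 = r (h4) and y in TT s by hb: contradiction.  So s0 = !s and by a3r (hd (a i r0) = r0) r0 notin TT s.
Claim: no ancestor z of y, z <> y, is in TT s: otherwise take such z with no proper ancestor in TT s (exists_min); z <> r0, so z has
a parent u, Ds u y, u <> y (not_ds_par / ds_anti), u notin TT s, so by minimality for P u in TT (!s), and a3 for the arc a i z with u in
TT (!s) gives z notin TT (!!s) = TT s: contradiction.  Hence proper ancestors are in TT (!s).
-/
theorem exists_fst {τ : ℕ} {hd : E → T} {tl : E → T ⊕ Bool} {TT : Bool → Finset T}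
    (hI : Inst τ hd tl TT) {a : Fin τ → T → E} (ha : Pk0 τ hd tl a) (h4 : P4 tl a) {i : Fin τ}
    {s : Bool} {r : T} (hr : tl (a i r) = Sum.inr s)
    (hb : ∀ z, Ds (fun t => tl (a i t)) r z → z ∈ TT s) :
    ∃ y, Fst (fun t => tl (a i t)) (TT s) (TT (!s)) y := by
  classical
  obtain ⟨p, hpdef⟩ : ∃ p : T → T ⊕ Bool, p = fun t => tl (a i t) := ⟨_, rfl⟩
  have hp : Acy p := by
    rw [hpdef]
    exact ha.p3 i
  have hpa : ∀ t, p t = tl (a i t) := fun t => by rw [hpdef]
  rw [← hpdef] at hb ⊢
  have hw : ∃ w, w ∉ TT s ∧ w ∉ TT (!s) := by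
    have h1 := hI.a4 s (TT s) (Finset.Subset.refl _)
    have h2 : 0 < (univ.filter (fun e => tl e = Sum.inr s ∧ hd e ∈ TT s)).card := by
      apply Finset.card_pos.2
      refine ⟨a i r, ?_⟩
      simp only [mem_filter, mem_univ, true_and]
      refine ⟨hr, ?_⟩
      rw [ha.p1]
      exact hb r (ds_refl r)
    obtain ⟨e, he⟩ := Finset.card_pos.1 (lt_of_lt_of_le h2 h1)
    simp only [mem_filter, mem_univ, true_and] at he
    obtain ⟨he1, u, hu, hue⟩ := he
    exact ⟨hd e, he1, hI.a3 e u s hue hu⟩
  obtain ⟨w, hw1, hw2⟩ := hw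
  obtain ⟨y, ⟨hy1, hy2⟩, -, hymin⟩ := exists_min hp (fun z => z ∉ TT s ∧ z ∉ TT (!s)) (x := w)
    ⟨hw1, hw2⟩
  obtain ⟨r0, s0, hr0, hr0s⟩ := exists_root hp y
  have hs0 : s0 = !s := by
    by_contra hne
    have h1 : s0 = s := by
      cases s <;> cases s0 <;> simp_all
    subst h1
    have h2 : r0 = r := h4 i s0 r0 r (by rw [← hpa]; exact hr0s) hr
    rw [h2] at hr0
    exact hy1 (hb y hr0)
  have hr0T : r0 ∉ TT s := by
    have h1 := hI.a3r (a i r0) s0 (by rw [← hpa]; exact hr0s)
    rw [ha.p1, hs0, Bool.not_not] at h1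
    exact h1
  have claim : ∀ z, Ds p z y → z ≠ y → z ∉ TT s := by
    intro z hz hzy hzs
    obtain ⟨q, ⟨hq1, hq2⟩, hqz, hqmin⟩ := exists_min hp (fun z => z ∈ TT s ∧ Ds p z y) (x := z)
      ⟨hzs, hz⟩
    rcases hpq : p q with u | s1
    · have hnu := not_ds_par hp hpq
      have huq : u ≠ q := by
        rintro rfl
        exact hnu (ds_refl _)
      have huy : u ≠ y := by
        rintro rfl
        exact hnu hq2
      have hDu : Ds p u y := ds_trans (ds_single hpq) hq2
      have h1 : u ∉ TT s := fun h => hqmin u (ds_single hpq) huq ⟨h, hDu⟩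
      have h2 : u ∈ TT (!s) := by
        by_contra h
        exact hymin u hDu huy ⟨h1, h⟩
      have h3 := hI.a3 (a i q) u (!s) (by rw [← hpa]; exact hpq) h2
      rw [ha.p1, Bool.not_not] at h3
      exact h3 hq1
    · have h1 : q = r0 := by
        rcases ds_chain hq2 hr0 with h | h
        · exact ds_root hr0s h
        · exact (ds_root hpq h).symm
      rw [h1] at hq1
      exact hr0T hq1
  refine ⟨y, hy1, hy2, fun z hz hzy => ?_⟩
  by_contra h
  exact hymin z hz hzy ⟨claim z hz hzy, h⟩

/- PROOF.
(for fst_root) If s' = s then z = r by h4.  If s' = !s: let r0, s0 be the root of y (exists_root).  s0 = s would give r0 = r and y in TT s.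
So s0 = !s = s' and z = r0 by h4, an ancestor of y.
-/
/-- All roots of colour `i` other than `r` are ancestors of `y`. -/
theorem fst_root {τ : ℕ} {hd : E → T} {tl : E → T ⊕ Bool} {TT : Bool → Finset T}
    {a : Fin τ → T → E} (ha : Pk0 τ hd tl a) (h4 : P4 tl a) {i : Fin τ}
    {s : Bool} {r : T} (hr : tl (a i r) = Sum.inr s)
    (hb : ∀ z, Ds (fun t => tl (a i t)) r z → z ∈ TT s) {y : T} (hy : y ∉ TT s) {z : T} {s' : Bool}
    (hz : tl (a i z) = Sum.inr s') : z = r ∨ Ds (fun t => tl (a i t)) z y := by
  classical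
  by_cases hs : s' = s
  · left
    subst hs
    exact h4 i s' z r hz hr
  · right
    obtain ⟨r0, s0, hr0, hr0s⟩ := exists_root (ha.p3 i) y
    have hs0 : s0 = s' := by
      by_contra hne
      have h1 : s0 = s := by
        cases s <;> cases s0 <;> cases s' <;> simp_all
      subst h1
      have h2 : r0 = r := h4 i s0 r0 r hr0s hr
      rw [h2] at hr0
      exact hy (hb y hr0)
    subst hs0
    rw [h4 i s0 z r0 hz hr0s]
    exact hr0

end Ts
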