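import Pool.Agent.H.MP_3adc02_co.ts.Cnt
import Pool.Agent.H.MP_3adc02_co.ts.Fy

/-! Choice of the exit (note, 4g). -/

open Finset

namespace Ts

variable {T E : Type} [Fintype T] [DecidableEq T] [Fintype E] [DecidableEq E]

/-- `x` is not harmful for colour `j`: if the part of the component of the `s`-root which is not
below `x` is in `TT s`, then the whole component is. -/
def NHarm {τ : ℕ} (tl : E → T ⊕ Bool) (TT : Bool → Finset T) (a : Fin τ → T → E) (j : Fin τ)
    (s : Bool) (x : T) : Prop :=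
  ∀ r', tl (a j r') = Sum.inr s →
    (∀ z, Ds (fun t => tl (a j t)) r' z → ¬ Ds (fun t => tl (a j t)) x z → z ∈ TT s) →
    ∀ z, Ds (fun t => tl (a j t)) r' z → z ∈ TT s

/-- different leaf exits have no common descendant -/
private theorem Chx_dis {q : T → T ⊕ Bool} {T' : Finset T} {x x' : T} (h : Lf q T' x)
    (h' : Lf q T' x') (hne : x ≠ x') (z : T) : ¬ (Ds q x z ∧ Ds q x' z) := by
  have key : ∀ x x' : T, Lf q T' x → Lf q T' x' → x ≠ x' → ¬ Ds q x x' := by
    intro x x' h h' hne hd
    obtain ⟨u, hu, hux⟩ := h'.2.1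
    rcases ds_par hux hd with h1 | h1
    · exact hne h1
    · exact h.2.2 u hu h1
  rintro ⟨h1, h2⟩
  rcases ds_chain h1 h2 with h3 | h3
  · exact key x x' h h' hne h3
  · exact key x' x h' h hne.symm h3

/-- a harmful vertex -/
private theorem Chx_harm {τ : ℕ} {tl : E → T ⊕ Bool} {TT : Bool → Finset T}
    {a : Fin τ → T → E} {j : Fin τ} {s : Bool} {x : T} (h : ¬ NHarm tl TT a j s x) :
    ∃ r', tl (a j r') = Sum.inr s ∧
      (∀ z, Ds (fun t => tl (a j t)) r' z → ¬ Ds (fun t => tl (a j t)) x z → z ∈ TT s) ∧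
      ∃ z, Ds (fun t => tl (a j t)) r' z ∧ z ∉ TT s := by
  unfold NHarm at h
  push Not at h
  obtain ⟨r', h1, h2, z, h3, h4⟩ := h
  exact ⟨r', h1, h2, z, h3, h4⟩

/- PROOF.
p = colour i, q = colour j.  T' contains r, so exits (Cnt) applies to q.  Facts:
(1) different leaf exits x, x' have no common q-descendant: ds_chain would give Ds q x x' (say); x' <> x so the q-parent of x'
    (it is in T') is below x (ds_par): contradiction with Lf x.
(2) a leaf exit x is not in TT (!s): its parent u is in T', subset of TT s, a3 for the arc a j x (head x by p1).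
(3) a y with Fst exists: exists_fst (Fy).
(4) if x1 <> x2 are leaf exits, not both are harmful (not NHarm): a harmful x has an s-root r' (unique by h4) and a z0 below r' with
    z0 notin TT s, and every such z0 is below x; so z0 would be below x1 and x2, contradiction with (1).
Case A (three leaf exits): two of them are NHarm; descent for these two with A = TT s, B = TT (!s) (hpB from a3 and p1: if the
parent u of x is in TT (!s) then x notin TT (!!s) = TT s).
Case B (two leaf exits x1, x2 and t0): if both are NHarm: descent.  Otherwise say x1 is harmful with root r' and z0 as in (4).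
The parent u1 of x1 is in T'; Ds q t0 u1; and Ds q r' x1 (chain of r', x1 above z0; x1 above r' impossible since r' has no parent: ds_root),
so Ds q r' u1, so r' and t0 are comparable and r' is a root: Ds q r' t0.  So x2 and everything below x2 is below r', and not below x1
((1)), so it is in TT s because x1 is harmful (second part of the negation of NHarm: all z below r' not below x1 are in TT s).
x2 is NHarm by (4).  For any y with Fst, x2 is not blocked: a blocking W consists of vertices below x2, so of TT s; by p3 some z in W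
has its p-parent outside W, so Ds p z y; z <> y since y notin TT s; so z in TT (!s): contradiction with disj.
-/
theorem choose_exit {τ : ℕ} {hd : E → T} {tl : E → T ⊕ Bool} {TT : Bool → Finset T}
    (hI : Inst τ hd tl TT) {a : Fin τ → T → E} (ha : Pk0 τ hd tl a) (h4 : P4 tl a) {i j : Fin τ}
    {s : Bool} {r : T} (hr : tl (a i r) = Sum.inr s) {T' : Finset T}
    (hT' : ∀ z, z ∈ T' ↔ Ds (fun t => tl (a i t)) r z) (hb : T' ⊆ TT s)
    (hc : T'.card + 1 ≤ (univ.filter (fun x => ∃ u ∈ T', tl (a j x) = Sum.inl u)).card) :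
    ∃ x y, Lf (fun t => tl (a j t)) T' x ∧ NHarm tl TT a j s x ∧
      Fst (fun t => tl (a i t)) (TT s) (TT (!s)) y ∧
      ¬ Blk (fun t => tl (a i t)) (fun t => tl (a j t)) x y := by
  classical
  set p : T → T ⊕ Bool := fun t => tl (a i t) with hp
  set q : T → T ⊕ Bool := fun t => tl (a j t) with hq
  have hpa : Acy p := ha.p3 i
  have hqa : Acy q := ha.p3 j
  have hrT : r ∈ T' := (hT' r).2 (ds_refl r)
  have hb' : ∀ z, Ds p r z → z ∈ TT s := fun z hz => hb ((hT' z).2 hz)
  obtain ⟨y, hy⟩ := exists_fst hI ha h4 hr hb'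
  -- leaf exits are not in `TT (!s)`
  have hlf : ∀ x, Lf q T' x → x ∉ TT (!s) := by
    intro x hx
    obtain ⟨u, hu, hux⟩ := hx.2.1
    have h1 := hI.a3 (a j x) u s hux (hb hu)
    rwa [ha.p1] at h1
  have hpB : ∀ x u, p x = Sum.inl u → u ∈ TT (!s) → x ∉ TT s := by
    intro x u hux hu
    have h1 := hI.a3 (a i x) u (!s) hux hu
    rwa [ha.p1, Bool.not_not] at h1
  -- two harmless leaf exits
  have fin2 : ∀ x x', Lf q T' x → Lf q T' x' → x ≠ x' → NHarm tl TT a j s x →
      NHarm tl TT a j s x' → ∃ x y, Lf q T' x ∧ NHarm tl TT a j s x ∧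
        Fst p (TT s) (TT (!s)) y ∧ ¬ Blk p q x y := by
    intro x x' hx hx' hne hn hn'
    obtain ⟨x'', y', h1, h2, h3⟩ := descent (p := p) (q := q) hpa (A := TT s) (B := TT (!s)) hpB
      (Chx_dis hx hx' hne) (hlf x hx) (hlf x' hx') ⟨y, hy⟩
    rcases h1 with rfl | rfl
    · exact ⟨_, y', hx, hn, h2, h3⟩
    · exact ⟨_, y', hx', hn', h2, h3⟩
  -- at most one harmful leaf exit
  have one : ∀ x x', Lf q T' x → Lf q T' x' → x ≠ x' → ¬ NHarm tl TT a j s x →
      NHarm tl TT a j s x' := by
    intro x x' hx hx' hne hn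
    by_contra hn'
    obtain ⟨r₁, h1, h2, z, h3, h5⟩ := Chx_harm hn
    obtain ⟨r₂, k1, k2, -⟩ := Chx_harm hn'
    have hrr : r₁ = r₂ := h4 j s r₁ r₂ h1 k1
    subst hrr
    have h6 : Ds q x z := by
      by_contra hc
      exact h5 (h2 z h3 hc)
    have h7 : Ds q x' z := by
      by_contra hc
      exact h5 (k2 z h3 hc)
    exact Chx_dis hx hx' hne z ⟨h6, h7⟩
  rcases exits hqa T' ⟨r, hrT⟩ hc with ⟨x₁, x₂, x₃, h12, h13, h23, l1, l2, l3⟩ |
      ⟨x₁, x₂, h12, l1, l2, t₀, ht₀, hall⟩
  · by_cases n1 : NHarm tl TT a j s x₁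
    · by_cases n2 : NHarm tl TT a j s x₂
      · exact fin2 x₁ x₂ l1 l2 h12 n1 n2
      · exact fin2 x₁ x₃ l1 l3 h13 n1 (one x₂ x₃ l2 l3 h23 n2)
    · exact fin2 x₂ x₃ l2 l3 h23 (one x₁ x₂ l1 l2 h12 n1) (one x₁ x₃ l1 l3 h13 n1)
  · -- one of the two is harmful
    have fin1 : ∀ x₁ x₂, x₁ ≠ x₂ → Lf q T' x₁ → Lf q T' x₂ → ¬ NHarm tl TT a j s x₁ →
        ∃ x y, Lf q T' x ∧ NHarm tl TT a j s x ∧
          Fst p (TT s) (TT (!s)) y ∧ ¬ Blk p q x y := by
      intro x₁ x₂ hne l1 l2 n1
      obtain ⟨r', h1, h2, z₀, h3, h5⟩ := Chx_harm n1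
      have hr' : q r' = Sum.inr s := h1
      have h6 : Ds q x₁ z₀ := by
        by_contra hc
        exact h5 (h2 z₀ h3 hc)
      obtain ⟨u₁, hu₁, hux₁⟩ := l1.2.1
      obtain ⟨u₂, hu₂, hux₂⟩ := l2.2.1
      have hx1 : x₁ ≠ r' := by
        rintro rfl
        rw [hr'] at hux₁
        cases hux₁
      have h7 : Ds q r' x₁ := by
        rcases ds_chain h3 h6 with h | h
        · exact h
        · exact absurd (ds_root hr' h) hx1
      have h8 : Ds q r' u₁ := by
        rcases ds_par hux₁ h7 with h | h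
        · exact absurd h.symm hx1
        · exact h
      have h9 : Ds q r' t₀ := by
        rcases ds_chain h8 (hall u₁ hu₁) with h | h
        · exact h
        · rw [ds_root hr' h]
          exact ds_refl r'
      have h10 : Ds q r' x₂ := ds_tail (ds_trans h9 (hall u₂ hu₂)) hux₂
      have h11 : ∀ z, Ds q x₂ z → z ∈ TT s := fun z hz =>
        h2 z (ds_trans h10 hz) fun hc => Chx_dis l1 l2 hne z ⟨hc, hz⟩
      refine ⟨x₂, y, l2, one x₁ x₂ l1 l2 hne n1, hy, ?_⟩
      rintro ⟨W, hxW, hW1, -, hW2⟩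
      obtain ⟨z, hz, hz'⟩ := hpa W ⟨x₂, hxW⟩
      have h12 : Ds p z y := hW2 z hz hz'
      have h13 : z ∈ TT s := h11 z (hW1 z hz)
      have h14 : z ≠ y := by
        rintro rfl
        exact hy.1 h13
      exact Finset.disjoint_left.1 (hI.disj s) h13 (hy.2.2 z h12 h14)
    by_cases n1 : NHarm tl TT a j s x₁
    · by_cases n2 : NHarm tl TT a j s x₂
      · exact fin2 x₁ x₂ l1 l2 h12 n1 n2
      · exact fin1 x₂ x₁ h12.symm l2 l1 n2
    · exact fin1 x₁ x₂ h12 l1 l2 n1

end Ts
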