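import Pool.Agent.H.MP_3adc02_co.ts.Tree
import Pool.Agent.H.MP_3adc02_co.ts.EdmT

/-! The two-colour exchange (note, 4e). -/

open Finset

namespace Ts

variable {T E : Type} [Fintype T] [DecidableEq T] [Fintype E] [DecidableEq E]

/- PROOF.
Write p z = tl (a i z), q z = tl (a j z), Anc = {z : Ds p z y}, S = {z : Ds q x z}.  T' cap S = empty (hdis), T' and Anc are closed under
p-parents, the complement of S is closed under q-parents (if u in S is the q-parent of z then z in S).  x notin Anc: otherwise
W = {x} blocks.  Apply edmondsT with C = Bool (or Fin 2), R i = T' u Anc u {x}, R j = complement of S,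
A = {a i z : z notin T' u Anc} u {a j z : z in S, z <> x} (these arcs are all different: p1, p2, hij).
Condition for W nonempty:
 W disjoint from R i: p3 for i gives z in W whose p-parent is not in W: the arc a i z counts; if also W subset S, p3 for j
   gives z' in W with q-parent not in W, z' <> x since x notin W: a second arc a j z'.
 W subset S, W not disjoint from R i (W cap T' = empty): x notin W: p3 for j as before.  x in W: if some z in W, z <> x has its q-parent
   outside W: the arc a j z.  Otherwise, as W does not block, some z in W has its p-parent outside W and is not in Anc: arc a i z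
   (all z in W are in S, so not in T').
 otherwise nothing is needed.
Result B i, B j.  For z notin R i the singleton {z} gives an arc of B i into z, and for z in S one of B j into z; A contains at z in S \ ({x} u Anc)
only a i z, a j z, at z notin S, z notin T' u Anc only a i z, at x only a i x, at z in S cap Anc, z <> x, only a j z.  Define a' c = a c for c <> i, j;
a' i z = a i z on T' u Anc, a' i x = a j x, otherwise the arc of B i into z; a' j z = a j z for z notin S, a' j x = a i x, otherwise the
arc of B j into z.  (Equivalently: a swap set Sw with x in Sw, Sw subset S \ Anc.)  p1, p2: at every z the pair {a' i z, a' j z} = {a i z, a j z}.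
p3 for a' i: suppose W nonempty with all a' i-parents of W in W.  If W meets T' u Anc, this intersection is closed under p-parents:
contradiction with p3 for a i.  Else x in W is impossible (its new parent u0 in T').  Else W is disjoint from R i and B i enters W, by an arc
which is a' i z for its head z.  p3 for a' j: if W meets the complement of S use p3 of a j, otherwise B j.
Root arcs: by hroot the i-root arcs are at vertices of T' u Anc; a j-root arc is never at a vertex of S (ds_root, hxu).
-/
theorem exchange {τ : ℕ} {hd : E → T} {tl : E → T ⊕ Bool} {a : Fin τ → T → E}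
    (ha : Pk0 τ hd tl a) {i j : Fin τ} (hij : i ≠ j) {T' : Finset T}
    (hT' : ∀ z ∈ T', ∀ u, tl (a i z) = Sum.inl u → u ∈ T') {x u₀ : T} (hxT : x ∉ T')
    (hu₀ : u₀ ∈ T') (hxu : tl (a j x) = Sum.inl u₀)
    (hdis : ∀ t ∈ T', ¬ Ds (fun t => tl (a j t)) x t) {y : T}
    (hroot : ∀ z s, tl (a i z) = Sum.inr s → z ∈ T' ∨ Ds (fun t => tl (a i t)) z y)
    (hnb : ¬ Blk (fun t => tl (a i t)) (fun t => tl (a j t)) x y) :
    ∃ a' : Fin τ → T → E, Pk0 τ hd tl a' ∧ (∀ c, c ≠ i → c ≠ j → a' c = a c) ∧
      (∀ z, (z ∈ T' ∨ Ds (fun t => tl (a i t)) z y) → a' i z = a i z) ∧ a' i x = a j x ∧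
      (∀ z, ¬ Ds (fun t => tl (a j t)) x z → a' j z = a j z) ∧
      ∀ c z s, tl (a' c z) = Sum.inr s ↔ tl (a c z) = Sum.inr s := by
  classical
  obtain ⟨Q, hQ⟩ : ∃ Q : Finset T, ∀ z, z ∈ Q ↔ z ∈ T' ∨ Ds (fun t => tl (a i t)) z y :=
    ⟨univ.filter (fun z => z ∈ T' ∨ Ds (fun t => tl (a i t)) z y), fun z => by simp⟩
  obtain ⟨S, hS⟩ : ∃ S : Finset T, ∀ z, z ∈ S ↔ Ds (fun t => tl (a j t)) x z :=
    ⟨univ.filter (fun z => Ds (fun t => tl (a j t)) x z), fun z => by simp⟩
  have hxS : x ∈ S := (hS x).2 (ds_refl x)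
  have hQcl : ∀ z ∈ Q, ∀ u, tl (a i z) = Sum.inl u → u ∈ Q := by
    intro z hz u hu
    rcases (hQ z).1 hz with h | h
    · exact (hQ u).2 (Or.inl (hT' z h u hu))
    · exact (hQ u).2 (Or.inr (ds_trans (ds_single hu) h))
  have hScl : ∀ z, z ∉ S → ∀ u, tl (a j z) = Sum.inl u → u ∉ S := by
    intro z hz u hu huS
    exact hz ((hS z).2 (ds_tail ((hS u).1 huS) hu))
  have hTS : ∀ z ∈ S, z ∉ T' := fun z hz hzT => hdis z hzT ((hS z).1 hz)
  have hxA : ¬ Ds (fun t => tl (a i t)) x y := by
    intro h
    apply hnb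
    refine ⟨{x}, mem_singleton_self x, ?_, ?_, ?_⟩
    · intro z hz
      rw [mem_singleton.1 hz]
      exact ds_refl x
    · intro z hz hzx
      exact absurd (mem_singleton.1 hz) hzx
    · intro z hz _
      rw [mem_singleton.1 hz]
      exact h
  have hxQ : x ∉ Q := fun h => ((hQ x).1 h).elim hxT hxA
  have hu₀Q : u₀ ∈ Q := (hQ u₀).2 (Or.inl hu₀)
  have hne : ∀ z z', a i z ≠ a j z' := by
    intro z z' h
    have h1 := congrArg hd h
    rw [ha.p1, ha.p1] at h1
    rw [h1] at h
    exact hij (ha.p2 z' h)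
  obtain ⟨A, hA⟩ : ∃ A : Finset E, ∀ e, e ∈ A ↔ (∃ z, z ∉ Q ∧ e = a i z) ∨
      ∃ z, z ∈ S ∧ z ≠ x ∧ e = a j z :=
    ⟨univ.filter (fun e => (∃ z, z ∉ Q ∧ e = a i z) ∨ ∃ z, z ∈ S ∧ z ≠ x ∧ e = a j z),
      fun e => by simp⟩
  -- the sets of roots
  obtain ⟨Ro, hRt, hRf⟩ : ∃ Ro : Bool → Finset T, Ro true = insert x Q ∧ Ro false = univ \ S :=
    ⟨fun c => if c then insert x Q else univ \ S, rfl, rfl⟩
  have hcond : ∀ W : Finset T, W.Nonempty → (univ.filter (fun c => Disjoint (Ro c) W)).card ≤
      (A.filter (fun e => hd e ∈ W ∧ ∀ u ∈ W, tl e ≠ Sum.inl u)).card := by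
    intro W hW
    -- an arc of colour `i`
    have fi : ∀ z ∈ W, z ∉ Q → (∀ u ∈ W, tl (a i z) ≠ Sum.inl u) →
        a i z ∈ A.filter (fun e => hd e ∈ W ∧ ∀ u ∈ W, tl e ≠ Sum.inl u) := by
      intro z hz hzQ hzu
      rw [mem_filter, ha.p1]
      exact ⟨(hA _).2 (Or.inl ⟨z, hzQ, rfl⟩), hz, hzu⟩
    have fj : ∀ z ∈ W, z ∈ S → z ≠ x → (∀ u ∈ W, tl (a j z) ≠ Sum.inl u) →
        a j z ∈ A.filter (fun e => hd e ∈ W ∧ ∀ u ∈ W, tl e ≠ Sum.inl u) := by
      intro z hz hzS hzx hzu
      rw [mem_filter, ha.p1]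
      exact ⟨(hA _).2 (Or.inr ⟨z, hzS, hzx, rfl⟩), hz, hzu⟩
    obtain ⟨zi, hzi, hzi'⟩ := ha.p3 i W hW
    obtain ⟨zj, hzj, hzj'⟩ := ha.p3 j W hW
    by_cases h1 : Disjoint (Ro true) W
    · rw [hRt, disjoint_left] at h1
      have hxW : x ∉ W := fun h => h1 (mem_insert_self x Q) h
      have hQW : ∀ z ∈ W, z ∉ Q := fun z hz hzQ => h1 (mem_insert_of_mem hzQ) hz
      have e1 := fi zi hzi (hQW zi hzi) hzi'
      by_cases h2 : Disjoint (Ro false) W
      · rw [hRf, disjoint_left] at h2
        have hWS : ∀ z ∈ W, z ∈ S := by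
          intro z hz
          by_contra hc
          exact h2 (mem_sdiff.2 ⟨mem_univ z, hc⟩) hz
        have e2 := fj zj hzj (hWS zj hzj) (fun h => hxW (h ▸ hzj)) hzj'
        calc (univ.filter (fun c => Disjoint (Ro c) W)).card ≤ (univ : Finset Bool).card :=
              card_le_card (filter_subset _ _)
          _ = 2 := by simp
          _ = ({a i zi, a j zj} : Finset E).card := by
              rw [card_pair (hne _ _)]
          _ ≤ _ := card_le_card (by
              intro e he
              rcases mem_insert.1 he with rfl | he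
              · exact e1
              · rw [mem_singleton.1 he]
                exact e2)
      · calc (univ.filter (fun c => Disjoint (Ro c) W)).card ≤ ({true} : Finset Bool).card := by
              apply card_le_card
              intro c hc
              rw [mem_filter] at hc
              rw [mem_singleton]
              cases c with
              | true => rfl
              | false => exact absurd hc.2 h2
          _ = 1 := by simp
          _ ≤ _ := card_pos.2 ⟨_, e1⟩
    · by_cases h2 : Disjoint (Ro false) W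
      · rw [hRf, disjoint_left] at h2
        have hWS : ∀ z ∈ W, z ∈ S := by
          intro z hz
          by_contra hc
          exact h2 (mem_sdiff.2 ⟨mem_univ z, hc⟩) hz
        have e1 : (A.filter (fun e => hd e ∈ W ∧ ∀ u ∈ W, tl e ≠ Sum.inl u)).Nonempty := by
          by_cases hxW : x ∈ W
          · by_cases h3 : ∃ z ∈ W, z ≠ x ∧ ∀ u ∈ W, tl (a j z) ≠ Sum.inl u
            · obtain ⟨z, hz, hzx, hzu⟩ := h3
              exact ⟨_, fj z hz (hWS z hz) hzx hzu⟩
            · push Not at h3
              by_contra hcon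
              apply hnb
              refine ⟨W, hxW, fun z hz => (hS z).1 (hWS z hz), fun z hz hzx => ?_,
                fun z hz hzu => ?_⟩
              · exact h3 z hz hzx
              · by_contra hzy
                apply hcon
                exact ⟨_, fi z hz (fun hzQ => ((hQ z).1 hzQ).elim (hTS z (hWS z hz)) hzy) hzu⟩
          · exact ⟨_, fj zj hzj (hWS zj hzj) (fun h => hxW (h ▸ hzj)) hzj'⟩
        calc (univ.filter (fun c => Disjoint (Ro c) W)).card ≤ ({false} : Finset Bool).card := by
              apply card_le_card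
              intro c hc
              rw [mem_filter] at hc
              rw [mem_singleton]
              cases c with
              | false => rfl
              | true => exact absurd hc.2 h1
          _ = 1 := by simp
          _ ≤ _ := card_pos.2 e1
      · have h0 : univ.filter (fun c => Disjoint (Ro c) W) = ∅ := by
          rw [filter_eq_empty_iff]
          intro c _
          cases c with
          | false => exact h2
          | true => exact h1
        rw [h0, card_empty]
        exact Nat.zero_le _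
  obtain ⟨B, hBA, hBd, hB⟩ := edmondsT hd tl A Ro hcond
  have hBd' : ∀ e, e ∈ B true → e ∈ B false → False := fun e h1 h2 =>
    (disjoint_left.1 (hBd true false (by simp))) h1 h2
  -- arcs of `A` with a given head
  have hAz : ∀ e ∈ A, ∀ z, hd e = z → (z ∉ Q ∧ e = a i z) ∨ (z ∈ S ∧ z ≠ x ∧ e = a j z) := by
    intro e he z hz
    rcases (hA e).1 he with ⟨z', h1, h2⟩ | ⟨z', h1, h2, h3⟩
    · rw [h2, ha.p1] at hz
      rw [← hz]
      exact Or.inl ⟨h1, h2⟩
    · rw [h3, ha.p1] at hz
      rw [← hz]
      exact Or.inr ⟨h1, h2, h3⟩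
  have hBt : ∀ z, z ∉ Q → z ≠ x → ∃ e ∈ B true, hd e = z := by
    intro z hzQ hzx
    obtain ⟨e, he, h1, _⟩ := hB true {z} (singleton_nonempty z) (by
      rw [hRt, disjoint_singleton_right, mem_insert]
      exact fun h => h.elim hzx hzQ)
    exact ⟨e, he, mem_singleton.1 h1⟩
  have hBf : ∀ z ∈ S, ∃ e ∈ B false, hd e = z := by
    intro z hzS
    obtain ⟨e, he, h1, _⟩ := hB false {z} (singleton_nonempty z) (by
      rw [hRf, disjoint_singleton_right, mem_sdiff]
      exact fun h => h.2 hzS)
    exact ⟨e, he, mem_singleton.1 h1⟩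
  -- the set of exchanged vertices
  obtain ⟨Sw, hSw⟩ : ∃ Sw : Finset T, ∀ z, z ∈ Sw ↔ z ∉ Q ∧ (z = x ∨ a i z ∉ B true) :=
    ⟨univ.filter (fun z => z ∉ Q ∧ (z = x ∨ a i z ∉ B true)), fun z => by simp⟩
  have hxSw : x ∈ Sw := (hSw x).2 ⟨hxQ, Or.inl rfl⟩
  have hSwj : ∀ z ∈ Sw, z ≠ x → a j z ∈ B true ∧ z ∈ S := by
    intro z hz hzx
    obtain ⟨h1, h2⟩ := (hSw z).1 hz
    obtain ⟨e, he, h3⟩ := hBt z h1 hzx
    rcases hAz e (hBA true he) z h3 with ⟨_, h4⟩ | ⟨h5, _, h4⟩
    · rw [h4] at he
      exact absurd he (h2.resolve_left hzx)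
    · rw [h4] at he
      exact ⟨he, h5⟩
  have hSwS : ∀ z ∈ Sw, z ∈ S := by
    intro z hz
    by_cases hzx : z = x
    · rw [hzx]
      exact hxS
    · exact (hSwj z hz hzx).2
  -- the new arcs
  obtain ⟨a', ha'⟩ : ∃ a' : Fin τ → T → E, ∀ c z, a' c z = if z ∈ Sw then a (Equiv.swap i j c) z
      else a c z := ⟨fun c z => if z ∈ Sw then a (Equiv.swap i j c) z else a c z, fun c z => rfl⟩
  have hn : ∀ c z, z ∉ Sw → a' c z = a c z := fun c z hz => by rw [ha', if_neg hz]
  have hi : ∀ z ∈ Sw, a' i z = a j z := fun z hz => by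
    rw [ha', if_pos hz, Equiv.swap_apply_left]
  have hj : ∀ z ∈ Sw, a' j z = a i z := fun z hz => by
    rw [ha', if_pos hz, Equiv.swap_apply_right]
  have hoth : ∀ c, c ≠ i → c ≠ j → a' c = a c := by
    intro c hci hcj
    funext z
    rw [ha', Equiv.swap_apply_of_ne_of_ne hci hcj, ite_self]
  have hQn : ∀ z ∈ Q, z ∉ Sw := fun z hz h => ((hSw z).1 h).1 hz
  have hSn : ∀ z, z ∉ S → z ∉ Sw := fun z hz h => hz (hSwS z h)
  -- arcs of `B true` outside the roots
  have hBi : ∀ z, z ∉ Q → z ≠ x → ∀ e ∈ B true, hd e = z → e = a' i z := by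
    intro z hzQ hzx e he hez
    rcases hAz e (hBA true he) z hez with ⟨_, h4⟩ | ⟨h5, _, h4⟩
    · have : z ∉ Sw := fun h => by
        rcases ((hSw z).1 h).2 with h6 | h6
        · exact hzx h6
        · exact h6 (h4 ▸ he)
      rw [hn i z this, h4]
    · by_cases hz : z ∈ Sw
      · rw [hi z hz, h4]
      · exfalso
        have h6 : a i z ∈ B true := by
          by_contra hc
          exact hz ((hSw z).2 ⟨hzQ, Or.inr hc⟩)
        obtain ⟨f, hf, hfz⟩ := hBf z h5
        rcases hAz f (hBA false hf) z hfz with ⟨_, h7⟩ | ⟨_, _, h7⟩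
        · exact hBd' f (h7 ▸ h6) hf
        · rw [h4] at he
          exact hBd' f (h7 ▸ he) hf
  have hBj : ∀ z ∈ S, ∀ e ∈ B false, hd e = z → e = a' j z := by
    intro z hzS e he hez
    rcases hAz e (hBA false he) z hez with ⟨h3, h4⟩ | ⟨_, h3, h4⟩
    · by_cases hz : z ∈ Sw
      · rw [hj z hz, h4]
      · exfalso
        have h6 : a i z ∈ B true := by
          by_contra hc
          exact hz ((hSw z).2 ⟨h3, Or.inr hc⟩)
        exact hBd' e (h4 ▸ h6) he
    · by_cases hz : z ∈ Sw
      · exfalso
        exact hBd' e (h4 ▸ (hSwj z hz h3).1) he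
      · rw [hn j z hz, h4]
  refine ⟨a', ⟨?_, ?_, ?_⟩, hoth, ?_, hi x hxSw, ?_, ?_⟩
  · intro c t
    rw [ha']
    split_ifs
    · exact ha.p1 _ _
    · exact ha.p1 _ _
  · intro t c c' h
    simp only [ha'] at h
    split_ifs at h
    · exact (Equiv.swap i j).injective (ha.p2 t h)
    · exact ha.p2 t h
  · intro c
    by_cases hci : c = i
    · subst hci
      intro W hW
      by_contra hcon
      push Not at hcon
      by_cases h1 : (W.filter (fun z => z ∈ Q)).Nonempty
      · obtain ⟨t, ht, ht'⟩ := ha.p3 c _ h1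
        rw [mem_filter] at ht
        obtain ⟨u, hu, hu'⟩ := hcon t ht.1
        rw [hn c t (hQn t ht.2)] at hu'
        exact ht' u (mem_filter.2 ⟨hu, hQcl t ht.2 u hu'⟩) hu'
      · have hWQ : ∀ z ∈ W, z ∉ Q := fun z hz hzQ => h1 ⟨z, mem_filter.2 ⟨hz, hzQ⟩⟩
        have hxW : x ∉ W := by
          intro hxW
          obtain ⟨u, hu, hu'⟩ := hcon x hxW
          rw [hi x hxSw, hxu] at hu'
          rw [← Sum.inl.inj hu'] at hu
          exact hWQ u₀ hu hu₀Q
        obtain ⟨e, he, h2, h3⟩ := hB true W hW (by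
          rw [hRt, disjoint_left]
          intro z hz hzW
          rcases mem_insert.1 hz with rfl | hz
          · exact hxW hzW
          · exact hWQ z hzW hz)
        have h4 := hBi (hd e) (hWQ _ h2) (fun h => hxW (h ▸ h2)) e he rfl
        obtain ⟨u, hu, hu'⟩ := hcon (hd e) h2
        rw [← h4] at hu'
        exact h3 u hu hu'
    · by_cases hcj : c = j
      · subst hcj
        intro W hW
        by_contra hcon
        push Not at hcon
        by_cases h1 : (W.filter (fun z => z ∉ S)).Nonempty
        · obtain ⟨t, ht, ht'⟩ := ha.p3 c _ h1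
          rw [mem_filter] at ht
          obtain ⟨u, hu, hu'⟩ := hcon t ht.1
          rw [hn c t (hSn t ht.2)] at hu'
          exact ht' u (mem_filter.2 ⟨hu, hScl t ht.2 u hu'⟩) hu'
        · have hWS : ∀ z ∈ W, z ∈ S := by
            intro z hz
            by_contra hzS
            exact h1 ⟨z, mem_filter.2 ⟨hz, hzS⟩⟩
          obtain ⟨e, he, h2, h3⟩ := hB false W hW (by
            rw [hRf, disjoint_left]
            intro z hz hzW
            exact (mem_sdiff.1 hz).2 (hWS z hzW))
          have h4 := hBj (hd e) (hWS _ h2) e he rfl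
          obtain ⟨u, hu, hu'⟩ := hcon (hd e) h2
          rw [← h4] at hu'
          exact h3 u hu hu'
      · rw [hoth c hci hcj]
        exact ha.p3 c
  · intro z hz
    exact hn i z (hQn z ((hQ z).2 hz))
  · intro z hz
    exact hn j z (hSn z (fun h => hz ((hS z).1 h)))
  · intro c z s
    by_cases hz : z ∈ Sw
    · have hqr : ∀ s, tl (a j z) ≠ Sum.inr s := by
        intro s hs
        have h1 : x = z := ds_root (p := fun t => tl (a j t)) hs ((hS z).1 (hSwS z hz))
        rw [← h1, hxu] at hs
        cases hs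
      have hpr : ∀ s, tl (a i z) ≠ Sum.inr s := by
        intro s hs
        exact ((hSw z).1 hz).1 ((hQ z).2 (hroot z s hs))
      by_cases hci : c = i
      · rw [hci, hi z hz]
        exact ⟨fun h => absurd h (hqr s), fun h => absurd h (hpr s)⟩
      · by_cases hcj : c = j
        · rw [hcj, hj z hz]
          exact ⟨fun h => absurd h (hpr s), fun h => absurd h (hqr s)⟩
        · rw [hoth c hci hcj]
    · rw [hn c z hz]

end Ts
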