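import Pool.Agent.H.MP_3adc02_co.ts.Defs

/-! A colour with many exits (note, 4c). -/

open Finset

namespace Ts

variable {T E : Type} [Fintype T] [DecidableEq T] [Fintype E] [DecidableEq E]

/-- `T'` is closed under children in colour `i`, and every vertex of `T'` except `r` has its parent
in `T'`; every vertex of `T'` has at least `τ` outgoing arcs.  Then another colour has at least
`|T'| + 1` arcs with tail in `T'`. -/
/- PROOF.
For every colour c the number n_c of x with tl (a c x) = Sum.inl u, u in T', equals the number of arcs a c x with tail in T'; every arc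
e is a c x for exactly one c and x = hd e (p1, p2, a1: the arcs into x are exactly a c x, c in Fin tau).  So
sum_c n_c = #{e : tl e in T'} = sum over t in T' of #{e : tl e = inl t} >= tau * |T'|.  For c = i: every x with parent in T' is in T' (hcl)
and x <> r (hr'), so n_i <= |T'| - 1.  If all other n_j <= |T'| then the sum is <= (tau - 1)|T'| + |T'| - 1 < tau |T'|.
-/
theorem exists_colour {τ : ℕ} {hd : E → T} {tl : E → T ⊕ Bool} {TT : Bool → Finset T}
    (hI : Inst τ hd tl TT) {a : Fin τ → T → E} (ha : Pk0 τ hd tl a) {i : Fin τ} {T' : Finset T}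
    (hdeg : ∀ t ∈ T', τ ≤ (univ.filter (fun e => tl e = Sum.inl t)).card)
    (hcl : ∀ z u, tl (a i z) = Sum.inl u → u ∈ T' → z ∈ T') {r : T} (hr : r ∈ T')
    (hr' : ∀ u, tl (a i r) ≠ Sum.inl u) :
    ∃ j, j ≠ i ∧ T'.card + 1 ≤ (univ.filter (fun x => ∃ u ∈ T', tl (a j x) = Sum.inl u)).card := by
  classical
  by_contra hcon
  push Not at hcon
  -- every arc is one of the `a c x`
  have hsurj : ∀ e : E, ∃ c x, a c x = e := by
    intro e
    have h1 : (univ.image (fun c => a c (hd e))) = univ.filter (fun e' => hd e' = hd e) := by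
      apply eq_of_subset_of_card_le
      · intro e' he'
        obtain ⟨c, -, rfl⟩ := mem_image.mp he'
        exact mem_filter.mpr ⟨mem_univ _, ha.p1 c (hd e)⟩
      · rw [hI.a1, card_image_of_injective _ (ha.p2 (hd e)), card_univ, Fintype.card_fin]
    have h2 : e ∈ univ.image (fun c => a c (hd e)) := by
      rw [h1]
      exact mem_filter.mpr ⟨mem_univ _, rfl⟩
    obtain ⟨c, -, hc⟩ := mem_image.mp h2
    exact ⟨c, hd e, hc⟩
  -- arcs with tail in `T'`
  have h1 : τ * T'.card ≤ (univ.filter (fun e => ∃ u ∈ T', tl e = Sum.inl u)).card := by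
    have h2 : (T'.biUnion fun t => univ.filter (fun e => tl e = Sum.inl t)) ⊆
        univ.filter (fun e => ∃ u ∈ T', tl e = Sum.inl u) := by
      intro e he
      obtain ⟨t, ht, he'⟩ := mem_biUnion.mp he
      exact mem_filter.mpr ⟨mem_univ _, t, ht, (mem_filter.mp he').2⟩
    have h3 : (T'.biUnion fun t => univ.filter (fun e => tl e = Sum.inl t)).card =
        ∑ t ∈ T', (univ.filter (fun e => tl e = Sum.inl t)).card := by
      apply card_biUnion
      intro t _ t' _ htt'
      show Disjoint (univ.filter (fun e => tl e = Sum.inl t)) (univ.filter (fun e => tl e = Sum.inl t'))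
      rw [disjoint_left]
      intro e he he'
      have h4 := (mem_filter.mp he).2
      rw [(mem_filter.mp he').2] at h4
      exact htt' (Sum.inl.inj h4).symm
    calc τ * T'.card = ∑ _t ∈ T', τ := by rw [sum_const, smul_eq_mul, mul_comm]
      _ ≤ ∑ t ∈ T', (univ.filter (fun e => tl e = Sum.inl t)).card := sum_le_sum hdeg
      _ = (T'.biUnion fun t => univ.filter (fun e => tl e = Sum.inl t)).card := h3.symm
      _ ≤ _ := card_le_card h2
  have h2 : (univ.filter (fun e => ∃ u ∈ T', tl e = Sum.inl u)).card ≤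
      ∑ c : Fin τ, (univ.filter (fun x => ∃ u ∈ T', tl (a c x) = Sum.inl u)).card := by
    have h3 : univ.filter (fun e => ∃ u ∈ T', tl e = Sum.inl u) ⊆
        (univ : Finset (Fin τ)).biUnion fun c =>
          (univ.filter (fun x => ∃ u ∈ T', tl (a c x) = Sum.inl u)).image (a c) := by
      intro e he
      obtain ⟨c, x, rfl⟩ := hsurj e
      exact mem_biUnion.mpr ⟨c, mem_univ _, mem_image.mpr ⟨x, mem_filter.mpr ⟨mem_univ _, (mem_filter.mp he).2⟩,
        rfl⟩⟩
    refine (card_le_card h3).trans (card_biUnion_le.trans ?_)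
    exact sum_le_sum fun c _ => card_image_le
  have h3 : (univ.filter (fun x => ∃ u ∈ T', tl (a i x) = Sum.inl u)).card + 1 ≤ T'.card := by
    have h4 : univ.filter (fun x => ∃ u ∈ T', tl (a i x) = Sum.inl u) ⊆ T'.erase r := by
      intro x hx
      obtain ⟨u, hu, hxu⟩ := (mem_filter.mp hx).2
      refine mem_erase.mpr ⟨?_, hcl x u hxu hu⟩
      rintro rfl
      exact hr' u hxu
    have h5 := card_le_card h4
    rw [card_erase_of_mem hr] at h5
    have h6 : 0 < T'.card := card_pos.mpr ⟨r, hr⟩
    omega
  have h4 : ∑ c ∈ univ.erase i, (univ.filter (fun x => ∃ u ∈ T', tl (a c x) = Sum.inl u)).card ≤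
      (τ - 1) * T'.card := by
    calc ∑ c ∈ univ.erase i, (univ.filter (fun x => ∃ u ∈ T', tl (a c x) = Sum.inl u)).card
        ≤ ∑ _c ∈ univ.erase i, T'.card := sum_le_sum fun c hc => by
          have := hcon c (ne_of_mem_erase hc)
          omega
      _ = (τ - 1) * T'.card := by
          rw [sum_const, card_erase_of_mem (mem_univ i), card_univ, Fintype.card_fin, smul_eq_mul]
  rw [← add_sum_erase _ _ (mem_univ i)] at h2
  have hτ : 1 ≤ τ := by
    have := i.isLt
    omega
  have h5 : (τ - 1) * T'.card + T'.card = τ * T'.card := by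
    obtain ⟨n, rfl⟩ : ∃ n, τ = n + 1 := ⟨τ - 1, by omega⟩
    rw [Nat.add_sub_cancel]
    ring
  omega

end Ts
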