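import Pool.Agent.H.MP_3adc02_co.ts.Chx
import Pool.Agent.H.MP_3adc02_co.ts.Exch
import Pool.Agent.H.MP_3adc02_co.ts.Jx

/-! One improvement step (note, 4e consequences) and the high degree case. -/

open Finset

namespace Ts

variable {T E : Type} [Fintype T] [DecidableEq T] [Fintype E] [DecidableEq E]

/-- The component of the `s`-root of colour `c` is inside `TT s`. -/
def Bad {τ : ℕ} (tl : E → T ⊕ Bool) (TT : Bool → Finset T) (a : Fin τ → T → E) (c : Fin τ)
    (s : Bool) : Prop :=
  ∃ r, tl (a c r) = Sum.inr s ∧ ∀ z, Ds (fun t => tl (a c t)) r z → z ∈ TT s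

omit [Fintype T] [DecidableEq T] in
/-- Ancestors survive if the parents along the path are the same. -/
private theorem Cns_lift {p p' : T → T ⊕ Bool} {u x : T} (h : Ds p u x)
    (hp : ∀ z, Ds p u z → Ds p z x → z ≠ u → p' z = p z) : Ds p' u x := by
  induction h with
  | refl => exact Relation.ReflTransGen.refl
  | @tail b c h1 h2 ih =>
    by_cases hc : c = u
    · rw [hc]
      exact Relation.ReflTransGen.refl
    · have h3 : Ds p' u b := ih fun z hz hz' hzu =>
        hp z hz (Relation.ReflTransGen.tail hz' h2) hzu
      refine Relation.ReflTransGen.tail h3 ?_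
      show p' c = Sum.inl b
      rw [hp c (Relation.ReflTransGen.tail h1 h2) Relation.ReflTransGen.refl hc]
      exact h2

/- PROOF.
p = colour i.  T' := {z : Ds p r z} (classical filter), subset of TT s.  exists_colour (Jx) gives j <> i with the count (hcl: ds_tail; hr' from hr).
choose_exit (Chx) gives x, y.  exchange (Exch): hT': if z in T' has parent u then (ds_par) z = r (impossible, hr) or u in T'; u0 from Lf;
hroot from fst_root.  Let a' be the result.  P4 a' from the equivalence of root arcs.  New ancestor relation of colour i: for z in T', Ds p r z gives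
Ds p' r z (induction on the path: all vertices of the path are in T', where a' i = a i).  x: its new parent is u0 in T'; x notin T'.
Bad a' c s' -> Bad a c s': c <> i, j: same colour.  c = i, s' = s: Bad a i s is hr, hb.  c = i, s' = !s: impossible: the root r0 (same root arc) is
not r, so by hroot it is an ancestor of y, all arcs above y are unchanged, so Ds p' r0 y, so y in TT (!s), but Fst says not.
c = j: root r' (same arc), q = old colour j, q' = new.  For z with Ds q r' z and not Ds q x z the whole path is outside the descendants of x, so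
Ds q' r' z, so z in TT s'.  s' = s: this is the hypothesis of NHarm: done.  s' = !s: let z be any vertex with Ds q r' z; if not Ds q x z fine;
otherwise r' and x are comparable, r' has no parent, so Ds q r' x and (ds_par, x <> r' since x has a parent) Ds q r' u0, and u0 is not below x
(not_ds_par), so u0 in TT (!s); but u0 in T', subset of TT s: contradiction with disj.
-/
theorem step {τ : ℕ} {hd : E → T} {tl : E → T ⊕ Bool} {TT : Bool → Finset T}
    (hI : Inst τ hd tl TT)
    (hdeg : ∀ s, ∀ t ∈ TT s, τ ≤ (univ.filter (fun e => tl e = Sum.inl t)).card)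
    {a : Fin τ → T → E} (ha : Pk0 τ hd tl a) (h4 : P4 tl a) {i : Fin τ} {s : Bool} {r : T}
    (hr : tl (a i r) = Sum.inr s) (hb : ∀ z, Ds (fun t => tl (a i t)) r z → z ∈ TT s) :
    ∃ a' : Fin τ → T → E, Pk0 τ hd tl a' ∧ P4 tl a' ∧
      (∀ c s', Bad tl TT a' c s' → Bad tl TT a c s') ∧ tl (a' i r) = Sum.inr s ∧
      (∀ z, Ds (fun t => tl (a i t)) r z → Ds (fun t => tl (a' i t)) r z) ∧
      ∃ x, ¬ Ds (fun t => tl (a i t)) r x ∧ Ds (fun t => tl (a' i t)) r x := by
  classical
  obtain ⟨T', hT'⟩ : ∃ T' : Finset T, ∀ z, z ∈ T' ↔ Ds (fun t => tl (a i t)) r z :=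
    ⟨univ.filter (fun z => Ds (fun t => tl (a i t)) r z), fun z => by simp⟩
  have hTs : T' ⊆ TT s := fun z hz => hb z ((hT' z).1 hz)
  have hrT : r ∈ T' := (hT' r).2 (ds_refl r)
  obtain ⟨j, hji, hc⟩ := exists_colour hI ha (i := i) (T' := T')
    (fun t ht => hdeg s t (hTs ht))
    (fun z u hz hu => (hT' z).2 (ds_tail ((hT' u).1 hu) hz)) hrT
    (fun u hu => by rw [hr] at hu; cases hu)
  obtain ⟨x, y, hx, hN, hy, hnb⟩ := choose_exit hI ha h4 hr hT' hTs hc
  obtain ⟨hxT, ⟨u0, hu0, hxu'⟩, hdis⟩ := hx
  have hxu : tl (a j x) = Sum.inl u0 := hxu'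
  have hpar : ∀ z ∈ T', ∀ u, tl (a i z) = Sum.inl u → u ∈ T' := by
    intro z hz u hu
    rcases ds_par (p := fun t => tl (a i t)) hu ((hT' z).1 hz) with h | h
    · subst h
      rw [hr] at hu
      cases hu
    · exact (hT' u).2 h
  obtain ⟨a', ha', hother, hAi, hAx, hAj, hroots⟩ := exchange ha (Ne.symm hji) hpar hxT hu0 hxu
    hdis (y := y) (fun z s' hz => by
      rcases fst_root ha h4 hr hb hy.1 hz with h | h
      · left
        rw [h]
        exact hrT
      · right
        exact h) hnb
  have hinc : ∀ z, Ds (fun t => tl (a i t)) r z → Ds (fun t => tl (a' i t)) r z := by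
    intro z hz
    refine Cns_lift hz fun w hw _ _ => ?_
    show tl (a' i w) = tl (a i w)
    rw [hAi w (Or.inl ((hT' w).2 hw))]
  refine ⟨a', ha', ?_, ?_, (hroots i r s).2 hr, hinc, x, fun h => hxT ((hT' x).2 h), ?_⟩
  · intro c s' t t' h1 h2
    exact h4 c s' t t' ((hroots c t s').1 h1) ((hroots c t' s').1 h2)
  · rintro c s' ⟨r1, hr1, hz⟩
    have hr1' : tl (a c r1) = Sum.inr s' := (hroots c r1 s').1 hr1
    by_cases hci : c = i
    · subst hci
      by_cases hs : s' = s
      · rw [hs]
        exact ⟨r, hr, hb⟩
      · exfalso
        have hs' : s' = !s := by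
          cases s <;> cases s' <;> simp_all
        rcases fst_root ha h4 hr hb hy.1 hr1' with h | h
        · rw [h, hr] at hr1'
          exact hs (Sum.inr.inj hr1').symm
        · have h5 : Ds (fun t => tl (a' c t)) r1 y := by
            refine Cns_lift h fun w _ hw _ => ?_
            show tl (a' c w) = tl (a c w)
            rw [hAi w (Or.inr hw)]
          have h6 := hz y h5
          rw [hs'] at h6
          exact hy.2.1 h6
    · by_cases hcj : c = j
      · subst hcj
        have hstar : ∀ z, Ds (fun t => tl (a c t)) r1 z → ¬ Ds (fun t => tl (a c t)) x z →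
            z ∈ TT s' := by
          intro z h1 h2
          refine hz z (Cns_lift h1 fun w _ hw _ => ?_)
          show tl (a' c w) = tl (a c w)
          rw [hAj w fun h3 => h2 (ds_trans h3 hw)]
        refine ⟨r1, hr1', ?_⟩
        by_cases hs : s' = s
        · rw [hs] at hr1' hstar ⊢
          exact hN r1 hr1' hstar
        · have hs' : s' = !s := by
            cases s <;> cases s' <;> simp_all
          intro z h1
          by_cases h2 : Ds (fun t => tl (a c t)) x z
          · exfalso
            have hne : r1 ≠ x := by
              rintro rfl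
              rw [hxu] at hr1'
              cases hr1'
            have h3 : Ds (fun t => tl (a c t)) r1 x := by
              rcases ds_chain h1 h2 with h | h
              · exact h
              · exact absurd (ds_root (p := fun t => tl (a c t)) hr1' h).symm hne
            rcases ds_par (p := fun t => tl (a c t)) hxu h3 with h | h
            · exact hne h
            · have h5 := hstar u0 h (not_ds_par (ha.p3 c) hxu)
              rw [hs'] at h5
              exact Finset.disjoint_left.1 (hI.disj s) (hTs hu0) h5
          · exact hstar z h1 h2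
      · have e1 : a' c = a c := hother c hci hcj
        refine ⟨r1, hr1', fun z h => hz z ?_⟩
        rw [e1]
        exact h
  · have h1 : Ds (fun t => tl (a' i t)) r u0 := hinc u0 ((hT' u0).1 hu0)
    refine ds_tail h1 ?_
    show tl (a' i x) = Sum.inl u0
    rw [hAx]
    exact hxu

end Ts
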