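import Pool.Agent.H.MP_3adc02_co.ts.Tree

/-! Counting leaf exits (note, 4c). -/

open Finset

namespace Ts

variable {T : Type} [Fintype T] [DecidableEq T]

/-- Leaf exit of `T'`: the parent is in `T'`, no descendant is in `T'`. -/
def Lf (p : T → T ⊕ Bool) (T' : Finset T) (x : T) : Prop :=
  x ∉ T' ∧ (∃ u ∈ T', p x = Sum.inl u) ∧ ∀ t ∈ T', ¬ Ds p x t

/- PROOF.
H := {y : some t in T' has Ds p t y and some t' in T' has Ds p y t'} (classical filter); T' is a subset of H.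
Top := {x in H : p x is not Sum.inl u for all u in H}.
(a) Top subset T': if x in Top is not in T', take t in T' with Ds p t x; the parent u of x (exists, t <> x) has Ds p t u
    (ds_par) and Ds p u t', so u in H: contradiction.  Top is nonempty (Acy for H).
(b) every y in H \ T' has a child in H (ds_head for Ds p y t', y <> t').
(c) #{x in H : parent in T'} = |H| - |Top| - #{x in H : parent in H \ T'} <= |H| - |Top| - |H \ T'| = |T'| - |Top|
    (x in H \ Top has its parent in H; by (b) map y in H \ T' to a child: injective since the parent is unique).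
(d) x notin H with parent u in T' is exactly a leaf exit: x notin T'; if Ds p x t with t in T' then Ds p u x gives x in H.
    So #Lf >= (|T'|+1) - (|T'| - |Top|) = 1 + |Top|.
If |Top| >= 2: three different leaf exits (Finset.two_lt_card or exists_subset_card_eq).  If |Top| = 1, Top = {t0}:
every y in T' has a component root in H (exists_comp_root for W = H), it is in Top, so Ds p t0 y; and #Lf >= 2.
-/
theorem exits {p : T → T ⊕ Bool} (ha : Acy p) (T' : Finset T) (hT : T'.Nonempty)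
    (hc : T'.card + 1 ≤ (univ.filter (fun x => ∃ u ∈ T', p x = Sum.inl u)).card) :
    (∃ x₁ x₂ x₃, x₁ ≠ x₂ ∧ x₁ ≠ x₃ ∧ x₂ ≠ x₃ ∧ Lf p T' x₁ ∧ Lf p T' x₂ ∧ Lf p T' x₃) ∨
    (∃ x₁ x₂, x₁ ≠ x₂ ∧ Lf p T' x₁ ∧ Lf p T' x₂ ∧ ∃ t₀ ∈ T', ∀ y ∈ T', Ds p t₀ y) := by
  classical
  obtain ⟨H, hH⟩ : ∃ H : Finset T, H = univ.filter (fun y => (∃ t ∈ T', Ds p t y) ∧
    ∃ t' ∈ T', Ds p y t') := ⟨_, rfl⟩
  have mH : ∀ y, y ∈ H ↔ (∃ t ∈ T', Ds p t y) ∧ ∃ t' ∈ T', Ds p y t' := fun y => by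
    rw [hH]; simp
  obtain ⟨Top, hTop⟩ : ∃ Top : Finset T, Top = H.filter (fun x => ∀ u ∈ H, p x ≠ Sum.inl u) :=
    ⟨_, rfl⟩
  have mTop : ∀ x, x ∈ Top ↔ x ∈ H ∧ ∀ u ∈ H, p x ≠ Sum.inl u := fun x => by
    rw [hTop]; simp
  have hTH : T' ⊆ H := fun t ht => (mH t).2 ⟨⟨t, ht, ds_refl t⟩, ⟨t, ht, ds_refl t⟩⟩
  have hTopT : Top ⊆ T' := by
    intro x hx
    by_contra hxT
    obtain ⟨h1, h2⟩ := (mTop x).1 hx
    obtain ⟨⟨t, ht, htx⟩, ⟨t', ht', hxt⟩⟩ := (mH x).1 h1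
    rcases hp : p x with u | s
    · rcases ds_par hp htx with h3 | h3
      · exact hxT (h3 ▸ ht)
      · exact h2 u ((mH u).2 ⟨⟨t, ht, h3⟩, ⟨t', ht', ds_trans (ds_single hp) hxt⟩⟩) hp
    · exact hxT (ds_root hp htx ▸ ht)
  have hroot : ∀ y ∈ T', ∃ q ∈ Top, Ds p q y := by
    intro y hy
    obtain ⟨q, h1, h2, h3, -⟩ := exists_comp_root ha H (hTH hy)
    exact ⟨q, (mTop q).2 ⟨h1, h2⟩, h3⟩
  -- children in `H` of the vertices of `H \ T'`
  have hch : ∀ y, ∃ c, y ∈ H \ T' → c ∈ H ∧ p c = Sum.inl y := by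
    intro y
    by_cases hy : y ∈ H \ T'
    · rw [mem_sdiff] at hy
      obtain ⟨⟨t, ht, hty⟩, ⟨t', ht', hyt⟩⟩ := (mH y).1 hy.1
      rcases ds_head hyt with h3 | ⟨c, h3, h4⟩
      · exact absurd (h3 ▸ ht') hy.2
      · exact ⟨c, fun _ => ⟨(mH c).2 ⟨⟨t, ht, ds_tail hty h3⟩, ⟨t', ht', h4⟩⟩, h3⟩⟩
    · exact ⟨y, fun h => absurd h hy⟩
  choose f hf using hch
  obtain ⟨D, hD⟩ : ∃ D : Finset T, D = H.filter (fun x => ∃ u ∈ H \ T', p x = Sum.inl u) := ⟨_, rfl⟩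
  obtain ⟨C, hC⟩ : ∃ C : Finset T, C = univ.filter (fun x => ∃ u ∈ T', p x = Sum.inl u) := ⟨_, rfl⟩
  have hC' : C = univ.filter (fun x => ∃ u ∈ T', p x = Sum.inl u) := hC
  have mC : ∀ x, x ∈ C ↔ ∃ u ∈ T', p x = Sum.inl u := fun x => by rw [hC]; simp
  have hDc : (H \ T').card ≤ D.card := by
    refine card_le_card_of_injOn f ?_ ?_
    · intro y hy
      obtain ⟨h1, h2⟩ := hf y hy
      rw [mem_coe, hD, mem_filter]
      exact ⟨h1, y, hy, h2⟩
    · intro y hy z hz hyz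
      have h1 := (hf y hy).2
      have h2 := (hf z hz).2
      rw [hyz, h2] at h1
      exact (Sum.inl.inj h1).symm
  have d1 : Disjoint (C ∩ H) D := by
    rw [Finset.disjoint_left]
    intro x hx hxD
    rw [mem_inter, mC] at hx
    rw [hD, mem_filter] at hxD
    obtain ⟨u, hu, h1⟩ := hx.1
    obtain ⟨-, w, hw, h2⟩ := hxD
    rw [h1] at h2
    rw [← Sum.inl.inj h2, mem_sdiff] at hw
    exact hw.2 hu
  have d2 : Disjoint ((C ∩ H) ∪ D) Top := by
    rw [Finset.disjoint_left]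
    intro x hx hxT
    obtain ⟨-, h1⟩ := (mTop x).1 hxT
    rw [mem_union] at hx
    rcases hx with hx | hx
    · rw [mem_inter, mC] at hx
      obtain ⟨u, hu, h2⟩ := hx.1
      exact h1 u (hTH hu) h2
    · rw [hD, mem_filter] at hx
      obtain ⟨-, u, hu, h2⟩ := hx
      exact h1 u (mem_sdiff.1 hu).1 h2
  have hsub : ((C ∩ H) ∪ D) ∪ Top ⊆ H := by
    intro x hx
    rw [mem_union, mem_union] at hx
    rcases hx with (hx | hx) | hx
    · exact (mem_inter.1 hx).2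
    · rw [hD, mem_filter] at hx
      exact hx.1
    · exact ((mTop x).1 hx).1
  have hcard := card_le_card hsub
  rw [card_union_of_disjoint d2, card_union_of_disjoint d1] at hcard
  have hsd : (H \ T').card + T'.card = H.card := card_sdiff_add_card_eq_card hTH
  have hsp : (C ∩ H).card + (C \ H).card = C.card := card_inter_add_card_sdiff C H
  rw [← hC'] at hc
  have hE : Top.card + 1 ≤ (C \ H).card := by omega
  have hLf : ∀ x ∈ C \ H, Lf p T' x := by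
    intro x hx
    rw [mem_sdiff, mC] at hx
    obtain ⟨⟨u, hu, h1⟩, h2⟩ := hx
    refine ⟨fun h => h2 (hTH h), ⟨u, hu, h1⟩, fun t ht h3 => h2 ?_⟩
    exact (mH x).2 ⟨⟨u, hu, ds_single h1⟩, ⟨t, ht, h3⟩⟩
  obtain ⟨y0, hy0⟩ := hT
  obtain ⟨q0, hq0, -⟩ := hroot y0 hy0
  have hTop1 : 1 ≤ Top.card := card_pos.2 ⟨q0, hq0⟩
  rcases Nat.lt_or_ge 1 Top.card with h2 | h2
  · left
    obtain ⟨x₁, a1, x₂, a2, x₃, a3, b1, b2, b3⟩ := two_lt_card.1 (show 2 < (C \ H).card by omega)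
    exact ⟨x₁, x₂, x₃, b1, b2, b3, hLf _ a1, hLf _ a2, hLf _ a3⟩
  · right
    obtain ⟨x₁, a1, x₂, a2, b1⟩ := one_lt_card.1 (show 1 < (C \ H).card by omega)
    obtain ⟨t₀, ht₀⟩ := card_eq_one.1 (show Top.card = 1 by omega)
    refine ⟨x₁, x₂, b1, hLf _ a1, hLf _ a2, t₀, hTopT (by rw [ht₀]; simp), fun y hy => ?_⟩
    obtain ⟨q, hq, h3⟩ := hroot y hy
    rw [ht₀, mem_singleton] at hq
    rw [← hq]
    exact h3

end Ts
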