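import Pool.Agent.H.MP_3adc02_co.ts.CvA

/-! Side cuts of the converted instance (note, Part 6, (A4)). -/

open Finset Classical

namespace Ts

variable {V Φ : Type} [Fintype V] [Fintype Φ] {τ : ℕ} {r : V → V → Prop} {ft fh : Φ → V}
  {sr : Bool → V}

omit [Fintype V] [Fintype Φ] in
private theorem cv4_rt {K : Bool → Set Φ} {e : Φ} {c : Bool}
    (h : rtV τ r fh sr K (Sum.inl e) = some c) : e ∈ K c := by
  simp only [rtV] at h
  split_ifs at h with h1 h2
  · cases h
    exact h1
  · cases h
    exact h2

omit [Fintype V] [Fintype Φ] in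
/-- a vertex above the source `c` is not below a source different from `c` -/
private theorem cv4_above (h : PInst τ r ft fh sr) {v : V} {b c : Bool} (h1 : r v (sr c))
    (h2 : r (sr b) v) : b = c := src_unique h (h.tr _ _ _ h2 h1)

omit [Fintype Φ] in
/-- maximal element -/
private theorem cv4_max (h : PInst τ r ft fh sr) (B : Finset (TV r sr)) (hB : B.Nonempty) :
    ∃ x ∈ B, ∀ y ∈ B, r y.1 x.1 → r x.1 y.1 := by
  obtain ⟨x, hx, hmin⟩ := B.exists_min_image
    (fun x => (univ.filter (fun z : TV r sr => r z.1 x.1)).card) hB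
  refine ⟨x, hx, fun y hy hyx => ?_⟩
  by_contra hn
  have h1 := hmin y hy
  have h2 : (univ.filter (fun z : TV r sr => r z.1 y.1)).card <
      (univ.filter (fun z : TV r sr => r z.1 x.1)).card := by
    apply card_lt_card
    refine ⟨fun z hz => ?_, fun hsub => ?_⟩
    · rw [mem_filter] at hz ⊢
      exact ⟨mem_univ _, h.tr _ _ _ hz.2 hyx⟩
    · have h3 : x ∈ univ.filter (fun z : TV r sr => r z.1 y.1) :=
        hsub (by rw [mem_filter]; exact ⟨mem_univ _, h.rf _⟩)
      rw [mem_filter] at h3
      exact hn h3.2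
  exact absurd h1 (not_le.2 h2)

/- PROOF.
S empty: the left side is 0.  Let S be nonempty.
Case 1: S is up-closed in TV (x in TV, y in S, r x y imply x in S).  X = {v : r v (sr b)} u S is up-closed in V (r a v, v in S: if r a (sr c) for some c then
r (sr c) a (below_of_above) so r (sr c) v, and v in TTV b is not below sr (!b), so c = b), it is nonempty and misses sr (!b).  cut: at least tau arcs of Phi leave X.
They are: arcs e with r (ft e) (sr b), head notin S (heads are never above a source: head_mem), and arcs with ft e in S, head notin S.  Those in K b with head notin S are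
tau - #(K b into S).  All others are, as inl e, arcs with rtV = none (e notin K b; e notin K (!b) since ft e is not above sr (!b)), head notin S and UV not disjoint
from S: for r (ft e) (sr b) the set UV contains all of S (S subset TTV b: every element is below sr b by cov), for ft e in S it contains ft e.
So #right >= tau - (tau - #(K b into S)) = #(K b into S) = #left.
Case 2: B = {x in TV, x notin S, r x y for some y in S} nonempty.  Take x0 in B maximal (x in B, r x x0 imply r x0 x), y0 in S with r x0 y0.  x0 is not below sr (!b) (else y0 is).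
Let k = #{e in K b : fh e = x0}.  All other arcs into x0 (tau in total, cvA_a1) are counted on the right: head x0 notin S.  inl e: r (ft e) (sr (!b)) is impossible
(x0 not below sr (!b)); r (ft e) (sr b), e notin K b: UV contains y0.  ft e in TV: r (ft e) y0, so ft e in S (then it is in UV and in S) or ft e in B and maximality gives r x0 (ft e),
contradiction with st.  inr (x0, k'): UV contains y0.  So #right >= tau - k.  #left = #{e in K b : fh e in S} <= tau - k since x0 notin S.
-/
theorem cv_a4 (h : PInst τ r ft fh sr) (hn : ∀ x, nn fh x ≤ τ) {K : Bool → Set Φ}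
    (hK : KK τ r ft sr K) (b : Bool) (S : Finset (TV r sr)) (hS : S ⊆ TTV r sr b) :
    (univ.filter (fun e => rtV τ r fh sr K e = some b ∧ hdV h e ∈ S)).card ≤
      (univ.filter (fun e => hdV h e ∉ S ∧ rtV τ r fh sr K e = none ∧
        ¬ Disjoint (UV τ r ft fh sr e) S)).card := by
  have hSb : ∀ y ∈ S, ¬ r (sr (!b)) y.1 := by
    intro y hy
    have h1 := hS hy
    rw [TTV, mem_filter] at h1
    exact h1.2
  have hSb' : ∀ y ∈ S, r (sr b) y.1 := by
    intro y hy
    obtain ⟨c, hc⟩ := h.cov y.1
    by_cases hcb : c = b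
    · rwa [hcb] at hc
    · have : c = !b := by cases b <;> cases c <;> simp_all
      rw [this] at hc
      exact absurd hc (hSb y hy)
  obtain ⟨Q, hQ, hQc⟩ : ∃ Q : Finset (EV τ r fh sr),
      (∀ e, e ∈ Q ↔ rtV τ r fh sr K e = some b) ∧ Q.card = τ :=
    ⟨_, fun e => by rw [mem_filter]; exact ⟨fun h1 => h1.2, fun h1 => ⟨mem_univ _, h1⟩⟩,
      cvA_a6 h hK b⟩
  obtain ⟨R, hR⟩ : ∃ R : Finset (EV τ r fh sr), ∀ e, e ∈ R ↔
      (hdV h e ∉ S ∧ rtV τ r fh sr K e = none ∧ ¬ Disjoint (UV τ r ft fh sr e) S) :=
    ⟨univ.filter (fun e => hdV h e ∉ S ∧ rtV τ r fh sr K e = none ∧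
      ¬ Disjoint (UV τ r ft fh sr e) S), fun e => by
        rw [mem_filter]; exact ⟨fun h1 => h1.2, fun h1 => ⟨mem_univ _, h1⟩⟩⟩
  obtain ⟨L, hL⟩ : ∃ L : Finset (EV τ r fh sr), ∀ e, e ∈ L ↔
      (rtV τ r fh sr K e = some b ∧ hdV h e ∈ S) :=
    ⟨univ.filter (fun e => rtV τ r fh sr K e = some b ∧ hdV h e ∈ S), fun e => by
        rw [mem_filter]; exact ⟨fun h1 => h1.2, fun h1 => ⟨mem_univ _, h1⟩⟩⟩
  refine le_trans (card_le_card (t := L) fun e he => (hL e).2 (mem_filter.1 he).2)
    (le_trans ?_ (card_le_card (s := R) fun e he => mem_filter.2 ⟨mem_univ _, (hR e).1 he⟩))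
  by_cases hne : S.Nonempty
  swap
  · rw [not_nonempty_iff_eq_empty] at hne
    have h1 : L = ∅ := by
      rw [eq_empty_iff_forall_notMem]
      intro e he
      have h2 := ((hL e).1 he).2
      rw [hne] at h2
      exact notMem_empty _ h2
    rw [h1, card_empty]
    exact Nat.zero_le _
  obtain ⟨y1, hy1⟩ := hne
  suffices hA : ∃ A : Finset (EV τ r fh sr), A ⊆ Q ∧ Disjoint L A ∧ τ ≤ A.card + R.card by
    obtain ⟨A, hAQ, hLA, hA2⟩ := hA
    have h1 : L.card + A.card ≤ τ := by
      rw [← card_union_of_disjoint hLA]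
      refine le_trans (card_le_card (t := Q) ?_) hQc.le
      intro e he
      rcases mem_union.1 he with he | he
      · exact (hQ e).2 ((hL e).1 he).1
      · exact hAQ he
    omega
  by_cases hup : ∀ x : TV r sr, ∀ y ∈ S, r x.1 y.1 → x ∈ S
  · -- `S` is closed under predecessors
    obtain ⟨X, hX⟩ : ∃ X : Set V, X = {v | r v (sr b) ∨ ∃ y ∈ S, y.1 = v} := ⟨_, rfl⟩
    have hXmem : ∀ v, v ∈ X ↔ (r v (sr b) ∨ ∃ y ∈ S, y.1 = v) := fun v => by rw [hX]; rfl
    have hXup : ∀ a v, r a v → v ∈ X → a ∈ X := by
      intro a v hav hv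
      rw [hXmem] at hv ⊢
      rcases hv with hv | ⟨y, hy, rfl⟩
      · exact Or.inl (h.tr _ _ _ hav hv)
      · by_cases ha : ∀ c, ¬ r a (sr c)
        · exact Or.inr ⟨⟨a, ha⟩, hup ⟨a, ha⟩ y hy hav, rfl⟩
        · push Not at ha
          obtain ⟨c, hc⟩ := ha
          have h1 : r (sr c) y.1 := h.tr _ _ _ (below_of_above h hc) hav
          by_cases hcb : c = b
          · rw [hcb] at hc
            exact Or.inl hc
          · have : c = !b := by cases b <;> cases c <;> simp_all
            rw [this] at h1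
            exact absurd h1 (hSb y hy)
    have hXne : X.Nonempty := ⟨sr b, (hXmem _).2 (Or.inl (h.rf _))⟩
    have hXu : X ≠ Set.univ := by
      intro hu
      have h1 : sr (!b) ∈ X := by rw [hu]; exact Set.mem_univ _
      rw [hXmem] at h1
      rcases h1 with h1 | ⟨y, hy, hy2⟩
      · have h2 := h.inc (!b)
        rw [Bool.not_not] at h2
        exact h2 h1
      · exact y.2 (!b) (by rw [hy2]; exact h.rf _)
    have hcut := h.cut X hXne hXu hXup
    refine ⟨Q.filter (fun e => hdV h e ∉ S), filter_subset _ _, ?_, ?_⟩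
    · rw [disjoint_left]
      intro e he he2
      exact (mem_filter.1 he2).2 ((hL e).1 he).2
    have hmap : ((univ.filter (fun e => ft e ∈ X ∧ fh e ∉ X)).image
        (Sum.inl : Φ → EV τ r fh sr)) ⊆ Q.filter (fun e => hdV h e ∉ S) ∪ R := by
      intro e' he'
      rw [mem_image] at he'
      obtain ⟨e, he, rfl⟩ := he'
      rw [mem_filter] at he
      obtain ⟨-, heX, heX2⟩ := he
      have hhd : hdV h (Sum.inl e) ∉ S := by
        intro h1
        exact heX2 ((hXmem _).2 (Or.inr ⟨_, h1, rfl⟩))
      rw [mem_union, mem_filter, hR, hQ]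
      rcases hrt : rtV τ r fh sr K (Sum.inl e) with _ | c
      · right
        refine ⟨hhd, rfl, ?_⟩
        rw [not_disjoint_iff]
        rcases (hXmem _).1 heX with h1 | ⟨y, hy, hy2⟩
        · refine ⟨y1, ?_, hy1⟩
          rw [UV, mem_filter]
          exact ⟨mem_univ _, Or.inl ⟨b, h1, hSb' y1 hy1⟩⟩
        · refine ⟨y, ?_, hy⟩
          rw [UV, mem_filter]
          exact ⟨mem_univ _, Or.inr hy2⟩
      · left
        refine ⟨?_, hhd⟩
        have h1 := hK.sub c e (cv4_rt hrt)
        rcases (hXmem _).1 heX with h2 | ⟨y, hy, hy2⟩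
        · rw [cv4_above h h2 (below_of_above h h1)]
        · exact absurd h1 (by rw [← hy2]; exact y.2 c)
    have h1 := card_le_card hmap
    rw [card_image_of_injective _ Sum.inl_injective] at h1
    have h2 : {e | ft e ∈ X ∧ fh e ∉ X}.ncard =
        (univ.filter (fun e => ft e ∈ X ∧ fh e ∉ X)).card := by
      rw [← Set.ncard_coe_finset]
      congr 1
      ext e
      simp
    rw [h2] at hcut
    exact hcut.trans (h1.trans (card_union_le _ _))
  · -- a maximal vertex outside `S` above `S`
    push Not at hup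
    obtain ⟨x', y', hy', hxy', hx'⟩ := hup
    obtain ⟨x0, hx0, hmax⟩ := cv4_max h
      (univ.filter (fun x : TV r sr => x ∉ S ∧ ∃ y ∈ S, r x.1 y.1))
      ⟨x', by rw [mem_filter]; exact ⟨mem_univ _, hx', y', hy', hxy'⟩⟩
    rw [mem_filter] at hx0
    obtain ⟨-, hx0S, y0, hy0, hxy0⟩ := hx0
    have hx0b : ¬ r (sr (!b)) x0.1 := fun h1 => hSb y0 hy0 (h.tr _ _ _ h1 hxy0)
    refine ⟨Q.filter (fun e => hdV h e = x0), filter_subset _ _, ?_, ?_⟩
    · rw [disjoint_left]
      intro e he he2
      have h1 := (mem_filter.1 he2).2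
      have h2 := ((hL e).1 he).2
      rw [h1] at h2
      exact hx0S h2
    refine (cvA_a1 h hn x0).ge.trans ?_
    refine le_trans (card_le_card (t := Q.filter (fun e => hdV h e = x0) ∪ R) ?_)
      (card_union_le _ _)
    intro e he
    rw [mem_filter] at he
    have hhd := he.2
    rw [mem_union, mem_filter, hR, hQ]
    rcases e with e | ⟨x, k⟩
    · have hfx : fh e = x0.1 := congrArg Subtype.val hhd
      rcases hrt : rtV τ r fh sr K (Sum.inl e) with _ | c
      · right
        refine ⟨by rw [hhd]; exact hx0S, rfl, ?_⟩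
        rw [not_disjoint_iff]
        by_cases hc : ∃ c, r (ft e) (sr c)
        · obtain ⟨c, hc⟩ := hc
          refine ⟨y0, ?_, hy0⟩
          rw [UV, mem_filter]
          refine ⟨mem_univ _, Or.inl ⟨c, hc, ?_⟩⟩
          have h1 : r (sr c) x0.1 := by
            rw [← hfx]
            exact h.tr _ _ _ (below_of_above h hc) (h.st e).1
          exact h.tr _ _ _ h1 hxy0
        · push Not at hc
          have h1 : r (ft e) x0.1 := by rw [← hfx]; exact (h.st e).1
          have h2 : (⟨ft e, hc⟩ : TV r sr) ∈ S := by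
            by_contra h3
            have h4 := hmax ⟨ft e, hc⟩ (by
              rw [mem_filter]
              exact ⟨mem_univ _, h3, y0, hy0, h.tr _ _ _ h1 hxy0⟩) h1
            rw [← hfx] at h4
            exact (h.st e).2 h4
          refine ⟨⟨ft e, hc⟩, ?_, h2⟩
          rw [UV, mem_filter]
          exact ⟨mem_univ _, Or.inr rfl⟩
      · left
        refine ⟨?_, hhd⟩
        have h1 := hK.sub c e (cv4_rt hrt)
        by_cases hcb : c = b
        · rw [hcb]
        · exfalso
          have hc : c = !b := by cases b <;> cases c <;> simp_all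
          rw [hc] at h1
          refine hx0b ?_
          rw [← hfx]
          exact h.tr _ _ _ (below_of_above h h1) (h.st e).1
    · right
      have hx : x = x0 := hhd
      subst hx
      refine ⟨hx0S, rfl, ?_⟩
      rw [not_disjoint_iff]
      refine ⟨y0, ?_, hy0⟩
      rw [UV, mem_filter]
      refine ⟨mem_univ _, hxy0, fun h1 => hx0S ?_⟩
      have h2 : y0 = x := h1
      rw [← h2]
      exact hy0

end Ts
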