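import Pool.Agent.H.MP_3adc02_co.ts.CvDefs

/-! From a packing of the converted instance back to the preorder (note, Part 6, BACK). -/

open Finset Classical

namespace Ts

variable {V Φ : Type} [Fintype V] [Fintype Φ] {τ : ℕ} {r : V → V → Prop} {ft fh : Φ → V}
  {sr : Bool → V}

/-- Every arc has a colour. -/
private theorem CvB_col {T E : Type} [Fintype T] [DecidableEq T] [Fintype E] [DecidableEq E]
    {τ : ℕ} {hd : E → T} {tl : E → T ⊕ Bool} {a : Fin τ → T → E}
    (h1 : ∀ t, (univ.filter (fun e => hd e = t)).card = τ) (ha : Pk0 τ hd tl a) (e : E) :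
    ∃ c, a c (hd e) = e := by
  classical
  have hsub : univ.image (fun c => a c (hd e)) ⊆ univ.filter (fun e' => hd e' = hd e) := by
    intro e' he'
    rw [Finset.mem_image] at he'
    obtain ⟨c, -, rfl⟩ := he'
    exact Finset.mem_filter.2 ⟨mem_univ _, ha.p1 c (hd e)⟩
  have hcard : (univ.filter (fun e' => hd e' = hd e)).card
      ≤ (univ.image (fun c => a c (hd e))).card := by
    rw [Finset.card_image_of_injective _ (ha.p2 (hd e)), Finset.card_univ, Fintype.card_fin]
    exact (h1 (hd e)).le
  have heq := Finset.eq_of_subset_of_card_le hsub hcard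
  have he : e ∈ univ.image (fun c => a c (hd e)) := by
    rw [heq]
    exact Finset.mem_filter.2 ⟨mem_univ _, rfl⟩
  rw [Finset.mem_image] at he
  obtain ⟨c, -, hc⟩ := he
  exact ⟨c, hc⟩

/-- Every colour has a root arc. -/
private theorem CvB_root {T E : Type} [Fintype T] [DecidableEq T] [Fintype E] [DecidableEq E]
    {τ : ℕ} {hd : E → T} {tl : E → T ⊕ Bool} {a : Fin τ → T → E}
    (h1 : ∀ t, (univ.filter (fun e => hd e = t)).card = τ) (ha : Pk0 τ hd tl a)
    (h4 : P4 tl a) {b : Bool} {P : E → Prop} [DecidablePred P] (hP : ∀ e, P e → tl e = Sum.inr b)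
    (hcard : (univ.filter P).card = τ) (c : Fin τ) : ∃ e, P e ∧ a c (hd e) = e := by
  classical
  choose col hcol using CvB_col h1 ha
  have hinj : Set.InjOn col (univ.filter P : Finset E) := by
    intro e he e' he' hee
    have h2 := (Finset.mem_filter.1 (Finset.mem_coe.1 he)).2
    have h3 := (Finset.mem_filter.1 (Finset.mem_coe.1 he')).2
    have h5 : hd e = hd e' := by
      refine h4 (col e) b _ _ ?_ ?_
      · rw [hcol e]
        exact hP e h2
      · rw [hee, hcol e']
        exact hP e' h3
    rw [← hcol e, ← hcol e', hee, h5]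
  have him : (univ.filter P).image col = univ := by
    refine Finset.eq_univ_of_card _ ?_
    rw [Finset.card_image_of_injOn hinj, hcard, Fintype.card_fin]
  have hc : c ∈ (univ.filter P).image col := by
    rw [him]
    exact mem_univ c
  rw [Finset.mem_image] at hc
  obtain ⟨e, he, rfl⟩ := hc
  exact ⟨e, (Finset.mem_filter.1 he).2, hcol e⟩

private theorem CvB_rt {K : Bool → Set Φ} {e : EV τ r fh sr} {b : Bool}
    (he : rtV τ r fh sr K e = some b) : ∃ e0, e = Sum.inl e0 ∧ e0 ∈ K b := by
  rcases e with e0 | d
  · refine ⟨e0, rfl, ?_⟩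
    change (if e0 ∈ K false then some false else if e0 ∈ K true then some true else none)
      = some b at he
    split_ifs at he with h1 h2
    · rw [← Option.some.inj he]
      exact h1
    · rw [← Option.some.inj he]
      exact h2
  · change (none : Option Bool) = some b at he
    exact absurd he (by simp)

/- PROOF.
Every arc e is a c (hd e) for exactly one colour c (hI.a1 and p1, p2: the map c -> a c t is a bijection onto the arcs into t).
So by the hypothesis hroot (exactly tau arcs with tail inr b) and P4 (at most one per colour) every colour has exactly one t with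
tl (a c t) = inr b (sum over c of a 0/1 count is tau).
F c := {e : Phi | a c (hd (inl e)) = inl e}.  Disjoint by p2.  Let X be up-closed, nonempty, not univ.  X contains sr false or sr true (cov).
(i) sr false, sr true in X: W = {x in TV : x.1 notin X} is nonempty (v notin X: r v (sr b) is impossible because then v in X... v is above sr b which is in X, up-closed).
 p3: x in W with tl (a c x) <> inl u for all u in W.  e = a c x.  e = inr (x', k) (then x' = x): rt = none, so tl e = inl u with u in UV, r x u.1, u notin W, so u.1 in X, so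
 x.1 in X: contradiction.  e = inl e0: fh e0 = x.1 notin X.  ft e0 in X: if rt e = some b: r (ft e0) (sr b) (hK.sub; rtV = some b implies e0 in K b) and sr b in X.  If rt e = none:
 tl e = inl u, u in UV: either r (ft e0) (sr b) for some b: fine; or u.1 = ft e0 and u notin W.
(ii) sr b in X, sr (!b) notin X: every v in X is not below sr (!b).  S = {x in TV : x.1 in X} subset TTV b.  Let t be the root of colour c: tl (a c t) = inr b; rt (a c t) = some b
 (if rt = none the tail is inl; if rt = some b' the tail is inr b'), so a c t = inl e0 with e0 in K b, ft e0 above sr b, in X.  If t notin S: fh e0 = t.1 notin X: done.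
 If t in S: Gd gives z notin S, u in S, tl (a c z) = inl u.  a c z = inr (z, k): r z u.1 so z.1 in X: contradiction.  a c z = inl e0: fh e0 = z.1 notin X; u in UV (rt = none): u.1 = ft e0 in X,
 or r (ft e0) (sr b') and r (sr b') u.1: b' = b because u is in TTV b, so ft e0 in X.
-/
theorem conv_back (h : PInst τ r ft fh sr) {K : Bool → Set Φ} (hK : KK τ r ft sr K)
    {tl : EV τ r fh sr → TV r sr ⊕ Bool}
    (h1 : ∀ e b, rtV τ r fh sr K e = some b → tl e = Sum.inr b)
    (h2 : ∀ e, rtV τ r fh sr K e = none → ∃ u ∈ UV τ r ft fh sr e, tl e = Sum.inl u)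
    (hI : Inst τ (hdV h) tl (TTV r sr))
    (hroot : ∀ b, (univ.filter (fun e => rtV τ r fh sr K e = some b)).card = τ)
    {a : Fin τ → TV r sr → EV τ r fh sr} (ha : Pk0 τ (hdV h) tl a) (h4 : P4 tl a)
    (hG : Gd tl (TTV r sr) a) : Sol τ r ft fh := by
  classical
  have hfh : ∀ {e0 : Φ} {x : TV r sr}, hdV h (Sum.inl e0) = x → fh e0 = x.1 := by
    rintro e0 x rfl
    rfl
  refine ⟨fun c => {e | a c (hdV h (Sum.inl e)) = Sum.inl e}, ?_, ?_⟩
  · intro c c' hne
    rw [Set.disjoint_left]
    intro e he he'
    have h5 : a c (hdV h (Sum.inl e)) = Sum.inl e := he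
    have h6 : a c' (hdV h (Sum.inl e)) = Sum.inl e := he'
    exact hne (ha.p2 (hdV h (Sum.inl e)) (h5.trans h6.symm))
  intro c X hXne hXun hXup
  by_cases hboth : ∀ b, sr b ∈ X
  · -- both sources in `X`
    obtain ⟨v, hv⟩ : ∃ v, v ∉ X := by
      by_contra hn
      push Not at hn
      exact hXun (Set.eq_univ_of_forall hn)
    have hvT : ∀ b, ¬ r v (sr b) := fun b hb => hv (hXup _ _ hb (hboth b))
    obtain ⟨x, hxW, hx⟩ := ha.p3 c (univ.filter fun x : TV r sr => x.1 ∉ X)
      ⟨⟨v, hvT⟩, Finset.mem_filter.2 ⟨mem_univ _, hv⟩⟩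
    rw [Finset.mem_filter] at hxW
    have hxX := hxW.2
    have hout : ∀ u : TV r sr, tl (a c x) = Sum.inl u → u.1 ∈ X := by
      intro u hu
      by_contra hn
      exact hx u (Finset.mem_filter.2 ⟨mem_univ _, hn⟩) hu
    have hhd := ha.p1 c x
    rcases hac : a c x with e0 | d
    · rw [hac] at hhd hout
      refine ⟨e0, ?_, ?_, ?_⟩
      · show a c (hdV h (Sum.inl e0)) = Sum.inl e0
        rw [hhd, hac]
      · rcases hrt : rtV τ r fh sr K (Sum.inl e0) with _ | b
        · obtain ⟨u, hu, hu2⟩ := h2 _ hrt
          have hu3 := (Finset.mem_filter.1 hu).2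
          rcases hu3 with ⟨b, hb, -⟩ | h5
          · exact hXup _ _ hb (hboth b)
          · rw [← h5]
            exact hout u hu2
        · obtain ⟨e1, h5, h6⟩ := CvB_rt hrt
          rw [← Sum.inl.inj h5] at h6
          exact hXup _ _ (hK.sub b e0 h6) (hboth b)
      · rw [hfh hhd]
        exact hxX
    · exfalso
      rw [hac] at hhd hout
      obtain ⟨u, hu, hu2⟩ := h2 (Sum.inr d) rfl
      have hu3 := (Finset.mem_filter.1 hu).2
      have h5 := hXup _ _ hu3.1 (hout u hu2)
      have h6 : d.1 = x := hhd
      rw [h6] at h5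
      exact hxX h5
  · -- one source in `X`
    push Not at hboth
    obtain ⟨b', hb'⟩ := hboth
    obtain ⟨v, hv⟩ := hXne
    obtain ⟨b, hb⟩ := h.cov v
    have hbX : sr b ∈ X := hXup _ _ hb hv
    have hbb : b' = !b := by
      have : b' ≠ b := by
        rintro rfl
        exact hb' hbX
      cases b <;> cases b' <;> simp_all
    subst hbb
    have hS : (univ.filter fun x : TV r sr => x.1 ∈ X) ⊆ TTV r sr b := by
      intro x hx
      have hx2 := (Finset.mem_filter.1 hx).2
      exact Finset.mem_filter.2 ⟨mem_univ _, fun h5 => hb' (hXup _ _ h5 hx2)⟩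
    obtain ⟨e, he, hec⟩ := CvB_root hI.a1 ha h4 (b := b)
      (P := fun e => rtV τ r fh sr K e = some b) (fun e he => h1 e b he) (hroot b) c
    obtain ⟨e0, rfl, he0⟩ := CvB_rt he
    have hftX : ft e0 ∈ X := hXup _ _ (hK.sub b e0 he0) hbX
    by_cases ht : fh e0 ∈ X
    · obtain ⟨z, hz, u, hu, hzu⟩ := hG c b _ hS ⟨hdV h (Sum.inl e0),
        Finset.mem_filter.2 ⟨mem_univ _, ht⟩, by rw [hec]; exact h1 _ b he⟩
      have hzX : z.1 ∉ X := fun h5 => hz (Finset.mem_filter.2 ⟨mem_univ _, h5⟩)
      have huX : u.1 ∈ X := (Finset.mem_filter.1 hu).2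
      have huT := (Finset.mem_filter.1 (hS hu)).2
      have hhd := ha.p1 c z
      have hrt : rtV τ r fh sr K (a c z) = none := by
        rcases hrt : rtV τ r fh sr K (a c z) with _ | b2
        · rfl
        · rw [h1 _ _ hrt] at hzu
          exact absurd hzu (by simp)
      obtain ⟨u', hu', hu'2⟩ := h2 _ hrt
      rw [hzu] at hu'2
      have huu : u = u' := Sum.inl.inj hu'2
      subst huu
      rcases hac : a c z with e1 | d
      · rw [hac] at hhd hu'
        refine ⟨e1, ?_, ?_, ?_⟩
        · show a c (hdV h (Sum.inl e1)) = Sum.inl e1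
          rw [hhd, hac]
        · rcases (Finset.mem_filter.1 hu').2 with ⟨b2, h5, h6⟩ | h5
          · have hb2 : b2 = b := by
              by_contra hne
              have h7 : b2 = !b := by
                cases b <;> cases b2 <;> simp_all
              rw [h7] at h6
              exact huT h6
            rw [hb2] at h5
            exact hXup _ _ h5 hbX
          · rw [← h5]
            exact huX
        · rw [hfh hhd]
          exact hzX
      · exfalso
        rw [hac] at hhd hu'
        have h5 := hXup _ _ (Finset.mem_filter.1 hu').2.1 huX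
        have h6 : d.1 = z := hhd
        rw [h6] at h5
        exact hzX h5
    · exact ⟨e0, hec, hftX, ht⟩

end Ts
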