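import Pool.Agent.H.MP_3adc02_co.ts.Defs

/-! Trimming the tail sets (note, Part 5). -/

open Finset

namespace Ts

variable {T E : Type} [Fintype T] [DecidableEq T] [Fintype E] [DecidableEq E]

/-- The arcs leaving the set `Y` together with the source `b` and, if `β`, the other source. -/
private def trim_lv (hd : E → T) (rt : E → Option Bool) (U : E → Finset T) (b β : Bool)
    (Y : Finset T) : Finset E :=
  univ.filter (fun e => hd e ∉ Y ∧ (rt e = some b ∨ (rt e = some (!b) ∧ β = true) ∨
    (rt e = none ∧ ¬ Disjoint (U e) Y)))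

private def trim_bb (τ : ℕ) (rt : E → Option Bool) (b β : Bool) : ℕ :=
  if β = true then τ else (univ.filter (fun e => rt e = some b)).card

private theorem trim_opt (x : Option Bool) (b : Bool) : x = some b ∨ x = some (!b) ∨ x = none := by
  rcases x with _ | x
  · exact Or.inr (Or.inr rfl)
  · cases x <;> cases b <;> simp

omit [DecidableEq E] in
private theorem trim_true {hd : E → T} {rt : E → Option Bool} {U : E → Finset T} (b : Bool)
    (W : Finset T) : trim_lv hd rt U b true Wᶜ =
      univ.filter (fun e => hd e ∈ W ∧ (rt e = none → ¬ U e ⊆ W)) := by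
  ext e
  have h1 : ¬ Disjoint (U e) Wᶜ ↔ ¬ U e ⊆ W := by
    rw [not_iff_not, disjoint_compl_right_iff]
  simp only [trim_lv, mem_filter, mem_univ, true_and, mem_compl, not_not, h1]
  rcases trim_opt (rt e) b with h | h | h <;> simp [h]

omit [Fintype T] in
private theorem trim_false {hd : E → T} {rt : E → Option Bool} {U : E → Finset T} (b : Bool)
    (S : Finset T) : (trim_lv hd rt U b false S).card +
      (univ.filter (fun e => rt e = some b ∧ hd e ∈ S)).card =
      (univ.filter (fun e => rt e = some b)).card +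
        (univ.filter (fun e => hd e ∉ S ∧ rt e = none ∧ ¬ Disjoint (U e) S)).card := by
  classical
  have h1 : trim_lv hd rt U b false S =
      univ.filter (fun e => rt e = some b ∧ hd e ∉ S) ∪
        univ.filter (fun e => hd e ∉ S ∧ rt e = none ∧ ¬ Disjoint (U e) S) := by
    ext e
    simp only [trim_lv, mem_filter, mem_univ, true_and, mem_union]
    rcases trim_opt (rt e) b with h | h | h <;> simp [h]
  have h2 : Disjoint (univ.filter (fun e => rt e = some b ∧ hd e ∉ S))
      (univ.filter (fun e => hd e ∉ S ∧ rt e = none ∧ ¬ Disjoint (U e) S)) := by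
    rw [disjoint_left]
    intro e he he'
    simp only [mem_filter, mem_univ, true_and] at he he'
    rw [he.1] at he'
    exact absurd he'.2.1 (by simp)
  have h3 : (univ.filter (fun e => rt e = some b)).card =
      (univ.filter (fun e => rt e = some b ∧ hd e ∈ S)).card +
        (univ.filter (fun e => rt e = some b ∧ hd e ∉ S)).card := by
    rw [← card_union_of_disjoint]
    · congr 1
      ext e
      simp only [mem_filter, mem_univ, true_and, mem_union]
      tauto
    · rw [disjoint_left]
      intro e he he'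
      simp only [mem_filter, mem_univ, true_and] at he he'
      exact he'.2 he.2
  rw [h1, card_union_of_disjoint h2, h3]
  omega

private theorem trim_ok {τ : ℕ} {hd : E → T} {rt : E → Option Bool} {U : E → Finset T}
    {TT : Bool → Finset T} (h : HInst τ hd rt U TT) (b β : Bool) (Y : Finset T)
    (h1 : β = true → Y ≠ univ) (h2 : β = false → Y ⊆ TT b) :
    trim_bb τ rt b β ≤ (trim_lv hd rt U b β Y).card := by
  cases β with
  | true =>
    have h3 : Y = (Yᶜ)ᶜ := (compl_compl Y).symm
    rw [h3, trim_true]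
    refine h.a2 _ ?_
    rw [nonempty_iff_ne_empty]
    intro h4
    exact h1 rfl (compl_eq_empty_iff Y |>.1 h4)
  | false =>
    have h3 := trim_false (hd := hd) (rt := rt) (U := U) b Y
    have h4 := h.a4 b Y (h2 rfl)
    have h5 : trim_bb τ rt b false = (univ.filter (fun e => rt e = some b)).card := by
      simp [trim_bb]
    rw [h5]
    omega

omit [Fintype T] in
private theorem trim_uncross {hd : E → T} {rt : E → Option Bool} {U : E → Finset T} (b : Bool)
    {β₁ β₂ : Bool} {Y₁ Y₂ : Finset T} {e₀ : E} (h0 : rt e₀ = none)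
    (k1 : hd e₀ ∉ Y₁) (k2 : hd e₀ ∉ Y₂) (m1 : ¬ Disjoint (U e₀) Y₁) (m2 : ¬ Disjoint (U e₀) Y₂)
    (m3 : Disjoint (U e₀) (Y₁ ∩ Y₂)) :
    (trim_lv hd rt U b (β₁ && β₂) (Y₁ ∩ Y₂)).card + (trim_lv hd rt U b (β₁ || β₂) (Y₁ ∪ Y₂)).card +
      1 ≤ (trim_lv hd rt U b β₁ Y₁).card + (trim_lv hd rt U b β₂ Y₂).card := by
  classical
  obtain ⟨P₁, hP₁⟩ : ∃ P : E → Prop, P = fun e => rt e = some b ∨
      (rt e = some (!b) ∧ β₁ = true) ∨ (rt e = none ∧ ¬ Disjoint (U e) Y₁) := ⟨_, rfl⟩
  obtain ⟨P₂, hP₂⟩ : ∃ P : E → Prop, P = fun e => rt e = some b ∨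
      (rt e = some (!b) ∧ β₂ = true) ∨ (rt e = none ∧ ¬ Disjoint (U e) Y₂) := ⟨_, rfl⟩
  have g₁ : ∀ e, e ∈ trim_lv hd rt U b β₁ Y₁ ↔ hd e ∉ Y₁ ∧ P₁ e := fun e => by
    rw [hP₁]
    simp only [trim_lv, mem_filter, mem_univ, true_and]
  have g₂ : ∀ e, e ∈ trim_lv hd rt U b β₂ Y₂ ↔ hd e ∉ Y₂ ∧ P₂ e := fun e => by
    rw [hP₂]
    simp only [trim_lv, mem_filter, mem_univ, true_and]
  have gi : ∀ e, e ∈ trim_lv hd rt U b (β₁ && β₂) (Y₁ ∩ Y₂) →
      (hd e ∉ Y₁ ∨ hd e ∉ Y₂) ∧ P₁ e ∧ P₂ e := by
    intro e he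
    simp only [trim_lv, mem_filter, mem_univ, true_and, Bool.and_eq_true] at he
    obtain ⟨h1, h2⟩ := he
    refine ⟨?_, ?_⟩
    · by_contra h3
      push Not at h3
      exact h1 (mem_inter.2 h3)
    · rw [hP₁, hP₂]
      rcases h2 with h2 | ⟨h2, h3, h4⟩ | ⟨h2, h3⟩
      · exact ⟨Or.inl h2, Or.inl h2⟩
      · exact ⟨Or.inr (Or.inl ⟨h2, h3⟩), Or.inr (Or.inl ⟨h2, h4⟩)⟩
      · exact ⟨Or.inr (Or.inr ⟨h2, fun h => h3 (h.mono_right inter_subset_left)⟩),
          Or.inr (Or.inr ⟨h2, fun h => h3 (h.mono_right inter_subset_right)⟩)⟩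
  have gu : ∀ e, e ∈ trim_lv hd rt U b (β₁ || β₂) (Y₁ ∪ Y₂) →
      hd e ∉ Y₁ ∧ hd e ∉ Y₂ ∧ (P₁ e ∨ P₂ e) := by
    intro e he
    simp only [trim_lv, mem_filter, mem_univ, true_and, Bool.or_eq_true] at he
    obtain ⟨h1, h2⟩ := he
    refine ⟨fun h => h1 (mem_union_left _ h), fun h => h1 (mem_union_right _ h), ?_⟩
    rw [hP₁, hP₂]
    rcases h2 with h2 | ⟨h2, h3 | h3⟩ | ⟨h2, h3⟩
    · exact Or.inl (Or.inl h2)
    · exact Or.inl (Or.inr (Or.inl ⟨h2, h3⟩))
    · exact Or.inr (Or.inr (Or.inl ⟨h2, h3⟩))
    · by_cases h4 : Disjoint (U e) Y₁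
      · exact Or.inr (Or.inr (Or.inr ⟨h2, fun h5 => h3 (disjoint_union_right.2 ⟨h4, h5⟩)⟩))
      · exact Or.inl (Or.inr (Or.inr ⟨h2, h4⟩))
  have hu : trim_lv hd rt U b (β₁ && β₂) (Y₁ ∩ Y₂) ∪ trim_lv hd rt U b (β₁ || β₂) (Y₁ ∪ Y₂) ⊆
      trim_lv hd rt U b β₁ Y₁ ∪ trim_lv hd rt U b β₂ Y₂ := by
    intro e he
    rw [mem_union, g₁, g₂]
    rcases mem_union.1 he with he | he
    · obtain ⟨h1 | h1, h2, h3⟩ := gi e he
      · exact Or.inl ⟨h1, h2⟩
      · exact Or.inr ⟨h1, h3⟩
    · obtain ⟨h1, h2, h3 | h3⟩ := gu e he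
      · exact Or.inl ⟨h1, h3⟩
      · exact Or.inr ⟨h2, h3⟩
  have hi : trim_lv hd rt U b (β₁ && β₂) (Y₁ ∩ Y₂) ∩ trim_lv hd rt U b (β₁ || β₂) (Y₁ ∪ Y₂) ⊆
      (trim_lv hd rt U b β₁ Y₁ ∩ trim_lv hd rt U b β₂ Y₂).erase e₀ := by
    intro e he
    rw [mem_inter] at he
    rw [mem_erase]
    constructor
    · intro hee
      have he1 := he.1
      simp only [trim_lv, mem_filter, mem_univ, true_and, hee, h0] at he1
      rcases he1.2 with h | h | h
      · exact absurd h (by simp)
      · exact absurd h.1 (by simp)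
      · exact h m3
    · obtain ⟨-, h2, h3⟩ := gi e he.1
      obtain ⟨h4, h5, -⟩ := gu e he.2
      rw [mem_inter, g₁, g₂]
      exact ⟨⟨h4, h2⟩, ⟨h5, h3⟩⟩
  have he₀ : e₀ ∈ trim_lv hd rt U b β₁ Y₁ ∩ trim_lv hd rt U b β₂ Y₂ := by
    simp only [trim_lv, mem_filter, mem_univ, true_and, mem_inter]
    exact ⟨⟨k1, Or.inr (Or.inr ⟨h0, m1⟩)⟩, ⟨k2, Or.inr (Or.inr ⟨h0, m2⟩)⟩⟩
  have c1 := card_le_card hu
  have c2 := card_le_card hi
  have c3 := card_erase_add_one he₀
  have c4 := card_union_add_card_inter (trim_lv hd rt U b β₁ Y₁) (trim_lv hd rt U b β₂ Y₂)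
  have c5 := card_union_add_card_inter (trim_lv hd rt U b (β₁ && β₂) (Y₁ ∩ Y₂))
    (trim_lv hd rt U b (β₁ || β₂) (Y₁ ∪ Y₂))
  omega

/-- If the tail `u` of `e₀` cannot be removed, there is a tight set. -/
private theorem trim_fail {τ : ℕ} {hd : E → T} {rt : E → Option Bool} {U : E → Finset T}
    {TT : Bool → Finset T} (h : HInst τ hd rt U TT) {e₀ : E} (h0 : rt e₀ = none) {u u' : T}
    (hu : u ∈ U e₀) (hu' : u' ∈ U e₀) (hne : u' ≠ u) {s : Bool} (hs : hd e₀ ∉ TT s)
    (hsd : Disjoint (U e₀) (TT s)) :
    HInst τ hd rt (Function.update U e₀ ((U e₀).erase u)) TT ∨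
      ∃ (β : Bool) (Y : Finset T), (β = true → Y ≠ univ) ∧ (β = false → Y ⊆ TT (!s)) ∧
        (trim_lv hd rt U (!s) β Y).card ≤ trim_bb τ rt (!s) β ∧ hd e₀ ∉ Y ∧ u ∈ Y ∧
        ∀ x ∈ U e₀, x ∈ Y → x = u := by
  classical
  by_contra hcon
  push Not at hcon
  obtain ⟨hno, hcon⟩ := hcon
  apply hno
  obtain ⟨U', hU'⟩ : ∃ U' : E → Finset T, U' = Function.update U e₀ ((U e₀).erase u) := ⟨_, rfl⟩
  rw [← hU']
  have e1 : ∀ e, e ≠ e₀ → U' e = U e := fun e he => by
    rw [hU', Function.update_of_ne he]
  have e2 : U' e₀ = (U e₀).erase u := by rw [hU', Function.update_self]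
  refine ⟨h.disj, h.a1, ?_, ?_, h.a3r, ?_, ?_, h.a6⟩
  · intro e he
    by_cases hee : e = e₀
    · rw [hee, e2]
      exact ⟨u', mem_erase.2 ⟨hne, hu'⟩⟩
    · rw [e1 e hee]
      exact h.ne e he
  · intro W hW
    by_contra hlt
    push Not at hlt
    have hA := h.a2 W hW
    obtain ⟨A, hAd⟩ : ∃ A : Finset E, A =
      univ.filter (fun e => hd e ∈ W ∧ (rt e = none → ¬ U e ⊆ W)) := ⟨_, rfl⟩
    obtain ⟨A', hAd'⟩ : ∃ A : Finset E, A =
      univ.filter (fun e => hd e ∈ W ∧ (rt e = none → ¬ U' e ⊆ W)) := ⟨_, rfl⟩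
    rw [← hAd] at hA
    rw [← hAd'] at hlt
    have hsub : A.erase e₀ ⊆ A' := by
      intro e he
      rw [mem_erase] at he
      rw [hAd']
      rw [hAd] at he
      simp only [mem_filter, mem_univ, true_and] at he ⊢
      rw [e1 e he.1]
      exact he.2
    have hmem : e₀ ∈ A := by
      by_contra hn
      rw [erase_eq_of_notMem hn] at hsub
      have := card_le_card hsub
      omega
    have hnm : e₀ ∉ A' := by
      intro hn
      have h1 : A ⊆ A' := by
        intro e he
        by_cases hee : e = e₀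
        · rw [hee]
          exact hn
        · exact hsub (mem_erase.2 ⟨hee, he⟩)
      have := card_le_card h1
      omega
    have hc := card_le_card hsub
    have hc' := card_erase_add_one hmem
    rw [hAd] at hmem
    rw [hAd'] at hnm
    simp only [mem_filter, mem_univ, true_and] at hmem hnm
    have hW1 := hmem.1
    have hW2 : ¬ U e₀ ⊆ W := hmem.2 h0
    have hW3 : (U e₀).erase u ⊆ W := by
      by_contra h3
      exact hnm ⟨hW1, fun _ => by rw [e2]; exact h3⟩
    have huW : u ∉ W := by
      intro h3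
      apply hW2
      intro x hx
      by_cases hxu : x = u
      · rw [hxu]
        exact h3
      · exact hW3 (mem_erase.2 ⟨hxu, hx⟩)
    obtain ⟨x, hx, hx', hxu⟩ := hcon true Wᶜ (fun _ h3 => by
        have : W = ∅ := by
          rw [← compl_compl W, h3, compl_univ]
        exact hW.ne_empty this) (fun h3 => by simp at h3)
      (by
        rw [trim_true, ← hAd]
        simp only [trim_bb, if_true]
        omega) (by simpa using hW1) (by simpa using huW)
    rw [mem_compl] at hx'
    exact hx' (hW3 (mem_erase.2 ⟨hxu, hx⟩))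
  · intro e he
    by_cases hee : e = e₀
    · refine ⟨s, by rw [hee]; exact hs, ?_⟩
      rw [hee, e2]
      exact hsd.mono_left (erase_subset _ _)
    · rw [e1 e hee]
      exact h.a3 e he
  · intro s' S hS
    have hA := h.a4 s' S hS
    by_contra hlt
    push Not at hlt
    obtain ⟨A, hAd⟩ : ∃ A : Finset E, A =
      univ.filter (fun e => hd e ∉ S ∧ rt e = none ∧ ¬ Disjoint (U e) S) := ⟨_, rfl⟩
    obtain ⟨A', hAd'⟩ : ∃ A : Finset E, A =
      univ.filter (fun e => hd e ∉ S ∧ rt e = none ∧ ¬ Disjoint (U' e) S) := ⟨_, rfl⟩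
    rw [← hAd] at hA
    rw [← hAd'] at hlt
    have hsub : A.erase e₀ ⊆ A' := by
      intro e he
      rw [mem_erase] at he
      rw [hAd']
      rw [hAd] at he
      simp only [mem_filter, mem_univ, true_and] at he ⊢
      rw [e1 e he.1]
      exact he.2
    have hmem : e₀ ∈ A := by
      by_contra hn
      rw [erase_eq_of_notMem hn] at hsub
      have := card_le_card hsub
      omega
    have hnm : e₀ ∉ A' := by
      intro hn
      have h1 : A ⊆ A' := by
        intro e he
        by_cases hee : e = e₀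
        · rw [hee]
          exact hn
        · exact hsub (mem_erase.2 ⟨hee, he⟩)
      have := card_le_card h1
      omega
    have hc := card_le_card hsub
    have hc' := card_erase_add_one hmem
    have hAd2 := hAd
    rw [hAd] at hmem
    rw [hAd'] at hnm
    simp only [mem_filter, mem_univ, true_and] at hmem hnm
    have hS1 := hmem.1
    have hS2 : ¬ Disjoint (U e₀) S := hmem.2.2
    have hS3 : Disjoint ((U e₀).erase u) S := by
      by_contra h3
      exact hnm ⟨hS1, h0, by rw [e2]; exact h3⟩
    have hx0 : ∀ x ∈ U e₀, x ∈ S → x = u := by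
      intro x hx hxS
      by_contra hxu
      exact disjoint_left.1 hS3 (mem_erase.2 ⟨hxu, hx⟩) hxS
    have huS : u ∈ S := by
      rw [not_disjoint_iff] at hS2
      obtain ⟨x, hx, hxS⟩ := hS2
      rw [← hx0 x hx hxS]
      exact hxS
    have hs' : s' = !s := by
      by_contra hne'
      have h3 : s' = s := by
        cases s <;> cases s' <;> simp_all
      rw [h3] at hS
      exact disjoint_left.1 hsd hu (hS huS)
    subst hs'
    have h5 := trim_false (hd := hd) (rt := rt) (U := U) (!s) S
    obtain ⟨x, hx, hx', hxu⟩ := hcon false S (fun h3 => by simp at h3) (fun _ => hS)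
      (by
        have h6 : trim_bb τ rt (!s) false =
            (univ.filter (fun e => rt e = some (!s))).card := by
          simp [trim_bb]
        rw [h6]
        rw [← hAd2] at h5
        omega) hS1 huS
    exact hxu (hx0 x hx hx')

private theorem trim_step {τ : ℕ} {hd : E → T} {rt : E → Option Bool} {U : E → Finset T}
    {TT : Bool → Finset T} (h : HInst τ hd rt U TT) {e₀ : E} (h0 : rt e₀ = none) {u₁ u₂ : T}
    (h1 : u₁ ∈ U e₀) (h2 : u₂ ∈ U e₀) (hne : u₁ ≠ u₂) :
    HInst τ hd rt (Function.update U e₀ ((U e₀).erase u₁)) TT ∨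
      HInst τ hd rt (Function.update U e₀ ((U e₀).erase u₂)) TT := by
  classical
  obtain ⟨s, hs, hsd⟩ := h.a3 e₀ h0
  rcases trim_fail h h0 h1 h2 hne.symm hs hsd with hk | ⟨β₁, Y₁, a1, a2, a3, a4, a5, a6⟩
  · exact Or.inl hk
  rcases trim_fail h h0 h2 h1 hne hs hsd with hk | ⟨β₂, Y₂, b1, b2, b3, b4, b5, b6⟩
  · exact Or.inr hk
  exfalso
  have m3 : Disjoint (U e₀) (Y₁ ∩ Y₂) := by
    rw [disjoint_left]
    intro x hx hxY
    rw [mem_inter] at hxY
    exact hne ((a6 x hx hxY.1).symm.trans (b6 x hx hxY.2))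
  have key := trim_uncross (hd := hd) (!s) (β₁ := β₁) (β₂ := β₂) h0 a4 b4
    (not_disjoint_iff.2 ⟨u₁, h1, a5⟩) (not_disjoint_iff.2 ⟨u₂, h2, b5⟩) m3
  have c1 := trim_ok h (!s) (β₁ && β₂) (Y₁ ∩ Y₂) (fun _ h3 => by
      have : hd e₀ ∈ Y₁ ∩ Y₂ := by rw [h3]; exact mem_univ _
      exact a4 (mem_inter.1 this).1) (fun h3 => by
      cases β₁ with
      | false => exact inter_subset_left.trans (a2 rfl)
      | true =>
        cases β₂ with
        | false => exact inter_subset_right.trans (b2 rfl)
        | true => simp at h3)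
  have c2 := trim_ok h (!s) (β₁ || β₂) (Y₁ ∪ Y₂) (fun _ h3 => by
      have : hd e₀ ∈ Y₁ ∪ Y₂ := by rw [h3]; exact mem_univ _
      rcases mem_union.1 this with h4 | h4
      · exact a4 h4
      · exact b4 h4) (fun h3 => by
      cases β₁ with
      | true => simp at h3
      | false =>
        cases β₂ with
        | true => simp at h3
        | false => exact union_subset (a2 rfl) (b2 rfl))
  have hmod : trim_bb τ rt (!s) (β₁ && β₂) + trim_bb τ rt (!s) (β₁ || β₂) =
      trim_bb τ rt (!s) β₁ + trim_bb τ rt (!s) β₂ := by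
    cases β₁ <;> cases β₂ <;> simp [trim_bb, Nat.add_comm]
  omega

/- PROOF.
Induction on the sum of (U e).card.  If all U e with rt e = none have one element, tl e := inl of it (or inr s for rt e = some s): Inst fields translate
(a3 from HInst.a3: u in U e, u in TT s' excludes s' = s, so !s' = s).  Otherwise take e with rt e = none and two different u1, u2 in U e.  Claim: for
k = 1 or k = 2 the instance with U e replaced by (U e).erase u_k is again an HInst (ne, a1, a3, a3r, a6 clear).  Suppose not.  For k the failure is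
 (A) W with hd e in W, (U e).erase u_k subset W, u_k notin W and the count in a2 for W exactly tau, or
 (B) s', S subset TT s' with hd e notin S, U e cap S = {u_k} and equality in a4 for S (for s').
Let s be as in HInst.a3 for e: hd e notin TT s, U e disjoint from TT s; so in (B) s' = !s =: b.  Use sets X of T + Bool containing inr b: in case (A)
X_k = everything outside W, in case (B) X_k = {inr b} + S; D X := #{e' : hd e' notin X and (rt e' = some s'' with inr s'' in X, or rt e' = none and U e' meets X)};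
demand bb X = tau if inr (!b) in X, else #{e' : rt e' = some b}; D X >= bb X for all valid X (inr b in X, X misses some inl, inr (!b) in X or all inl u in X
have u in TT b) is a2 and a4.  X_1, X_2 are valid and tight, X_k meets U e exactly in u_k, hd e notin X_k.  X_1 cap X_2, X_1 cup X_2 are valid (hd e outside),
D is submodular and e leaves X_1, X_2 and the union but not the intersection: D X_1 + D X_2 >= D(cap) + D(cup) + 1, bb modular: contradiction.
-/
theorem trim {τ : ℕ} {hd : E → T} {rt : E → Option Bool} {U : E → Finset T}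
    {TT : Bool → Finset T} (h : HInst τ hd rt U TT) :
    ∃ tl : E → T ⊕ Bool, (∀ e s, rt e = some s → tl e = Sum.inr s) ∧
      (∀ e, rt e = none → ∃ u ∈ U e, tl e = Sum.inl u) ∧ Inst τ hd tl TT := by
  classical
  obtain ⟨n, hn⟩ : ∃ n, n = ∑ e, (U e).card := ⟨_, rfl⟩
  induction n using Nat.strong_induction_on generalizing U with
  | _ n ih =>
    by_cases hbig : ∃ e₀, rt e₀ = none ∧ 1 < (U e₀).card
    · obtain ⟨e₀, h0, hc⟩ := hbig
      obtain ⟨u₁, h1, u₂, h2, hne⟩ := one_lt_card.1 hc
      have key : ∀ u ∈ U e₀, HInst τ hd rt (Function.update U e₀ ((U e₀).erase u)) TT →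
          ∃ tl : E → T ⊕ Bool, (∀ e s, rt e = some s → tl e = Sum.inr s) ∧
            (∀ e, rt e = none → ∃ u ∈ U e, tl e = Sum.inl u) ∧ Inst τ hd tl TT := by
        intro u hu hk
        have hlt : ∑ e, (Function.update U e₀ ((U e₀).erase u) e).card < n := by
          rw [hn]
          refine sum_lt_sum (fun e _ => ?_) ⟨e₀, mem_univ _, ?_⟩
          · by_cases hee : e = e₀
            · rw [hee, Function.update_self]
              exact card_le_card (erase_subset _ _)
            · rw [Function.update_of_ne hee]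
          · rw [Function.update_self]
            exact card_erase_lt_of_mem hu
        obtain ⟨tl, t1, t2, t3⟩ := ih _ hlt hk rfl
        refine ⟨tl, t1, fun e he => ?_, t3⟩
        obtain ⟨x, hx, hx'⟩ := t2 e he
        refine ⟨x, ?_, hx'⟩
        by_cases hee : e = e₀
        · rw [hee, Function.update_self] at hx
          rw [hee]
          exact mem_of_mem_erase hx
        · rwa [Function.update_of_ne hee] at hx
      rcases trim_step h h0 h1 h2 hne with hk | hk
      · exact key u₁ h1 hk
      · exact key u₂ h2 hk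
    · push Not at hbig
      have hex : ∀ e, ∃ x : T ⊕ Bool, (∀ s, rt e = some s → x = Sum.inr s) ∧
          (rt e = none → ∃ u, U e = {u} ∧ x = Sum.inl u) := by
        intro e
        rcases hr : rt e with _ | s
        · have h3 : (U e).card = 1 :=
            le_antisymm (hbig e hr) (card_pos.2 (h.ne e hr))
          obtain ⟨u, hu⟩ := card_eq_one.1 h3
          exact ⟨Sum.inl u, fun s hs => by simp at hs, fun _ => ⟨u, hu, rfl⟩⟩
        · exact ⟨Sum.inr s, fun s' hs' => by rw [Option.some.inj hs'],
            fun hs' => by simp at hs'⟩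
      choose tl t1 t2 using hex
      have r1 : ∀ e s, tl e = Sum.inr s ↔ rt e = some s := by
        intro e s
        constructor
        · intro h3
          rcases hr : rt e with _ | s'
          · obtain ⟨u, -, hu⟩ := t2 e hr
            rw [hu] at h3
            simp at h3
          · have := t1 e s' hr
            rw [this] at h3
            rw [Sum.inr.inj h3]
        · exact t1 e s
      have r2 : ∀ e u, tl e = Sum.inl u ↔ rt e = none ∧ U e = {u} := by
        intro e u
        constructor
        · intro h3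
          rcases hr : rt e with _ | s'
          · obtain ⟨u', hu, hu'⟩ := t2 e hr
            rw [hu'] at h3
            exact ⟨rfl, by rw [hu, Sum.inl.inj h3]⟩
          · have := t1 e s' hr
            rw [this] at h3
            simp at h3
        · rintro ⟨h3, h4⟩
          obtain ⟨u', hu, hu'⟩ := t2 e h3
          rw [h4, singleton_inj] at hu
          rw [hu', hu]
      refine ⟨tl, t1, fun e he => ?_, h.disj, h.a1, ?_, ?_, ?_, ?_, ?_⟩
      · obtain ⟨u, hu, hu'⟩ := t2 e he
        exact ⟨u, by rw [hu]; exact mem_singleton_self u, hu'⟩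
      · intro W hW
        refine (h.a2 W hW).trans (card_le_card fun e he => ?_)
        simp only [mem_filter, mem_univ, true_and] at he ⊢
        refine ⟨he.1, fun u hu h3 => ?_⟩
        obtain ⟨h4, h5⟩ := (r2 e u).1 h3
        apply he.2 h4
        rw [h5]
        exact singleton_subset_iff.2 hu
      · intro e s h3
        exact h.a3r e s ((r1 e s).1 h3)
      · intro e u s h3 hu
        obtain ⟨h4, h5⟩ := (r2 e u).1 h3
        obtain ⟨s', h6, h7⟩ := h.a3 e h4
        have h8 : s' = !s := by
          by_contra hne'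
          have h9 : s' = s := by
            cases s <;> cases s' <;> simp_all
          rw [h9, h5] at h7
          exact disjoint_left.1 h7 (mem_singleton_self u) hu
        rw [← h8]
        exact h6
      · intro s S hS
        have h3 := h.a4 s S hS
        have e1 : univ.filter (fun e => tl e = Sum.inr s ∧ hd e ∈ S) =
            univ.filter (fun e => rt e = some s ∧ hd e ∈ S) := by
          ext e
          simp only [mem_filter, mem_univ, true_and, r1]
        have e2 : univ.filter (fun e => hd e ∉ S ∧ rt e = none ∧ ¬ Disjoint (U e) S) ⊆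
            univ.filter (fun e => hd e ∉ S ∧ ∃ u ∈ S, tl e = Sum.inl u) := by
          intro e he
          simp only [mem_filter, mem_univ, true_and] at he ⊢
          refine ⟨he.1, ?_⟩
          obtain ⟨u, hu, hu'⟩ := t2 e he.2.1
          refine ⟨u, ?_, hu'⟩
          by_contra hu2
          apply he.2.2
          rw [hu]
          exact disjoint_singleton_left.2 hu2
        rw [e1]
        exact h3.trans (card_le_card e2)
      · intro s
        have e1 : univ.filter (fun e => tl e = Sum.inr s) =
            univ.filter (fun e => rt e = some s) := by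
          ext e
          simp only [mem_filter, mem_univ, true_and, r1]
        rw [e1]
        exact h.a6 s

end Ts
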