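import Pool.Agent.H.MP_3adc02_co.ts.Cv2
import Pool.Agent.H.MP_3adc02_co.ts.Cv4
import Pool.Agent.H.MP_3adc02_co.ts.CvB
import Pool.Agent.H.MP_3adc02_co.ts.Trim

/-! Assembly of the conversion (note, Part 6). -/

open Finset Classical

namespace Ts

variable {V Φ : Type} [Fintype V] [Fintype Φ] {τ : ℕ} {r : V → V → Prop} {ft fh : Φ → V}
  {sr : Bool → V}

theorem conv_hinst (h : PInst τ r ft fh sr) (hn : ∀ x, nn fh x ≤ τ) {K : Bool → Set Φ}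
    (hK : KK τ r ft sr K) :
    HInst τ (hdV h) (rtV τ r fh sr K) (UV τ r ft fh sr) (TTV r sr) where
  disj := cvA_disj h
  a1 := cvA_a1 h hn
  ne := fun e _ => cvA_ne h e
  a2 := cv_a2 h hn hK
  a3r := cvA_a3r h hK
  a3 := fun e _ => cvA_a3 h e
  a4 := cv_a4 h hn hK
  a6 := fun s => (cvA_a6 h hK s).le

theorem conv (hA : ThmA) (h : PInst τ r ft fh sr) (hn : ∀ x, nn fh x ≤ τ) : Sol τ r ft fh := by
  obtain ⟨K, hK⟩ := exists_KK h
  obtain ⟨tl, h1, h2, hI⟩ := trim (conv_hinst h hn hK)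
  obtain ⟨a, ha, h4, hG⟩ := hA _ _ τ _ tl _ hI
  exact conv_back h hK h1 h2 hI (cvA_a6 h hK) ha h4 hG

end Ts
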