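import Pool.Agent.H.MP_3adc02_co.ts.CvA

/-! In-cuts of the converted instance (note, Part 6, (A2)). -/

open Finset Classical

namespace Ts

variable {V Φ : Type} [Fintype V] [Fintype Φ] {τ : ℕ} {r : V → V → Prop} {ft fh : Φ → V}
  {sr : Bool → V}

private theorem Cv2_card {Q : EV τ r fh sr → Prop} [DecidablePred Q] {A : Set Φ} (hA : τ ≤ A.ncard)
    (hQ : ∀ e ∈ A, Q (Sum.inl e)) : τ ≤ (univ.filter Q).card := by
  refine hA.trans ?_
  rw [← Set.ncard_coe_finset]
  refine Set.ncard_le_ncard_of_injOn (fun e => (Sum.inl e : EV τ r fh sr)) ?_ ?_ (Set.toFinite _)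
  · intro e he
    rw [Finset.mem_coe, mem_filter]
    exact ⟨mem_univ _, hQ e he⟩
  · intro a _ b _ hab
    exact Sum.inl.inj hab

/- PROOF.
Case 1: W is down-closed (x in W, y in TV, r x y imply y in W).  X = complement of the image of W in V is up-closed: if r a b, b in X and a in W then b is in TV
(r b (sr c) would give r a (sr c)) so b in W.  X contains the sources, is not univ.  cut: at least tau arcs e of Phi with ft e in X, fh e in W.
 (1a) Some such e has UV (inl e) subset W and rtV (inl e) = none.  Then ft e is not in TV (else it is in U, but not in W): r (ft e) (sr b) for some b, so all y in TV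
      below sr b are in W; the tau arcs of K b have their heads below sr b (below_of_above), so they enter W: tau <= by injectivity of K b -> arcs.
 (1b) Otherwise all these e (as inl e) are counted.
Case 2: A = {x in W : some y in TV, r x y, y notin W} nonempty.  Take x0 in A maximal: x in A, r x x0 imply r x0 x (finite preorder; e.g. minimise the number of
vertices above it).  y0 := a y for x0.  All tau arcs into x0 (cvA_a1) enter W: inl e with fh e = x0: if r (ft e) (sr b): y0 is below sr b (r (sr b) (ft e), r (ft e) x0, r x0 y0)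
so y0 in U, not in W.  Otherwise ft e is in TV and U contains ft e; if ft e in W then ft e in A (r (ft e) y0), r (ft e) x0, so r x0 (ft e): contradiction with st.  inr (x0, k):
y0 in U (y0 <> x0 since x0 in W).
-/
theorem cv_a2 (h : PInst τ r ft fh sr) (hn : ∀ x, nn fh x ≤ τ) {K : Bool → Set Φ}
    (hK : KK τ r ft sr K) (W : Finset (TV r sr)) (hW : W.Nonempty) :
    τ ≤ (univ.filter (fun e => hdV h e ∈ W ∧
      (rtV τ r fh sr K e = none → ¬ UV τ r ft fh sr e ⊆ W))).card := by
  by_cases hdc : ∀ x ∈ W, ∀ y : TV r sr, r x.1 y.1 → y ∈ W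
  · -- down-closed sets
    have hS := h.cut {v | ∀ w ∈ W, w.1 ≠ v} ⟨sr false, fun w _ hw => w.2 false (by
        rw [hw]
        exact h.rf _)⟩ (by
      intro hu
      obtain ⟨w, hw⟩ := hW
      have h1 : w.1 ∈ {v | ∀ w ∈ W, w.1 ≠ v} := by
        rw [hu]
        exact Set.mem_univ _
      exact h1 w hw rfl) (by
      intro a b hab hb w hw hwa
      have h1 : r w.1 b := by
        rw [hwa]
        exact hab
      have h2 : ∀ c, ¬ r b (sr c) := fun c hc => w.2 c (h.tr _ _ _ h1 hc)
      exact hb ⟨b, h2⟩ (hdc w hw ⟨b, h2⟩ h1) rfl)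
    by_cases hbad : ∃ e : Φ, (∀ w ∈ W, w.1 ≠ ft e) ∧ UV τ r ft fh sr (Sum.inl e) ⊆ W
    · obtain ⟨e, he1, he2⟩ := hbad
      have h1 : ∃ b, r (ft e) (sr b) := by
        by_contra hcon
        push Not at hcon
        have h2 : (⟨ft e, hcon⟩ : TV r sr) ∈ UV τ r ft fh sr (Sum.inl e) := by
          show _ ∈ univ.filter _
          rw [mem_filter]
          exact ⟨mem_univ _, Or.inr rfl⟩
        exact he1 _ (he2 h2) rfl
      obtain ⟨b, hb⟩ := h1
      refine Cv2_card (Q := fun e => hdV h e ∈ W ∧
        (rtV τ r fh sr K e = none → ¬ UV τ r ft fh sr e ⊆ W)) (A := K b) (hK.card b).ge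
        fun e' he' => ⟨?_, ?_⟩
      · apply he2
        show _ ∈ univ.filter _
        rw [mem_filter]
        refine ⟨mem_univ _, Or.inl ⟨b, hb, ?_⟩⟩
        exact h.tr _ _ _ (below_of_above h (hK.sub b e' he')) (h.st e').1
      · intro hnone
        exfalso
        have h3 : (if e' ∈ K false then some false else if e' ∈ K true then some true else none) =
            (none : Option Bool) := hnone
        split_ifs at h3 with h4 h5
        cases b
        · exact h4 he'
        · exact h5 he'
    · push Not at hbad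
      refine Cv2_card (Q := fun e => hdV h e ∈ W ∧
        (rtV τ r fh sr K e = none → ¬ UV τ r ft fh sr e ⊆ W)) hS
        fun e he => ⟨?_, fun _ => hbad e he.1⟩
      have h1 : ¬ ∀ w ∈ W, w.1 ≠ fh e := he.2
      push Not at h1
      obtain ⟨w, hw, hwe⟩ := h1
      have h2 : hdV h (Sum.inl e) = w := Subtype.ext hwe.symm
      rw [h2]
      exact hw
  · -- the other sets
    push Not at hdc
    obtain ⟨x1, hx1, y1, hxy1, hy1⟩ := hdc
    obtain ⟨x0, hx0, hmin⟩ := Finset.exists_min_image
      (W.filter fun x => ∃ y : TV r sr, r x.1 y.1 ∧ y ∉ W)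
      (fun x => (univ.filter fun v : V => r v x.1).card)
      ⟨x1, by
        rw [mem_filter]
        exact ⟨hx1, y1, hxy1, hy1⟩⟩
    rw [mem_filter] at hx0
    obtain ⟨hx0W, y0, hxy0, hy0⟩ := hx0
    have hmax : ∀ x : TV r sr, x ∈ W → (∃ y : TV r sr, r x.1 y.1 ∧ y ∉ W) → r x.1 x0.1 →
        r x0.1 x.1 := by
      intro x hx hxy hxx0
      by_contra hcon
      have h1 := hmin x (by
        rw [mem_filter]
        exact ⟨hx, hxy⟩)
      have h2 : (univ.filter fun v : V => r v x.1).card < (univ.filter fun v : V => r v x0.1).card := by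
        apply Finset.card_lt_card
        rw [Finset.ssubset_iff_of_subset]
        · refine ⟨x0.1, ?_, ?_⟩
          · rw [mem_filter]
            exact ⟨mem_univ _, h.rf _⟩
          · rw [mem_filter]
            exact fun h3 => hcon h3.2
        · intro v hv
          rw [mem_filter] at hv ⊢
          exact ⟨mem_univ _, h.tr _ _ _ hv.2 hxx0⟩
      omega
    refine (cvA_a1 h hn x0).ge.trans ?_
    apply Finset.card_le_card
    intro e he
    rw [mem_filter] at he ⊢
    obtain ⟨-, he⟩ := he
    refine ⟨mem_univ _, by rw [he]; exact hx0W, fun _ hsub => ?_⟩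
    rcases e with e | ⟨x, k⟩
    · have hfx : fh e = x0.1 := congrArg Subtype.val he
      by_cases hb : ∃ b, r (ft e) (sr b)
      · obtain ⟨b, hb⟩ := hb
        apply hy0
        apply hsub
        show _ ∈ univ.filter _
        rw [mem_filter]
        refine ⟨mem_univ _, Or.inl ⟨b, hb, ?_⟩⟩
        refine h.tr _ _ _ (below_of_above h hb) (h.tr _ _ _ (h.st e).1 ?_)
        rw [hfx]
        exact hxy0
      · push Not at hb
        have h1 : (⟨ft e, hb⟩ : TV r sr) ∈ W := by
          apply hsub
          show _ ∈ univ.filter _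
          rw [mem_filter]
          exact ⟨mem_univ _, Or.inr rfl⟩
        have h2 : r (ft e) x0.1 := by
          rw [← hfx]
          exact (h.st e).1
        have h3 := hmax ⟨ft e, hb⟩ h1 ⟨y0, h.tr _ _ _ h2 hxy0, hy0⟩ h2
        apply (h.st e).2
        rw [hfx]
        exact h3
    · have hx : x = x0 := he
      subst hx
      apply hy0
      apply hsub
      show _ ∈ univ.filter _
      rw [mem_filter]
      refine ⟨mem_univ _, ?_, ?_⟩
      · exact hxy0
      · intro h1
        rw [h1] at hy0
        exact hy0 hx0W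

end Ts
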