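import Pool.Agent.H.MP_3adc02_co.ts.CvDefs

/-! Simple facts about the converted instance (note, Part 6). -/

open Finset Classical

namespace Ts

variable {V Φ : Type} [Fintype V] [Fintype Φ] {τ : ℕ} {r : V → V → Prop} {ft fh : Φ → V}
  {sr : Bool → V}

/- PROOF.
X = {v : r v (sr b)} is up-closed, nonempty, misses sr (!b) (inc for !b with !!b = b).  cut: at least tau arcs leave X, all with tail in X; choose a
subset with exactly tau elements (Set.exists_subset_card_eq or Finset).
-/
theorem exists_KK (h : PInst τ r ft fh sr) : ∃ K : Bool → Set Φ, KK τ r ft sr K := by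
  have key : ∀ b, ∃ K : Set Φ, (∀ e ∈ K, r (ft e) (sr b)) ∧ K.ncard = τ := by
    intro b
    have h1 := h.cut {v | r v (sr b)} ⟨sr b, h.rf _⟩ (by
      intro hu
      have h2 : sr (!b) ∈ {v | r v (sr b)} := by
        rw [hu]
        exact Set.mem_univ _
      have h3 := h.inc (!b)
      rw [Bool.not_not] at h3
      exact h3 h2) (fun a b' hab hb' => h.tr _ _ _ hab hb')
    obtain ⟨K, hK, hcard⟩ := Set.exists_subset_card_eq h1
    exact ⟨K, fun e he => (hK he).1, hcard⟩
  choose K hK1 hK2 using key
  exact ⟨K, hK1, hK2⟩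

theorem cvA_disj (h : PInst τ r ft fh sr) (b : Bool) :
    Disjoint (TTV (V := V) r sr b) (TTV r sr (!b)) := by
  rw [Finset.disjoint_left]
  intro x hx hx'
  unfold TTV at hx hx'
  rw [mem_filter] at hx hx'
  rw [Bool.not_not] at hx'
  obtain ⟨b', hb'⟩ := h.cov x.1
  by_cases hbb : b' = b
  · rw [hbb] at hb'
    exact hx'.2 hb'
  · have h1 : b' = !b := by cases b <;> cases b' <;> simp_all
    rw [h1] at hb'
    exact hx.2 hb'

private theorem cvA_nn (x : V) : (univ.filter (fun e : Φ => fh e = x)).card = nn fh x := by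
  unfold nn
  rw [← Set.ncard_coe_finset]
  congr 1
  ext e
  simp

/- PROOF.
In-arcs of x: inl e with fh e = x (nn x of them) and inr (x, k), tau - nn x of them; nn x <= tau.
-/
theorem cvA_a1 (h : PInst τ r ft fh sr) (hn : ∀ x, nn fh x ≤ τ) (x : TV r sr) :
    (univ.filter (fun e => hdV h e = x)).card = τ := by
  rw [Finset.card_filter, Fintype.sum_sum_type, Fintype.sum_sigma]
  have h1 : ∑ e : Φ, (if hdV h (Sum.inl e) = x then 1 else 0) = nn fh x.1 := by
    rw [← cvA_nn, Finset.card_filter]
    refine Finset.sum_congr rfl fun e _ => ?_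
    have h2 : hdV h (Sum.inl e) = x ↔ fh e = x.1 :=
      ⟨fun h3 => congrArg Subtype.val h3, fun h3 => Subtype.ext h3⟩
    simp only [h2]
  have h2 : ∀ y : TV r sr, ∑ k : Fin (τ - nn fh y.1), (if hdV h (Sum.inr ⟨y, k⟩) = x then 1 else 0) =
      if y = x then τ - nn fh x.1 else 0 := by
    intro y
    have h3 : ∀ k : Fin (τ - nn fh y.1), hdV h (Sum.inr ⟨y, k⟩) = y := fun _ => rfl
    simp only [h3]
    split_ifs with h4
    · subst h4
      simp
    · simp
  rw [h1, Finset.sum_congr rfl fun y _ => h2 y, Finset.sum_ite_eq' univ x, if_pos (mem_univ x)]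
  have := hn x.1
  omega

/- PROOF.
inl e: if r (ft e) (sr b) for some b then fh e is in U (below_of_above); else ft e itself is in TV and in U.  inr (x, k): nn x < tau.  X = everything except x: if
it were up-closed then cut gives tau <= #{e : fh e = x} = nn x; it is nonempty (sr false <> x, as x in TV) and not univ, so some y <> x has r x y; y in TV
since r y (sr b) gives r x (sr b).
-/
theorem cvA_ne (h : PInst τ r ft fh sr) (e : EV τ r fh sr) :
    (UV τ r ft fh sr e).Nonempty := by
  rcases e with e | ⟨x, k⟩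
  · by_cases hb : ∃ b, r (ft e) (sr b)
    · obtain ⟨b, hb⟩ := hb
      refine ⟨⟨fh e, head_mem h e⟩, ?_⟩
      show _ ∈ univ.filter _
      rw [mem_filter]
      exact ⟨mem_univ _, Or.inl ⟨b, hb, h.tr _ _ _ (below_of_above h hb) (h.st e).1⟩⟩
    · push Not at hb
      refine ⟨⟨ft e, hb⟩, ?_⟩
      show _ ∈ univ.filter _
      rw [mem_filter]
      exact ⟨mem_univ _, Or.inr rfl⟩
  · by_contra hemp
    rw [Finset.not_nonempty_iff_eq_empty] at hemp
    have h1 : ∀ y : TV r sr, r x.1 y.1 → y = x := by
      intro y hy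
      by_contra hne
      have h2 : y ∈ UV τ r ft fh sr (Sum.inr ⟨x, k⟩) := by
        show _ ∈ univ.filter _
        rw [mem_filter]
        exact ⟨mem_univ _, hy, hne⟩
      rw [hemp] at h2
      exact absurd h2 (Finset.notMem_empty _)
    have h2 := h.cut {v | v ≠ x.1} ⟨sr false, fun h3 => x.2 false (by
        rw [← h3]
        exact h.rf _)⟩ (by
      intro hu
      have h3 : x.1 ∈ {v | v ≠ x.1} := by
        rw [hu]
        exact Set.mem_univ _
      exact h3 rfl) (by
      intro a b hab hb ha
      apply hb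
      have h3 : r x.1 b := by
        rw [← ha]
        exact hab
      have h4 : ∀ b', ¬ r b (sr b') := fun b' h5 => x.2 b' (h.tr _ _ _ h3 h5)
      exact congrArg Subtype.val (h1 ⟨b, h4⟩ h3))
    have h3 : {e | ft e ∈ {v | v ≠ x.1} ∧ fh e ∉ {v | v ≠ x.1}}.ncard ≤ nn fh x.1 := by
      refine Set.ncard_le_ncard ?_ (Set.toFinite _)
      rintro e ⟨-, he⟩
      simpa using he
    have h4 := k.2
    omega

theorem cvA_a3r (h : PInst τ r ft fh sr) {K : Bool → Set Φ} (hK : KK τ r ft sr K)
    (e : EV τ r fh sr) (b : Bool) (he : rtV τ r fh sr K e = some b) :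
    hdV h e ∉ TTV r sr (!b) := by
  rcases e with e | d
  · have h1 : e ∈ K b := by
      unfold rtV at he
      dsimp only at he
      split_ifs at he with h2 h3
      · have : false = b := Option.some.inj he
        rwa [← this]
      · have : true = b := Option.some.inj he
        rwa [← this]
    have h2 := hK.sub b e h1
    have h3 : r (sr b) (fh e) := h.tr _ _ _ (below_of_above h h2) (h.st e).1
    unfold TTV
    rw [mem_filter, Bool.not_not]
    intro h4
    exact h4.2 h3
  · unfold rtV at he
    cases he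

/- PROOF.
TTV s = {not below sr (!s)}.  Take b with r (sr b) (ft e) (inl e) or r (sr b) x (inr (x, k)) from cov and s = !b: the head and all elements of U are below sr b
(src_unique when ft e is above sr b').
-/
theorem cvA_a3 (h : PInst τ r ft fh sr) (e : EV τ r fh sr) :
    ∃ s, hdV h e ∉ TTV r sr s ∧ Disjoint (UV τ r ft fh sr e) (TTV r sr s) := by
  have key : ∀ b, r (sr b) (hdV h e).1 → (∀ y ∈ UV τ r ft fh sr e, r (sr b) y.1) →
      hdV h e ∉ TTV r sr (!b) ∧ Disjoint (UV τ r ft fh sr e) (TTV r sr (!b)) := by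
    intro b h1 h2
    constructor
    · unfold TTV
      rw [mem_filter, Bool.not_not]
      intro h3
      exact h3.2 h1
    · rw [Finset.disjoint_left]
      intro y hy hy'
      unfold TTV at hy'
      rw [mem_filter, Bool.not_not] at hy'
      exact hy'.2 (h2 y hy)
  rcases e with e | ⟨x, k⟩
  · obtain ⟨b, hb⟩ := h.cov (ft e)
    refine ⟨!b, key b (h.tr _ _ _ hb (h.st e).1) fun y hy => ?_⟩
    have hy' : y ∈ univ.filter
        (fun y : TV r sr => (∃ b, r (ft e) (sr b) ∧ r (sr b) y.1) ∨ y.1 = ft e) := hy
    rw [mem_filter] at hy'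
    rcases hy'.2 with ⟨b', h1, h2⟩ | h1
    · have h3 : b = b' := src_unique h (h.tr _ _ _ hb h1)
      rw [h3]
      exact h2
    · rw [h1]
      exact hb
  · obtain ⟨b, hb⟩ := h.cov x.1
    refine ⟨!b, key b hb fun y hy => ?_⟩
    have hy' : y ∈ univ.filter (fun y : TV r sr => r x.1 y.1 ∧ y ≠ x) := hy
    rw [mem_filter] at hy'
    exact h.tr _ _ _ hb hy'.2.1

/- PROOF.
K false and K true are disjoint: e in both has ft e above both sources, so src_unique (below_of_above) gives false = true.
-/
theorem cvA_a6 (h : PInst τ r ft fh sr) {K : Bool → Set Φ} (hK : KK τ r ft sr K) (b : Bool) :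
    (univ.filter (fun e => rtV τ r fh sr K e = some b)).card = τ := by
  have hd : ∀ e, e ∈ K false → e ∉ K true := by
    intro e h1 h2
    have h3 := src_unique h (h.tr _ _ _ (below_of_above h (hK.sub _ e h1)) (hK.sub _ e h2))
    exact absurd h3 (by simp)
  have h1 : ∀ e : Φ, rtV τ r fh sr K (Sum.inl e) = some b ↔ e ∈ K b := by
    intro e
    show (if e ∈ K false then some false else if e ∈ K true then some true else none) = some b ↔ _
    by_cases h2 : e ∈ K false
    · have h3 := hd e h2
      rw [if_pos h2]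
      cases b
      · simp [h2]
      · simp [h3]
    · by_cases h3 : e ∈ K true
      · rw [if_neg h2, if_pos h3]
        cases b
        · simp [h2]
        · simp [h3]
      · rw [if_neg h2, if_neg h3]
        cases b
        · simp [h2]
        · simp [h3]
  have h2 : ∀ d, ¬ rtV τ r fh sr K (Sum.inr d) = some b := by
    intro d h3
    have h4 : (none : Option Bool) = some b := h3
    cases h4
  rw [Finset.card_filter, Fintype.sum_sum_type]
  simp only [h1, h2, if_false, Finset.sum_const_zero, add_zero]
  rw [← Finset.card_filter, ← hK.card b, ← Set.ncard_coe_finset]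
  congr 1
  ext e
  simp

end Ts
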