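import Pool.Agent.H.MP_3adc02_co.ts.Defs

/-!
# From preorders to hyper instances (note, Part 6): definitions

`r a b`: `b` can be reached from `a` (a preorder).  `Φ` are the arcs of the dijoin which lie in some
directed cut (strict pairs).  `sr false`, `sr true` are the two sources.
-/

open Finset Classical

namespace Ts

variable {V Φ : Type}

structure PInst (τ : ℕ) (r : V → V → Prop) (ft fh : Φ → V) (sr : Bool → V) : Prop where
  rf : ∀ a, r a a
  tr : ∀ a b c, r a b → r b c → r a c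
  st : ∀ e, r (ft e) (fh e) ∧ ¬ r (fh e) (ft e)
  cov : ∀ v, ∃ b, r (sr b) v
  inc : ∀ b, ¬ r (sr b) (sr (!b))
  cut : ∀ X : Set V, X.Nonempty → X ≠ Set.univ → (∀ a b, r a b → b ∈ X → a ∈ X) →
    τ ≤ {e | ft e ∈ X ∧ fh e ∉ X}.ncard

/-- `τ` disjoint sets of arcs leaving every up-closed set. -/
def Sol (τ : ℕ) (r : V → V → Prop) (ft fh : Φ → V) : Prop :=
  ∃ F : Fin τ → Set Φ, (∀ c c', c ≠ c' → Disjoint (F c) (F c')) ∧
    ∀ c, ∀ X : Set V, X.Nonempty → X ≠ Set.univ → (∀ a b, r a b → b ∈ X → a ∈ X) →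
      ∃ e ∈ F c, ft e ∈ X ∧ fh e ∉ X

variable {τ : ℕ} {r : V → V → Prop} {ft fh : Φ → V} {sr : Bool → V}

theorem src_unique (h : PInst τ r ft fh sr) {b b' : Bool} (h1 : r (sr b) (sr b')) : b = b' := by
  by_contra hne
  have : b' = !b := by cases b <;> cases b' <;> simp_all
  rw [this] at h1
  exact h.inc b h1

/-- A vertex above the source `b` is below it. -/
theorem below_of_above (h : PInst τ r ft fh sr) {v : V} {b : Bool} (h1 : r v (sr b)) :
    r (sr b) v := by
  obtain ⟨b', hb'⟩ := h.cov v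
  have := src_unique h (h.tr _ _ _ hb' h1)
  rw [← this]; exact hb'

theorem head_mem (h : PInst τ r ft fh sr) (e : Φ) : ∀ b, ¬ r (fh e) (sr b) := by
  intro b hb
  have h1 := below_of_above h hb
  have h2 := below_of_above h (h.tr _ _ _ (h.st e).1 hb)
  exact (h.st e).2 (h.tr _ _ _ hb h2)

/-- the vertices other than the sources -/
abbrev TV (r : V → V → Prop) (sr : Bool → V) : Type := {v : V // ∀ b, ¬ r v (sr b)}

/-- number of arcs of `Φ` into `x` -/
noncomputable def nn (fh : Φ → V) (x : V) : ℕ := {e | fh e = x}.ncard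

/-- the arcs of `Φ` and `τ - nn x` dummy arcs into every `x` -/
abbrev EV (τ : ℕ) (r : V → V → Prop) (fh : Φ → V) (sr : Bool → V) : Type :=
  Φ ⊕ (Σ x : TV r sr, Fin (τ - nn fh x.1))

def hdV (h : PInst τ r ft fh sr) : EV τ r fh sr → TV r sr
  | Sum.inl e => ⟨fh e, head_mem h e⟩
  | Sum.inr d => d.1

/-- `K b`: `τ` arcs of `Φ` leaving (the class of) the source `b`. -/
structure KK (τ : ℕ) (r : V → V → Prop) (ft : Φ → V) (sr : Bool → V) (K : Bool → Set Φ) : Prop where
  sub : ∀ b, ∀ e ∈ K b, r (ft e) (sr b)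
  card : ∀ b, (K b).ncard = τ

noncomputable def rtV (τ : ℕ) (r : V → V → Prop) (fh : Φ → V) (sr : Bool → V) (K : Bool → Set Φ) :
    EV τ r fh sr → Option Bool
  | Sum.inl e => if e ∈ K false then some false else if e ∈ K true then some true else none
  | Sum.inr _ => none

noncomputable def UV [Fintype V] (τ : ℕ) (r : V → V → Prop) (ft fh : Φ → V) (sr : Bool → V) :
    EV τ r fh sr → Finset (TV r sr)
  | Sum.inl e => univ.filter (fun y => (∃ b, r (ft e) (sr b) ∧ r (sr b) y.1) ∨ y.1 = ft e)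
  | Sum.inr d => univ.filter (fun y => r d.1.1 y.1 ∧ y ≠ d.1)

/-- the vertices below the source `b` only -/
noncomputable def TTV [Fintype V] (r : V → V → Prop) (sr : Bool → V) (b : Bool) :
    Finset (TV r sr) :=
  univ.filter (fun x => ¬ r (sr (!b)) x.1)

end Ts
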