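import Mathlib

/-!
# Digraph instances with two sources (MP_3adc02_co, helper4)

Paper proof: /team-store/h4_3adc02_two.md.  `T` vertices, `E` arcs, `hd e : T` the head and
`tl e : T ⊕ Bool` the tail (`Sum.inr s` is the source number `s`), `TT s` the vertices of type `s`
(below the source `s` only).
-/

open Finset

namespace Ts

variable {T E : Type} [Fintype T] [DecidableEq T] [Fintype E] [DecidableEq E]

/-- A digraph instance, (A1)-(A6) of the note. -/
structure Inst (τ : ℕ) (hd : E → T) (tl : E → T ⊕ Bool) (TT : Bool → Finset T) : Prop where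
  disj : ∀ s, Disjoint (TT s) (TT (!s))
  a1 : ∀ t, (univ.filter (fun e => hd e = t)).card = τ
  a2 : ∀ W : Finset T, W.Nonempty →
    τ ≤ (univ.filter (fun e => hd e ∈ W ∧ ∀ u ∈ W, tl e ≠ Sum.inl u)).card
  a3r : ∀ e s, tl e = Sum.inr s → hd e ∉ TT (!s)
  a3 : ∀ e u s, tl e = Sum.inl u → u ∈ TT s → hd e ∉ TT (!s)
  a4 : ∀ s, ∀ S : Finset T, S ⊆ TT s →
    (univ.filter (fun e => tl e = Sum.inr s ∧ hd e ∈ S)).card ≤
      (univ.filter (fun e => hd e ∉ S ∧ ∃ u ∈ S, tl e = Sum.inl u)).card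
  a6 : ∀ s, (univ.filter (fun e => tl e = Sum.inr s)).card ≤ τ

/-- `p x` is the parent of `x` (or a source).  `Ds p u x`: `u` is an ancestor of `x` or `u = x`. -/
def Ds (p : T → T ⊕ Bool) (u x : T) : Prop :=
  Relation.ReflTransGen (fun u x => p x = Sum.inl u) u x

/-- No directed cycle: every nonempty set contains a vertex whose parent is outside. -/
def Acy (p : T → T ⊕ Bool) : Prop :=
  ∀ W : Finset T, W.Nonempty → ∃ t ∈ W, ∀ u ∈ W, p t ≠ Sum.inl u

/-- (P1)-(P3): `a c t` is the arc of colour `c` with head `t`. -/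
structure Pk0 (τ : ℕ) (hd : E → T) (tl : E → T ⊕ Bool) (a : Fin τ → T → E) : Prop where
  p1 : ∀ c t, hd (a c t) = t
  p2 : ∀ t, Function.Injective (fun c => a c t)
  p3 : ∀ c, Acy (fun t => tl (a c t))

/-- (P4) -/
def P4 {τ : ℕ} (tl : E → T ⊕ Bool) (a : Fin τ → T → E) : Prop :=
  ∀ c s t t', tl (a c t) = Sum.inr s → tl (a c t') = Sum.inr s → t = t'

/-- (P5) -/
def Gd {τ : ℕ} (tl : E → T ⊕ Bool) (TT : Bool → Finset T) (a : Fin τ → T → E) : Prop :=
  ∀ c s, ∀ S : Finset T, S ⊆ TT s → (∃ t ∈ S, tl (a c t) = Sum.inr s) →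
    ∃ z, z ∉ S ∧ ∃ u ∈ S, tl (a c z) = Sum.inl u

/-- A set `W` blocking the exit `x` of colour `q` for the protected vertex `y`: it consists of
`q`-descendants of `x`, is `q`-connected with root `x`, and all its `p`-entries are ancestors of `y`. -/
def Blk (p q : T → T ⊕ Bool) (x y : T) : Prop :=
  ∃ W : Finset T, x ∈ W ∧ (∀ z ∈ W, Ds q x z) ∧ (∀ z ∈ W, z ≠ x → ∃ u ∈ W, q z = Sum.inl u) ∧
    ∀ z ∈ W, (∀ u ∈ W, p z ≠ Sum.inl u) → Ds p z y

/-- Hyper instance: `rt e = some s` for arcs leaving the source `s`, otherwise `U e` is the set of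
possible tails. -/
structure HInst (τ : ℕ) (hd : E → T) (rt : E → Option Bool) (U : E → Finset T)
    (TT : Bool → Finset T) : Prop where
  disj : ∀ s, Disjoint (TT s) (TT (!s))
  a1 : ∀ t, (univ.filter (fun e => hd e = t)).card = τ
  ne : ∀ e, rt e = none → (U e).Nonempty
  a2 : ∀ W : Finset T, W.Nonempty →
    τ ≤ (univ.filter (fun e => hd e ∈ W ∧ (rt e = none → ¬ U e ⊆ W))).card
  a3r : ∀ e s, rt e = some s → hd e ∉ TT (!s)
  a3 : ∀ e, rt e = none → ∃ s, hd e ∉ TT s ∧ Disjoint (U e) (TT s)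
  a4 : ∀ s, ∀ S : Finset T, S ⊆ TT s →
    (univ.filter (fun e => rt e = some s ∧ hd e ∈ S)).card ≤
      (univ.filter (fun e => hd e ∉ S ∧ rt e = none ∧ ¬ Disjoint (U e) S)).card
  a6 : ∀ s, (univ.filter (fun e => rt e = some s)).card ≤ τ

/-- The theorem to be proved for digraph instances. -/
def ThmA : Prop :=
  ∀ (T E : Type) [Fintype T] [DecidableEq T] [Fintype E] [DecidableEq E] (τ : ℕ) (hd : E → T)
    (tl : E → T ⊕ Bool) (TT : Bool → Finset T), Inst τ hd tl TT →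
    ∃ a : Fin τ → T → E, Pk0 τ hd tl a ∧ P4 tl a ∧ Gd tl TT a

end Ts
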