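import Pool.Agent.H.MP_3adc02_co.ts.Tree

/-! The descent (note, 4f): two exits with disjoint descendants are not both blocked for all `y`. -/

open Finset

namespace Ts

variable {T : Type} [Fintype T] [DecidableEq T]

/-- `y` is in neither `A` nor `B` and all its proper `p`-ancestors are in `B`. -/
def Fst (p : T → T ⊕ Bool) (A B : Finset T) (y : T) : Prop :=
  y ∉ A ∧ y ∉ B ∧ ∀ z, Ds p z y → z ≠ y → z ∈ B

/- PROOF.
Suppose every pair (x, y), x in {x2, x3}, Fst p A B y, is blocked.  Consider the vertices q for which there are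
x in {x2, x3}, y with Fst p A B y and W as in Blk p q_ x y (here q_ is the second parent map) such that q in W, no u in W
is the p-parent of q, Ds p q x and all z with Ds p q z, Ds p z x are in W (exists_comp_root p W x gives one from hY).
Choose such a q with the least number of p-ancestors (exists_min from Tree or Nat minimality of the card of ancestors).
By Blk, Ds p q y.  Define ys: if q notin B then (Fst for y) q = y and ys := q.  If q in B: since x notin B
(h2, h3) the set {z notin B : Ds p q z, Ds p z x} is nonempty (x); take ys in it with no proper p-ancestor in the set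
(exists_min); its parent u is on the path from q to x (ys <> q), so u in B, so ys notin A by hpB.  In both cases
Fst p A B ys: a proper ancestor z of ys is either a descendant of q (then on the path, in B by minimality) or a proper
ancestor of q (ds_chain), and q = y or z <> y, so z in B by Fst for y.  Also everything between q and ys is in W.
Take the other exit x' (x2 <-> x3) and a blocking set W' for (x', ys), and q' from exists_comp_root p W' x'.
Ds p q' ys by Blk.  q' notin W, because elements of W are below x and elements of W' below x' (hdis).  So q' is not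
between q and ys, so (ds_chain) q' is a proper ancestor of q: fewer ancestors than q, contradiction.
-/
theorem descent {p q : T → T ⊕ Bool} (hp : Acy p) {A B : Finset T}
    (hpB : ∀ x u, p x = Sum.inl u → u ∈ B → x ∉ A) {x₂ x₃ : T}
    (hdis : ∀ z, ¬ (Ds q x₂ z ∧ Ds q x₃ z)) (h2 : x₂ ∉ B) (h3 : x₃ ∉ B)
    (hY : ∃ y, Fst p A B y) :
    ∃ x y, (x = x₂ ∨ x = x₃) ∧ Fst p A B y ∧ ¬ Blk p q x y := by
  by_contra hcon
  have hall : ∀ x y, (x = x₂ ∨ x = x₃) → Fst p A B y → Blk p q x y := by
    intro x y hx hy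
    by_contra hb
    exact hcon ⟨x, y, hx, hy, hb⟩
  let P : T → Prop := fun v => ∃ (x y : T) (W : Finset T), (x = x₂ ∨ x = x₃) ∧ Fst p A B y ∧
    (∀ z ∈ W, Ds q x z) ∧ (∀ z ∈ W, (∀ u ∈ W, p z ≠ Sum.inl u) → Ds p z y) ∧ v ∈ W ∧
    (∀ u ∈ W, p v ≠ Sum.inl u) ∧ Ds p v x ∧ ∀ z, Ds p v z → Ds p z x → z ∈ W
  have hP : ∀ x y, (x = x₂ ∨ x = x₃) → Fst p A B y → ∃ (v : T) (W : Finset T), (∀ z ∈ W, Ds q x z) ∧ v ∈ W ∧
      Ds p v y ∧ P v := by
    intro x y hx hy
    obtain ⟨W, h5, h6, _, h8⟩ := hall x y hx hy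
    obtain ⟨v, hv, hv1, hv2, hv3⟩ := exists_comp_root hp W h5
    exact ⟨v, W, h6, hv, h8 v hv hv1, x, y, W, hx, hy, h6, h8, hv, hv1, hv2, hv3⟩
  obtain ⟨y₀, hy₀⟩ := hY
  obtain ⟨v₀, _, _, _, _, hv₀⟩ := hP x₂ y₀ (Or.inl rfl) hy₀
  obtain ⟨v, ⟨x, y, W, hx, hy, hW1, hW2, hvW, hv1, hv2, hv3⟩, _, hmin⟩ := exists_min hp P hv₀
  have hvy : Ds p v y := hW2 v hvW hv1
  have hxB : x ∉ B := by
    rcases hx with rfl | rfl
    · exact h2
    · exact h3
  obtain ⟨ys, hys, hvys, hbet⟩ : ∃ ys, Fst p A B ys ∧ Ds p v ys ∧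
      ∀ z, Ds p v z → Ds p z ys → z ∈ W := by
    by_cases hvB : v ∈ B
    · let Q : T → Prop := fun z => z ∉ B ∧ Ds p v z ∧ Ds p z x
      obtain ⟨ys, hQ, _, hmin2⟩ := exists_min hp Q (x := x) ⟨hxB, hv2, ds_refl x⟩
      obtain ⟨hysB, hvys, hysx⟩ := hQ
      refine ⟨ys, ⟨?_, hysB, ?_⟩, hvys, fun z h5 h6 => hv3 z h5 (ds_trans h6 hysx)⟩
      · rcases Relation.ReflTransGen.cases_tail hvys with h5 | ⟨c, h5, h6⟩
        · exact absurd (h5 ▸ hvB) hysB
        · have h6' : p ys = Sum.inl c := h6
          have hc : c ≠ ys := by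
            rintro rfl
            exact not_ds_par hp h6' (ds_refl _)
          have hcy : Ds p c ys := ds_single h6'
          have hcB : c ∈ B := by
            by_contra h7
            exact hmin2 c hcy hc ⟨h7, h5, ds_trans hcy hysx⟩
          exact hpB ys c h6' hcB
      · intro z hz hne
        rcases ds_chain hz hvys with h5 | h5
        · have hzy : Ds p z y := ds_trans h5 hvy
          by_cases h6 : z = y
          · exfalso
            subst h6
            have h7 : z = v := ds_anti hp h5 hvy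
            rw [← h7] at hvB
            exact hy.2.1 hvB
          · exact hy.2.2 z hzy h6
        · by_contra h6
          exact hmin2 z hz hne ⟨h6, h5, ds_trans hz hysx⟩
    · have hvy' : v = y := by
        by_contra h5
        exact hvB (hy.2.2 v hvy h5)
      refine ⟨v, hvy' ▸ hy, ds_refl v, fun z h5 h6 => ?_⟩
      rw [ds_anti hp h6 h5]
      exact hvW
  obtain ⟨x', hx', hdis'⟩ : ∃ x', (x' = x₂ ∨ x' = x₃) ∧ ∀ z, ¬ (Ds q x z ∧ Ds q x' z) := by
    rcases hx with rfl | rfl
    · exact ⟨x₃, Or.inr rfl, hdis⟩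
    · exact ⟨x₂, Or.inl rfl, fun z hz => hdis z ⟨hz.2, hz.1⟩⟩
  obtain ⟨v', W', hW', hv'W, hv'y, hPv'⟩ := hP x' ys hx' hys
  have hv'nW : v' ∉ W := fun h => hdis' v' ⟨hW1 v' h, hW' v' hv'W⟩
  rcases ds_chain hv'y hvys with h5 | h5
  · refine hmin v' h5 ?_ hPv'
    rintro rfl
    exact hv'nW hvW
  · exact hv'nW (hbet v' h5 hv'y)

end Ts
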