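import Pool.Agent.H.MP_3adc02_co.ts.Defs

/-! Edmonds' disjoint branchings theorem, strong form (Lovász' proof; note, Part 2). -/

open Finset

namespace Ts

/-- Number of arcs of `A` entering `W`. -/
def Edm_d {Ω E : Type} [DecidableEq Ω] (hd tl : E → Ω) (A : Finset E) (W : Finset Ω) : ℕ :=
  (A.filter (fun e => hd e ∈ W ∧ tl e ∉ W)).card

/-- Number of colours with root set disjoint from `W`. -/
def Edm_p {Ω C : Type} [DecidableEq Ω] [Fintype C] (R : C → Finset Ω) (W : Finset Ω) : ℕ :=
  (univ.filter (fun c => Disjoint (R c) W)).card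

/-- The cut condition. -/
def Edm_cond {Ω C E : Type} [DecidableEq Ω] [Fintype C] (hd tl : E → Ω) (A : Finset E)
    (R : C → Finset Ω) : Prop :=
  ∀ W : Finset Ω, W.Nonempty → Edm_p R W ≤ Edm_d hd tl A W

private theorem Edm_d_sub {Ω E : Type} [DecidableEq Ω] (hd tl : E → Ω) (A : Finset E)
    (W W0 : Finset Ω) : Edm_d hd tl A (W ∩ W0) + Edm_d hd tl A (W ∪ W0)
      ≤ Edm_d hd tl A W + Edm_d hd tl A W0 := by
  unfold Edm_d
  simp only [Finset.card_filter]
  rw [← Finset.sum_add_distrib, ← Finset.sum_add_distrib]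
  refine Finset.sum_le_sum fun e _ => ?_
  by_cases h1 : hd e ∈ W <;> by_cases h2 : hd e ∈ W0 <;> by_cases h3 : tl e ∈ W <;>
    by_cases h4 : tl e ∈ W0 <;> simp [h1, h2, h3, h4]

private theorem Edm_p_point {Ω : Type} [DecidableEq Ω] (S W W0 : Finset Ω) :
    ((if Disjoint S W then 1 else 0) + (if Disjoint S W0 then 1 else 0) : ℕ)
      ≤ (if Disjoint S (W ∩ W0) then 1 else 0) + (if Disjoint S (W ∪ W0) then 1 else 0) := by
  simp only [Finset.disjoint_union_right]
  by_cases h1 : Disjoint S W
  · have h3 : Disjoint S (W ∩ W0) := h1.mono_right inter_subset_left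
    by_cases h2 : Disjoint S W0 <;> simp [h1, h2, h3]
  · by_cases h2 : Disjoint S W0
    · have h3 : Disjoint S (W ∩ W0) := h2.mono_right inter_subset_right
      simp [h1, h2, h3]
    · simp [h1, h2]

private theorem Edm_p_sub {Ω C : Type} [DecidableEq Ω] [Fintype C] (R : C → Finset Ω)
    (W W0 : Finset Ω) : Edm_p R W + Edm_p R W0 ≤ Edm_p R (W ∩ W0) + Edm_p R (W ∪ W0) := by
  unfold Edm_p
  simp only [Finset.card_filter]
  rw [← Finset.sum_add_distrib, ← Finset.sum_add_distrib]
  exact Finset.sum_le_sum fun c _ => Edm_p_point (R c) W W0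

private theorem Edm_p_lt {Ω C : Type} [DecidableEq Ω] [Fintype C] (R : C → Finset Ω)
    (W W0 : Finset Ω) (c : C) (h1 : ¬ Disjoint (R c) W) (h2 : ¬ Disjoint (R c) W0)
    (h3 : Disjoint (R c) (W ∩ W0)) :
    Edm_p R W + Edm_p R W0 < Edm_p R (W ∩ W0) + Edm_p R (W ∪ W0) := by
  unfold Edm_p
  simp only [Finset.card_filter]
  rw [← Finset.sum_add_distrib, ← Finset.sum_add_distrib]
  refine Finset.sum_lt_sum (fun c _ => Edm_p_point (R c) W W0) ⟨c, mem_univ c, ?_⟩
  simp [h1, h2, h3]

private theorem Edm_step {Ω C E : Type} [Fintype Ω] [DecidableEq Ω] [Fintype C] [DecidableEq C]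
    [DecidableEq E] {hd tl : E → Ω} {A : Finset E} {R : C → Finset Ω}
    (h : Edm_cond hd tl A R) {c : C} (hc : R c ≠ univ) :
    ∃ e ∈ A, hd e ∉ R c ∧ tl e ∈ R c ∧
      Edm_cond hd tl (A.erase e) (Function.update R c (insert (hd e) (R c))) := by
  obtain ⟨x0, hx0⟩ : ∃ x, x ∉ R c := by
    by_contra hn
    push Not at hn
    exact hc (Finset.eq_univ_iff_forall.2 hn)
  have hun : (univ : Finset Ω).Nonempty := ⟨x0, mem_univ _⟩
  have hd0 : Edm_d hd tl A univ = 0 := by
    unfold Edm_d
    rw [Finset.card_eq_zero, Finset.filter_eq_empty_iff]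
    rintro e _ ⟨_, h2⟩
    exact h2 (mem_univ _)
  have hp0 : Edm_p R univ = 0 := by
    have := h univ hun
    omega
  have hRc : ¬ Disjoint (R c) univ := by
    intro hdis
    unfold Edm_p at hp0
    rw [Finset.card_eq_zero, Finset.filter_eq_empty_iff] at hp0
    exact hp0 (mem_univ c) hdis
  let F : Finset (Finset Ω) := univ.filter fun W => W.Nonempty ∧ Edm_p R W = Edm_d hd tl A W ∧
    ¬ Disjoint (R c) W ∧ ¬ W ⊆ R c
  have hF : ∀ W, W ∈ F ↔ W.Nonempty ∧ Edm_p R W = Edm_d hd tl A W ∧
    ¬ Disjoint (R c) W ∧ ¬ W ⊆ R c := by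
    intro W
    simp [F]
  have hFne : F.Nonempty := ⟨univ, (hF _).2 ⟨hun, by rw [hd0, hp0], hRc, fun hs => hx0 (hs (mem_univ _))⟩⟩
  obtain ⟨W0, hW0F, hmin⟩ := Finset.exists_min_image F Finset.card hFne
  obtain ⟨hW0, ht0, hR0, hs0⟩ := (hF W0).1 hW0F
  have hW1 : (W0 \ R c).Nonempty := by
    rw [Finset.sdiff_nonempty]
    exact hs0
  have hlt : Edm_p R W0 < Edm_p R (W0 \ R c) := by
    unfold Edm_p
    refine Finset.card_lt_card ⟨?_, ?_⟩
    · intro c' hc'
      rw [Finset.mem_filter] at hc' ⊢
      exact ⟨hc'.1, hc'.2.mono_right sdiff_subset⟩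
    · intro hsub
      have hc' : c ∈ univ.filter fun c => Disjoint (R c) (W0 \ R c) :=
        Finset.mem_filter.2 ⟨mem_univ c, disjoint_sdiff⟩
      have hc2 : c ∈ univ.filter fun c' => Disjoint (R c') (W0 \ R c) :=
        Finset.mem_filter.2 ⟨mem_univ c, disjoint_sdiff⟩
      exact hR0 (Finset.mem_filter.1 (hsub hc2)).2
  have hd1 : Edm_d hd tl A W0 < Edm_d hd tl A (W0 \ R c) := by
    have := h _ hW1
    omega
  obtain ⟨e, heA, he1, he2, he3⟩ : ∃ e ∈ A, hd e ∈ W0 \ R c ∧ tl e ∉ W0 \ R c ∧
      ¬ (hd e ∈ W0 ∧ tl e ∉ W0) := by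
    by_contra hn
    push Not at hn
    refine absurd hd1 (not_lt.2 (Finset.card_le_card ?_))
    intro e he
    rw [Finset.mem_filter] at he ⊢
    exact ⟨he.1, hn e he.1 he.2.1 he.2.2⟩
  rw [Finset.mem_sdiff] at he1
  have he4 : tl e ∈ W0 := by
    by_contra hn
    exact he3 ⟨he1.1, hn⟩
  have he5 : tl e ∈ R c := by
    by_contra hn
    exact he2 (Finset.mem_sdiff.2 ⟨he4, hn⟩)
  refine ⟨e, heA, he1.2, he5, ?_⟩
  intro W hW
  by_contra hcon
  rw [not_le] at hcon
  set R' : C → Finset Ω := Function.update R c (insert (hd e) (R c)) with hR'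
  have hRsub : ∀ c', R c' ⊆ R' c' := by
    intro c'
    by_cases hcc : c' = c
    · subst hcc
      rw [hR', Function.update_self]
      exact subset_insert _ _
    · rw [hR', Function.update_of_ne hcc]
  have hpsub : (univ.filter fun c' => Disjoint (R' c') W)
      ⊆ univ.filter fun c' => Disjoint (R c') W := by
    intro c' hc'
    rw [Finset.mem_filter] at hc' ⊢
    exact ⟨hc'.1, hc'.2.mono_left (hRsub c')⟩
  have hp1 : Edm_p R' W ≤ Edm_p R W := Finset.card_le_card hpsub
  have hp2 := h W hW
  have hcount : hd e ∈ W ∧ tl e ∉ W := by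
    by_contra hn
    have : Edm_d hd tl A W ≤ Edm_d hd tl (A.erase e) W := by
      refine Finset.card_le_card ?_
      intro e' he'
      rw [Finset.mem_filter] at he' ⊢
      refine ⟨Finset.mem_erase.2 ⟨?_, he'.1⟩, he'.2⟩
      rintro rfl
      exact hn he'.2
    omega
  have hd2 : Edm_d hd tl A W = Edm_d hd tl (A.erase e) W + 1 := by
    unfold Edm_d
    rw [Finset.filter_erase, Finset.card_erase_of_mem (Finset.mem_filter.2 ⟨heA, hcount⟩)]
    have : 0 < (A.filter fun e => hd e ∈ W ∧ tl e ∉ W).card :=
      Finset.card_pos.2 ⟨e, Finset.mem_filter.2 ⟨heA, hcount⟩⟩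
    omega
  have htW : Edm_p R W = Edm_d hd tl A W := by omega
  have hRW : ¬ Disjoint (R c) W := by
    intro hdis
    have hlt2 : Edm_p R' W < Edm_p R W := by
      refine Finset.card_lt_card ⟨hpsub, fun hsub => ?_⟩
      have h1 : c ∈ univ.filter fun c' => Disjoint (R' c') W :=
        hsub (Finset.mem_filter.2 ⟨mem_univ c, hdis⟩)
      have h2 := (Finset.mem_filter.1 h1).2
      rw [hR', Function.update_self] at h2
      exact Finset.disjoint_left.1 h2 (mem_insert_self _ _) hcount.1
    omega
  have hmem : hd e ∈ W ∩ W0 := Finset.mem_inter.2 ⟨hcount.1, he1.1⟩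
  have hI := h (W ∩ W0) ⟨_, hmem⟩
  have hU := h (W ∪ W0) (hW.mono subset_union_left)
  have hs1 := Edm_d_sub hd tl A W W0
  have hs2 := Edm_p_sub R W W0
  have htI : Edm_p R (W ∩ W0) = Edm_d hd tl A (W ∩ W0) := by omega
  have hRI : ¬ Disjoint (R c) (W ∩ W0) := by
    intro hdis
    have := Edm_p_lt R W W0 c hRW hR0 hdis
    omega
  have hIF : W ∩ W0 ∈ F := (hF _).2 ⟨⟨_, hmem⟩, htI, hRI, fun hs => he1.2 (hs hmem)⟩
  have hcard := hmin _ hIF
  have hlt3 : (W ∩ W0).card < W0.card := by
    refine Finset.card_lt_card ⟨inter_subset_right, fun hs => ?_⟩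
    exact hcount.2 (Finset.mem_inter.1 (hs he4)).1
  omega

private theorem Edm_main {Ω C E : Type} [Fintype Ω] [DecidableEq Ω] [Fintype C] [DecidableEq C]
    [DecidableEq E] (hd tl : E → Ω) (n : ℕ) : ∀ (A : Finset E) (R : C → Finset Ω),
    A.card = n → Edm_cond hd tl A R →
    ∃ B : C → Finset E, (∀ c, B c ⊆ A) ∧ (∀ c c', c ≠ c' → Disjoint (B c) (B c')) ∧
      ∀ c, ∀ W : Finset Ω, W.Nonempty → Disjoint (R c) W →
        ∃ e ∈ B c, hd e ∈ W ∧ tl e ∉ W := by
  induction n with
  | zero =>
    intro A R hA h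
    by_cases hall : ∀ c, R c = univ
    · refine ⟨fun _ => ∅, fun _ => empty_subset _, fun _ _ _ => disjoint_empty_left _, ?_⟩
      rintro c W ⟨x, hx⟩ hdis
      rw [hall c] at hdis
      exact absurd hx (Finset.disjoint_left.1 hdis (mem_univ x))
    · push Not at hall
      obtain ⟨c, hc⟩ := hall
      obtain ⟨e, he, -⟩ := Edm_step h hc
      rw [Finset.card_eq_zero] at hA
      rw [hA] at he
      exact absurd he (notMem_empty _)
  | succ n ih =>
    intro A R hA h
    by_cases hall : ∀ c, R c = univ
    · refine ⟨fun _ => ∅, fun _ => empty_subset _, fun _ _ _ => disjoint_empty_left _, ?_⟩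
      rintro c W ⟨x, hx⟩ hdis
      rw [hall c] at hdis
      exact absurd hx (Finset.disjoint_left.1 hdis (mem_univ x))
    · push Not at hall
      obtain ⟨c, hc⟩ := hall
      obtain ⟨e, he, he1, he2, h'⟩ := Edm_step h hc
      obtain ⟨B', hB1, hB2, hB3⟩ := ih (A.erase e) _ (by rw [Finset.card_erase_of_mem he, hA]; rfl) h'
      have heB : ∀ c', e ∉ B' c' := fun c' hin => Finset.notMem_erase e A (hB1 c' hin)
      refine ⟨Function.update B' c (insert e (B' c)), ?_, ?_, ?_⟩
      · intro c'
        by_cases hcc : c' = c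
        · subst hcc
          rw [Function.update_self]
          exact Finset.insert_subset he ((hB1 _).trans (erase_subset _ _))
        · rw [Function.update_of_ne hcc]
          exact (hB1 _).trans (erase_subset _ _)
      · intro c1 c2 hne
        by_cases h1 : c1 = c
        · subst h1
          rw [Function.update_self, Function.update_of_ne (Ne.symm hne),
            Finset.disjoint_insert_left]
          exact ⟨heB c2, hB2 _ _ hne⟩
        · rw [Function.update_of_ne h1]
          by_cases h2 : c2 = c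
          · subst h2
            rw [Function.update_self, Finset.disjoint_insert_right]
            exact ⟨heB c1, hB2 _ _ hne⟩
          · rw [Function.update_of_ne h2]
            exact hB2 _ _ hne
      · intro c' W hW hdis
        by_cases hcc : c' = c
        · subst hcc
          rw [Function.update_self]
          by_cases hin : hd e ∈ W
          · exact ⟨e, mem_insert_self _ _, hin, Finset.disjoint_left.1 hdis he2⟩
          · obtain ⟨e', he', h3⟩ := hB3 c' W hW (by
              rw [Function.update_self, Finset.disjoint_insert_left]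
              exact ⟨hin, hdis⟩)
            exact ⟨e', mem_insert_of_mem he', h3⟩
        · rw [Function.update_of_ne hcc]
          exact hB3 c' W hW (by rw [Function.update_of_ne hcc]; exact hdis)

/- PROOF.
Write d(W) = #{e in A : hd e in W, tl e notin W}, p(W) = #{c : R c disjoint from W}.  Prove for all A, R by
induction on the sum over c of (univ \ R c).card (or the pair A.card is enough: A shrinks in every step; base:
no c has R c <> univ, then take B c = empty, a nonempty W is never disjoint from univ).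
Step: choose c with R c <> univ.  R c is nonempty: else W = univ (if Omega is empty R c = univ) has p >= 1, d = 0.
Call W tight if W nonempty and d(W) = p(W).  univ is tight (d = 0; p = 0 as all R c' are nonempty by the same
argument).  Among the tight W with W not disjoint from R c and W not a subset of R c take W0 minimal (card).
W0 \ R c is nonempty and p(W0 \ R c) >= p(W0) + 1 (colour c is new), so d(W0 \ R c) > d(W0): there is e in A with
hd e in W0 \ R c, tl e notin W0 \ R c, and not (hd e in W0 and tl e notin W0), so tl e in W0 cap R c.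
New data: A' = A.erase e, R' = update R c (insert (hd e) (R c)).  Hypothesis for W: if it fails for W then
d'(W) = d(W) - 1, so hd e in W, tl e notin W, and p'(W) = p(W) = d(W), so W is tight and (p' = p) R c is not disjoint
from W (otherwise colour c would drop out of p' because hd e in W).  Uncross: d(W)+d(W0) >= d(W cap W0)+d(W cup W0)
(pointwise for every arc), p(W cap W0)+p(W cup W0) >= p(W)+p(W0) (pointwise for every colour, W cap W0 contains hd e),
so W cap W0 is tight and the colour c gives no strict inequality: R c meets W and W0, so it meets W cap W0.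
W cap W0 is not a subset of R c (hd e), and tl e in W0 \ W, so it is smaller than W0: contradiction.
Induction gives B'; B c := insert e (B' c) (e notin A'), the others unchanged.  If W is nonempty and disjoint from R c:
hd e notin W: B' c works (W disjoint from R' c); hd e in W: e itself, since tl e in R c, so tl e notin W.
-/
theorem edmonds {Ω C E : Type} [Fintype Ω] [DecidableEq Ω] [Fintype C] [DecidableEq E]
    (hd tl : E → Ω) (A : Finset E) (R : C → Finset Ω)
    (h : ∀ W : Finset Ω, W.Nonempty → (univ.filter (fun c => Disjoint (R c) W)).card ≤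
      (A.filter (fun e => hd e ∈ W ∧ tl e ∉ W)).card) :
    ∃ B : C → Finset E, (∀ c, B c ⊆ A) ∧ (∀ c c', c ≠ c' → Disjoint (B c) (B c')) ∧
      ∀ c, ∀ W : Finset Ω, W.Nonempty → Disjoint (R c) W →
        ∃ e ∈ B c, hd e ∈ W ∧ tl e ∉ W := by
  classical
  exact Edm_main hd tl _ A R rfl h

end Ts
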