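import Pool.Agent.H.MP_3adc02_co.ts.CvDefs

/-! The case of one source, and the general preorder statement (note, Part 7). -/

open Finset Classical

namespace Ts

private def oneR {V : Type} (r : V → V → Prop) (x : V) : Option V → Option V → Prop
  | some a, some b => r a b
  | some _, none => False
  | none, some b => r x b
  | none, none => True

private def oneT {V Φ : Type} (ft : Φ → V) (τ : ℕ) : Φ ⊕ Fin τ → Option V
  | Sum.inl e => some (ft e)
  | Sum.inr _ => none

private def oneH {V Φ : Type} (fh : Φ → V) (τ : ℕ) (x : V) : Φ ⊕ Fin τ → Option V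
  | Sum.inl e => some (fh e)
  | Sum.inr _ => some x

private def oneX {V : Type} (x : V) (X : Set V) : Set (Option V) :=
  {o | ∃ v, (o = none ∧ v = x ∨ o = some v) ∧ v ∈ X}

private theorem oneX_none {V : Type} {x : V} {X : Set V} : none ∈ oneX x X ↔ x ∈ X := by
  constructor
  · rintro ⟨v, (⟨_, rfl⟩ | h), hv⟩
    · exact hv
    · cases h
  · intro h
    exact ⟨x, Or.inl ⟨rfl, rfl⟩, h⟩

private theorem oneX_some {V : Type} {x v : V} {X : Set V} : some v ∈ oneX x X ↔ v ∈ X := by
  constructor
  · rintro ⟨w, (⟨h, _⟩ | h), hw⟩
    · cases h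
    · rw [Option.some.inj h]
      exact hw
  · intro h
    exact ⟨v, Or.inr rfl, h⟩

/-- One source. -/
private theorem one_source {τ : ℕ}
    (H : ∀ (V Φ : Type) [Fintype V] [Fintype Φ] (r : V → V → Prop) (ft fh : Φ → V)
      (sr : Bool → V), PInst τ r ft fh sr → Sol τ r ft fh)
    {V Φ : Type} [Fintype V] [Fintype Φ] {r : V → V → Prop} {ft fh : Φ → V}
    (rf : ∀ a, r a a) (tr : ∀ a b c, r a b → r b c → r a c)
    (st : ∀ e, r (ft e) (fh e) ∧ ¬ r (fh e) (ft e)) {s : V} (hs : ∀ v, r s v)
    (cut : ∀ X : Set V, X.Nonempty → X ≠ Set.univ → (∀ a b, r a b → b ∈ X → a ∈ X) →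
      τ ≤ {e | ft e ∈ X ∧ fh e ∉ X}.ncard) : Sol τ r ft fh := by
  by_cases hall : ∀ v, r v s
  · refine ⟨fun _ => ∅, fun _ _ _ => Set.disjoint_empty _, fun c X hX hne hup => ?_⟩
    exfalso
    obtain ⟨x, hx⟩ := hX
    apply hne
    rw [Set.eq_univ_iff_forall]
    intro v
    exact hup v s (hall v) (hup s x (hs x) hx)
  push Not at hall
  obtain ⟨x, hx⟩ := hall
  have hP : PInst τ (oneR r x) (oneT ft τ) (oneH fh τ x) (fun b => if b then none else some s) := by
    refine ⟨?_, ?_, ?_, ?_, ?_, ?_⟩
    · rintro (_ | a)
      · exact trivial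
      · exact rf a
    · rintro (_ | a) (_ | b) (_ | c) h1 h2
      · exact trivial
      · exact h2
      · exact trivial
      · exact tr _ _ _ h1 h2
      · exact h1
      · exact absurd h1 id
      · exact h2
      · exact tr _ _ _ h1 h2
    · rintro (e | k)
      · exact st e
      · exact ⟨rf x, fun h => h⟩
    · rintro (_ | v)
      · exact ⟨true, trivial⟩
      · exact ⟨false, hs v⟩
    · rintro (_ | _)
      · exact fun h => h
      · exact hx
    · intro X' hX' hne hup
      set X : Set V := {v | some v ∈ X'} with hXdef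
      have hupX : ∀ a b, r a b → b ∈ X → a ∈ X := fun a b hab hb => hup (some a) (some b) hab hb
      have hinl : X.Nonempty → X ≠ Set.univ →
          τ ≤ {e | oneT ft τ e ∈ X' ∧ oneH fh τ x e ∉ X'}.ncard := by
        intro h1 h2
        refine (cut X h1 h2 hupX).trans ?_
        have h3 : {e | ft e ∈ X ∧ fh e ∉ X}.ncard =
            ((Sum.inl : Φ → Φ ⊕ Fin τ) '' {e | ft e ∈ X ∧ fh e ∉ X}).ncard :=
          (Set.ncard_image_of_injective _ Sum.inl_injective).symm
        rw [h3]
        refine Set.ncard_le_ncard ?_ (Set.toFinite _)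
        rintro _ ⟨e, he, rfl⟩
        exact he
      by_cases hnone : none ∈ X'
      · by_cases hxX : some x ∈ X'
        · refine hinl ⟨x, hxX⟩ fun huniv => hne ?_
          rw [Set.eq_univ_iff_forall]
          rintro (_ | v)
          · exact hnone
          · have : v ∈ X := by
              rw [huniv]
              exact Set.mem_univ v
            exact this
        · have h3 : (Set.univ : Set (Fin τ)).ncard =
              ((Sum.inr : Fin τ → Φ ⊕ Fin τ) '' Set.univ).ncard :=
            (Set.ncard_image_of_injective _ Sum.inr_injective).symm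
          have h4 : (Set.univ : Set (Fin τ)).ncard = τ := by
            rw [Set.ncard_univ, Nat.card_eq_fintype_card, Fintype.card_fin]
          refine h4.symm.le.trans (h3.le.trans ?_)
          refine Set.ncard_le_ncard ?_ (Set.toFinite _)
          rintro _ ⟨k, _, rfl⟩
          exact ⟨hnone, hxX⟩
      · refine hinl ?_ ?_
        · obtain ⟨o, ho⟩ := hX'
          rcases o with _ | v
          · exact absurd ho hnone
          · exact ⟨v, ho⟩
        · intro huniv
          have h5 : x ∈ X := by
            rw [huniv]
            exact Set.mem_univ x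
          exact hnone (hup none (some x) (rf x) h5)
  obtain ⟨F', hdis, hF'⟩ := H (Option V) (Φ ⊕ Fin τ) _ _ _ _ hP
  refine ⟨fun c => {e | Sum.inl e ∈ F' c}, ?_, ?_⟩
  · intro c c' hcc
    rw [Set.disjoint_left]
    intro e he he'
    exact Set.disjoint_left.1 (hdis c c' hcc) he he'
  · intro c X hX hne hup
    obtain ⟨e', he', h1, h2⟩ := hF' c (oneX x X) (by
        obtain ⟨v, hv⟩ := hX
        exact ⟨some v, oneX_some.2 hv⟩) (by
        intro huniv
        apply hne
        rw [Set.eq_univ_iff_forall]
        intro v
        rw [← oneX_some (x := x), huniv]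
        exact Set.mem_univ _) (by
        rintro (_ | a) (_ | b) hab hb
        · exact hb
        · rw [oneX_some] at hb
          rw [oneX_none]
          exact hup x b hab hb
        · exact absurd hab id
        · rw [oneX_some] at hb ⊢
          exact hup a b hab hb)
    rcases e' with e | k
    · refine ⟨e, he', oneX_some.1 h1, fun h => h2 (oneX_some.2 h)⟩
    · exact absurd (oneX_some.2 (oneX_none.1 h1)) h2

/- PROOF.
Case A: r s1 s2 or r s2 s1: some s reaches every vertex.  If r v s for all v then the only up-closed sets are empty and univ (X up-closed, x in X, s reaches x so s in X,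
and r v s so all v in X): F c = empty works.  Otherwise let x not reach s.  New instance on Option V (none = new source), Phi' = Phi + Fin tau:
 r' (some a) (some b) = r a b;  r' (some a) none = False;  r' none (some b) = r x b;  r' none none = True.
 ft' (inl e) = some (ft e), fh' (inl e) = some (fh e), ft' (inr k) = none, fh' (inr k) = some x.  sr false = some s, sr true = none.
PInst: inc: not r' (some s) none; not r' none (some s) since not r x s.  cut for X': X = {v : some v in X'}.
 none notin X': X nonempty up-closed, x notin X (r' none (some x)), so X <> univ; arcs leaving X are counted (inl).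
 none in X': if x notin X the tau new arcs leave X'.  If x in X: X nonempty, X <> univ, the arcs leaving X.
H' gives F'.  F c = {e : inl e in F' c}.  X up-closed in V, nonempty, not univ: X' = some '' X, together with none iff x in X: up-closed (r' none (some b), b in X: r x b so x in X);
nonempty, not univ; the new arcs do not leave X' (if none in X' then x in X).
Case B: neither: PInst with sr b = if b then s2 else s1.
-/
theorem general {τ : ℕ}
    (H : ∀ (V Φ : Type) [Fintype V] [Fintype Φ] (r : V → V → Prop) (ft fh : Φ → V)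
      (sr : Bool → V), PInst τ r ft fh sr → Sol τ r ft fh)
    {V Φ : Type} [Fintype V] [Fintype Φ] {r : V → V → Prop} {ft fh : Φ → V}
    (rf : ∀ a, r a a) (tr : ∀ a b c, r a b → r b c → r a c)
    (st : ∀ e, r (ft e) (fh e) ∧ ¬ r (fh e) (ft e)) {s₁ s₂ : V} (hs : ∀ v, r s₁ v ∨ r s₂ v)
    (cut : ∀ X : Set V, X.Nonempty → X ≠ Set.univ → (∀ a b, r a b → b ∈ X → a ∈ X) →
      τ ≤ {e | ft e ∈ X ∧ fh e ∉ X}.ncard) : Sol τ r ft fh := by
  by_cases h12 : r s₁ s₂
  · exact one_source H rf tr st (s := s₁)
      (fun v => (hs v).elim id fun h => tr _ _ _ h12 h) cut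
  by_cases h21 : r s₂ s₁
  · exact one_source H rf tr st (s := s₂)
      (fun v => (hs v).elim (fun h => tr _ _ _ h21 h) id) cut
  refine H V Φ r ft fh (fun b => if b then s₂ else s₁) ⟨rf, tr, st, ?_, ?_, cut⟩
  · intro v
    rcases hs v with h | h
    · exact ⟨false, h⟩
    · exact ⟨true, h⟩
  · rintro (_ | _)
    · exact h12
    · exact h21

end Ts
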