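import Pool.Agent.H.MP_3adc02_co.ts.CvDefs

/-! Removing surplus arcs into a vertex (note, Part 7). -/

open Finset Classical

namespace Ts

/-- the relation with one new vertex `none` just above `x0` -/
private def WtrR {V : Type} (r : V → V → Prop) (x0 : V) : Option V → Option V → Prop
  | some a, some b => r a b
  | some a, none => r a x0 ∧ ¬ r x0 a
  | none, some b => r x0 b
  | none, none => True

private theorem Wtr_inst {V Φ : Type} [Fintype V] [Fintype Φ] {τ : ℕ} {r : V → V → Prop}
    {ft fh : Φ → V} {sr : Bool → V} (h : PInst τ r ft fh sr) (x0 : V) (e0 : Φ)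
    (he : fh e0 = x0) (hx : τ < nn fh x0) :
    PInst τ (WtrR r x0) (fun e => some (ft e)) (fun e => if e = e0 then none else some (fh e))
      (fun b => some (sr b)) := by
  have hrf : r x0 x0 := h.rf x0
  refine ⟨?_, ?_, ?_, ?_, ?_, ?_⟩
  · rintro (_ | a)
    · trivial
    · exact h.rf a
  · rintro (_ | a) (_ | b) (_ | c) h1 h2
    · trivial
    · exact h2
    · trivial
    · exact h.tr _ _ _ h1 h2
    · exact h1
    · exact h.tr _ _ _ h1.1 h2
    · exact ⟨h.tr _ _ _ h1 h2.1, fun h3 => h2.2 (h.tr _ _ _ h3 h1)⟩
    · exact h.tr _ _ _ h1 h2
  · intro e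
    by_cases hee : e = e0
    · subst hee
      have h1 := h.st e
      rw [he] at h1
      simp only [if_true]
      exact ⟨⟨h1.1, h1.2⟩, h1.2⟩
    · simp only [hee, if_false]
      exact h.st e
  · rintro (_ | v)
    · obtain ⟨b, hb⟩ := h.cov x0
      refine ⟨b, hb, ?_⟩
      have := head_mem h e0 b
      rwa [he] at this
    · exact h.cov v
  · intro b
    exact h.inc b
  · intro X' hne hnu hup
    by_cases hn : none ∈ X'
    · by_cases hx0 : some x0 ∈ X'
      · -- both inside
        have h1 := h.cut {v | some v ∈ X'} ⟨x0, hx0⟩
          (by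
            intro hu
            apply hnu
            ext v
            rcases v with _ | v
            · simp [hn]
            · have : v ∈ {v | some v ∈ X'} := by rw [hu]; trivial
              simpa using this)
          (fun a b hab hb => hup (some a) (some b) hab hb)
        refine h1.trans (Set.ncard_le_ncard ?_ (Set.toFinite _))
        rintro e ⟨he1, he2⟩
        refine ⟨he1, ?_⟩
        have hee : e ≠ e0 := by
          rintro rfl
          apply he2
          rw [he]
          exact hx0
        simp only [hee, if_false]
        exact he2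
      · -- none inside, x0 outside
        have hsub : {e | fh e = x0} \ {e0} ⊆
            {e | some (ft e) ∈ X' ∧ (if e = e0 then none else some (fh e)) ∉ X'} := by
          rintro e ⟨he1, he2⟩
          have he1' : fh e = x0 := he1
          have hee : e ≠ e0 := he2
          have h1 := h.st e
          rw [he1'] at h1
          refine ⟨hup (some (ft e)) none ⟨h1.1, h1.2⟩ hn, ?_⟩
          simp only [hee, if_false]
          rw [he1']
          exact hx0
        have hc : ({e | fh e = x0} \ {e0}).ncard = nn fh x0 - 1 :=
          Set.ncard_sdiff_singleton_of_mem (by exact he)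
        have h2 := Set.ncard_le_ncard hsub (Set.toFinite _)
        rw [hc] at h2
        exact le_trans (by omega) h2
    · -- none outside
      have hx0 : some x0 ∉ X' := fun hx0 => hn (hup none (some x0) hrf hx0)
      have h1 := h.cut {v | some v ∈ X'}
        (by
          obtain ⟨v, hv⟩ := hne
          rcases v with _ | v
          · exact absurd hv hn
          · exact ⟨v, hv⟩)
        (by
          intro hu
          apply hx0
          have : x0 ∈ {v | some v ∈ X'} := by rw [hu]; trivial
          exact this)
        (fun a b hab hb => hup (some a) (some b) hab hb)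
      refine h1.trans (Set.ncard_le_ncard ?_ (Set.toFinite _))
      rintro e ⟨he1, he2⟩
      refine ⟨he1, ?_⟩
      by_cases hee : e = e0
      · simp only [hee, if_true]
        exact hn
      · simp only [hee, if_false]
        exact he2

private theorem Wtr_sum {V Φ : Type} [Fintype V] [Fintype Φ] {τ : ℕ} (hτ : 1 ≤ τ)
    (fh : Φ → V) (x0 : V) (e0 : Φ) (he : fh e0 = x0) (hx : τ < nn fh x0) :
    ∑ x : Option V, (nn (fun e => if e = e0 then none else some (fh e)) x - τ) <
      ∑ x : V, (nn fh x - τ) := by
  rw [Fintype.sum_option]
  have hnone : nn (fun e => if e = e0 then (none : Option V) else some (fh e)) none = 1 := by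
    unfold nn
    have : {e | (if e = e0 then (none : Option V) else some (fh e)) = none} = {e0} := by
      ext e
      by_cases hee : e = e0 <;> simp [hee]
    rw [this, Set.ncard_singleton]
  have hx0 : nn (fun e => if e = e0 then (none : Option V) else some (fh e)) (some x0) =
      nn fh x0 - 1 := by
    unfold nn
    have : {e | (if e = e0 then (none : Option V) else some (fh e)) = some x0} =
        {e | fh e = x0} \ {e0} := by
      ext e
      by_cases hee : e = e0 <;> simp [hee]
    rw [this]
    exact Set.ncard_sdiff_singleton_of_mem (by exact he)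
  have hle : ∀ x : V, nn (fun e => if e = e0 then (none : Option V) else some (fh e)) (some x) ≤
      nn fh x := by
    intro x
    unfold nn
    refine Set.ncard_le_ncard ?_ (Set.toFinite _)
    intro e hee
    have hee' : (if e = e0 then (none : Option V) else some (fh e)) = some x := hee
    by_cases h1 : e = e0
    · simp [h1] at hee'
    · simpa [h1] using hee'
  rw [hnone]
  have h0 : 1 - τ = 0 := by omega
  rw [h0, zero_add]
  refine Finset.sum_lt_sum (fun x _ => Nat.sub_le_sub_right (hle x) τ) ⟨x0, mem_univ _, ?_⟩
  rw [hx0]
  omega

private theorem Wtr_back {V Φ : Type} {τ : ℕ} {r : V → V → Prop}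
    {ft fh : Φ → V} (x0 : V) (e0 : Φ) (he : fh e0 = x0)
    (hs : Sol τ (WtrR r x0) (fun e => some (ft e))
      (fun e => if e = e0 then none else some (fh e))) : Sol τ r ft fh := by
  obtain ⟨F, hd, hF⟩ := hs
  refine ⟨F, hd, ?_⟩
  intro c X hne hnu hup
  set X' : Set (Option V) := {v | (∃ a ∈ X, v = some a) ∨ (v = none ∧ x0 ∈ X)} with hX'
  have hsome : ∀ a, some a ∈ X' ↔ a ∈ X := by
    intro a
    simp [hX']
  have hnone : none ∈ X' ↔ x0 ∈ X := by
    simp [hX']
  obtain ⟨e, heF, he1, he2⟩ := hF c X'
    (by
      obtain ⟨a, ha⟩ := hne
      exact ⟨some a, (hsome a).2 ha⟩)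
    (by
      intro hu
      apply hnu
      ext a
      rw [← hsome a, hu]
      simp)
    (by
      rintro (_ | a) (_ | b) hab hb
      · exact hb
      · exact hnone.2 (hup _ _ hab ((hsome b).1 hb))
      · exact (hsome a).2 (hup _ _ hab.1 (hnone.1 hb))
      · exact (hsome a).2 (hup _ _ hab ((hsome b).1 hb)))
  refine ⟨e, heF, (hsome _).1 he1, ?_⟩
  intro h3
  apply he2
  by_cases hee : e = e0
  · simp only [hee, if_true]
    rw [hee, he] at h3
    exact hnone.2 h3
  · simp only [hee, if_false]
    exact (hsome _).2 h3

/- PROOF.
Induction on the sum over x of (nn fh x - tau) (natural subtraction).  If all nn fh x <= tau: hypothesis H.  If tau = 0: Sol with Fin 0.  Otherwise take x0 with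
nn fh x0 > tau and e0 with fh e0 = x0.  New instance on Option V (none = the new vertex w, which is above x0 and below everything strictly above x0), same Phi:
 r' (some a) (some b) = r a b;  r' (some a) none = (r a x0 and not r x0 a);  r' none (some b) = r x0 b;  r' none none = True.
 ft' e = some (ft e);  fh' e = if e = e0 then none else some (fh e);  sr' b = some (sr b).
PInst: tr (8 cases; some a, none, some b: r a x0, r x0 b; none, some b, none: r x0 b and r b x0, not r x0 b: contradiction; ...); st: for e0: r (ft e0) x0 and not r x0 (ft e0); for e <> e0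
clear; cov none: cov x0 gives b, and not r x0 (sr b) because x0 = fh e0 (head_mem); inc clear.  cut for X': X = {v : some v in X'}, up-closed.
 none in X', x0 notin X: every e <> e0 with fh e = x0 has ft e strictly above x0, so some (ft e) in X' (it is above none); there are nn x0 - 1 >= tau such arcs and they leave X'.
 none in X', x0 in X: X nonempty, X <> univ (else X' = univ), the arcs leaving X' are those leaving X (for e0: fh e0 = x0 in X and none in X').
 none notin X': then x0 notin X (r' none (some x0)); X nonempty, not univ; the arcs leaving X' are those leaving X.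
The sum decreases: nn' (some x0) = nn x0 - 1, nn' none = 1 <= tau, others equal.
Back: the same F.  For X up-closed in V let X' = some '' X, together with none if x0 in X: up-closed for r', nonempty, not univ; an arc of F c leaving X' leaves X.
-/
theorem surplus {τ : ℕ}
    (H : ∀ (V Φ : Type) [Fintype V] [Fintype Φ] (r : V → V → Prop) (ft fh : Φ → V)
      (sr : Bool → V), PInst τ r ft fh sr → (∀ x, nn fh x ≤ τ) → Sol τ r ft fh) :
    ∀ (V Φ : Type) [Fintype V] [Fintype Φ] (r : V → V → Prop) (ft fh : Φ → V)
      (sr : Bool → V), PInst τ r ft fh sr → Sol τ r ft fh := by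
  have key : ∀ n : ℕ, ∀ (V Φ : Type) [Fintype V] [Fintype Φ] (r : V → V → Prop) (ft fh : Φ → V)
      (sr : Bool → V), PInst τ r ft fh sr → (∑ x : V, (nn fh x - τ)) = n → Sol τ r ft fh := by
    intro n
    induction n using Nat.strong_induction_on with
    | _ n ih =>
      intro V Φ _ _ r ft fh sr h hn
      rcases Nat.eq_zero_or_pos τ with h0 | hτ
      · subst h0
        exact ⟨fun c => c.elim0, fun c => c.elim0, fun c => c.elim0⟩
      by_cases hall : ∀ x, nn fh x ≤ τ
      · exact H V Φ r ft fh sr h hall
      push Not at hall
      obtain ⟨x0, hx⟩ := hall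
      have hne : {e | fh e = x0}.Nonempty := by
        apply Set.nonempty_of_ncard_ne_zero
        have : nn fh x0 = {e | fh e = x0}.ncard := rfl
        omega
      obtain ⟨e0, he⟩ := hne
      have he' : fh e0 = x0 := he
      have hlt := Wtr_sum (τ := τ) hτ fh x0 e0 he' hx
      rw [hn] at hlt
      exact Wtr_back x0 e0 he'
        (ih _ hlt (Option V) Φ _ _ _ _ (Wtr_inst h x0 e0 he' hx) rfl)
  intro V Φ _ _ r ft fh sr h
  exact key _ V Φ r ft fh sr h rfl

end Ts
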