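import Pool.Agent.H.MP_3adc02_co.ts.ThmA
import Pool.Agent.H.MP_3adc02_co.ts.Conv
import Pool.Agent.H.MP_3adc02_co.ts.Wtr
import Pool.Agent.H.MP_3adc02_co.ts.One

/-! Digraphs with two sources or two sinks (note, Part 8). -/

open Finset

namespace Ts

/-- `J` contains at least `k` arcs of every directed cut. -/
def Dij {n m : ℕ} (tail head : Fin m → Fin n) (k : ℕ) (J : Finset (Fin m)) : Prop :=
  ∀ U : Finset (Fin n), U.Nonempty → U ≠ Finset.univ → (∀ e : Fin m, head e ∈ U → tail e ∈ U) →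
    k ≤ (J.filter (fun e => tail e ∈ U ∧ head e ∉ U)).card

/-- there is a directed path from `u` to `v` -/
def Rch {n m : ℕ} (tail head : Fin m → Fin n) (u v : Fin n) : Prop :=
  Relation.ReflTransGen (fun a b => ∃ e, tail e = a ∧ head e = b) u v

theorem pre_all (τ : ℕ) (V Φ : Type) [Fintype V] [Fintype Φ] (r : V → V → Prop) (ft fh : Φ → V)
    (sr : Bool → V) (h : PInst τ r ft fh sr) : Sol τ r ft fh :=
  surplus (fun _ _ _ _ _ _ _ _ h hn => conv thmA h hn) V Φ r ft fh sr h

/- PROOF.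
V = Fin n, r = Rch tail head, Phi = {e // e in J and not Rch (head e) (tail e)}.  Up-closed sets X for r are the sets U of Dij (head e in U -> tail e in U), as Finsets; an arc e
with Rch (head e) (tail e) and tail e in U has head e in U, so it leaves no U; cut from Dij.  general gives F; take the image of F c in Fin m.
-/
theorem two_sources {n m τ : ℕ} (tail head : Fin m → Fin n) (J : Finset (Fin m))
    (hJ : Dij tail head τ J) (hs : ∃ s₁ s₂, ∀ v, Rch tail head s₁ v ∨ Rch tail head s₂ v) :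
    ∃ F : Fin τ → Finset (Fin m), (∀ c, F c ⊆ J) ∧ (∀ c c', c ≠ c' → Disjoint (F c) (F c')) ∧
      ∀ c, Dij tail head 1 (F c) := by
  classical
  obtain ⟨s₁, s₂, hs⟩ := hs
  have hsol : Sol τ (Rch tail head)
      (fun e : {e : Fin m // e ∈ J ∧ ¬ Rch tail head (head e) (tail e)} => tail e.1)
      (fun e => head e.1) := by
    refine general (fun V Φ _ _ r ft fh sr h => pre_all τ V Φ r ft fh sr h)
      (fun a => Relation.ReflTransGen.refl) (fun a b c h1 h2 => h1.trans h2)
      (fun e => ⟨Relation.ReflTransGen.single ⟨e.1, rfl, rfl⟩, e.2.2⟩) hs ?_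
    intro X hX hX' hup
    have h1 := hJ (univ.filter (fun v => v ∈ X)) ?_ ?_ ?_
    · refine h1.trans ?_
      rw [← Set.ncard_image_of_injective _ Subtype.val_injective, ← Set.ncard_coe_finset]
      refine Set.ncard_le_ncard ?_ (Set.toFinite _)
      intro e he
      rw [mem_coe, mem_filter, mem_filter, mem_filter] at he
      have h2 : tail e ∈ X := he.2.1.2
      have h3 : head e ∉ X := fun hh => he.2.2 ⟨mem_univ _, hh⟩
      exact ⟨⟨e, he.1, fun hr => h3 (hup _ _ hr h2)⟩, ⟨h2, h3⟩, rfl⟩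
    · obtain ⟨v, hv⟩ := hX
      exact ⟨v, by simpa using hv⟩
    · intro hu
      apply hX'
      rw [Set.eq_univ_iff_forall]
      intro v
      have h2 : v ∈ univ.filter (fun v => v ∈ X) := by rw [hu]; exact mem_univ v
      exact (mem_filter.1 h2).2
    · intro e he
      rw [mem_filter] at he ⊢
      exact ⟨mem_univ _, hup _ _ (Relation.ReflTransGen.single ⟨e, rfl, rfl⟩) he.2⟩
  obtain ⟨F, hF1, hF2⟩ := hsol
  refine ⟨fun c => J.filter (fun e => ∃ h : e ∈ J ∧ ¬ Rch tail head (head e) (tail e),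
    (⟨e, h⟩ : {e : Fin m // e ∈ J ∧ ¬ Rch tail head (head e) (tail e)}) ∈ F c),
    fun c => filter_subset _ _, ?_, ?_⟩
  · intro c c' hcc
    rw [Finset.disjoint_left]
    intro e he he'
    obtain ⟨h, he⟩ := (mem_filter.1 he).2
    obtain ⟨h', he'⟩ := (mem_filter.1 he').2
    exact Set.disjoint_left.1 (hF1 c c' hcc) he he'
  · intro c U hU hU' hup
    have hup' : ∀ a b, Rch tail head a b → b ∈ (U : Set (Fin n)) → a ∈ (U : Set (Fin n)) := by
      intro a b hab
      induction hab with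
      | refl => exact id
      | tail _ h2 ih =>
        obtain ⟨e, rfl, rfl⟩ := h2
        exact fun hb => ih (hup e hb)
    obtain ⟨e, he1, he2, he3⟩ := hF2 c (U : Set (Fin n)) (by exact_mod_cast hU)
      (fun hh => hU' (by exact_mod_cast hh)) hup'
    rw [Nat.one_le_iff_ne_zero, ← Nat.pos_iff_ne_zero, card_pos]
    exact ⟨e.1, mem_filter.2 ⟨mem_filter.2 ⟨e.2.1, e.2, he1⟩, he2, he3⟩⟩

private theorem fin_dij_rev {n m k : ℕ} {tail head : Fin m → Fin n} {J : Finset (Fin m)}
    (hJ : Dij tail head k J) : Dij head tail k J := by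
  intro U hU hU' hup
  have h1 := hJ Uᶜ ?_ ?_ ?_
  · refine h1.trans (card_le_card ?_)
    intro e he
    rw [mem_filter] at he ⊢
    have h2 := he.2.1
    have h3 := he.2.2
    rw [mem_compl] at h2 h3
    exact ⟨he.1, not_not.1 h3, h2⟩
  · rw [nonempty_iff_ne_empty]
    intro hh
    exact hU' (by rwa [compl_eq_empty_iff] at hh)
  · intro hh
    rw [compl_eq_univ_iff] at hh
    rw [hh] at hU
    exact absurd hU Finset.not_nonempty_empty
  · intro e he
    rw [mem_compl] at he ⊢
    exact fun hh => he (hup e hh)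

/- PROOF.
Reverse all arcs: Dij tail head k J iff Dij head tail k J (complements of U), Rch head tail u v iff Rch tail head v u.
-/
theorem two_sinks {n m τ : ℕ} (tail head : Fin m → Fin n) (J : Finset (Fin m))
    (hJ : Dij tail head τ J) (hs : ∃ t₁ t₂, ∀ v, Rch tail head v t₁ ∨ Rch tail head v t₂) :
    ∃ F : Fin τ → Finset (Fin m), (∀ c, F c ⊆ J) ∧ (∀ c c', c ≠ c' → Disjoint (F c) (F c')) ∧
      ∀ c, Dij tail head 1 (F c) := by
  obtain ⟨t₁, t₂, hs⟩ := hs
  have hsw : ∀ u v, Rch tail head u v → Rch head tail v u := by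
    intro u v huv
    induction huv with
    | refl => exact Relation.ReflTransGen.refl
    | tail _ h2 ih =>
      obtain ⟨e, he1, he2⟩ := h2
      exact Relation.ReflTransGen.head ⟨e, he2, he1⟩ ih
  obtain ⟨F, h1, h2, h3⟩ := two_sources head tail J (fin_dij_rev hJ)
    ⟨t₁, t₂, fun v => (hs v).imp (hsw v t₁) (hsw v t₂)⟩
  exact ⟨F, h1, h2, fun c => fin_dij_rev (h3 c)⟩

private theorem fin_union {n m : ℕ} {tail head : Fin m → Fin n} {ι : Type} [DecidableEq ι]
    (F : ι → Finset (Fin m)) (hd : ∀ c c', c ≠ c' → Disjoint (F c) (F c'))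
    (h1 : ∀ c, Dij tail head 1 (F c)) (S : Finset ι) (J : Finset (Fin m))
    (hJ : ∀ c ∈ S, F c ⊆ J) : Dij tail head S.card J := by
  intro U hU hU' hup
  have h2 : (S.biUnion fun c => (F c).filter (fun e => tail e ∈ U ∧ head e ∉ U)) ⊆
      J.filter (fun e => tail e ∈ U ∧ head e ∉ U) := by
    intro e he
    obtain ⟨c, hc, he⟩ := mem_biUnion.1 he
    rw [mem_filter] at he ⊢
    exact ⟨hJ c hc he.1, he.2⟩
  refine le_trans ?_ (card_le_card h2)
  rw [card_biUnion fun c _ c' _ hcc => disjoint_filter_filter (hd c c' hcc)]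
  have h3 : S.card = ∑ _c ∈ S, 1 := by simp
  rw [h3]
  exact sum_le_sum fun c _ => h1 c U hU hU' hup

/- PROOF.
tau = 2k: J1 = union of F c for c < k, the union of the others is in J minus J1; a union of k disjoint dijoins has at least k arcs in every cut.
-/
theorem two_split {n m k : ℕ} (tail head : Fin m → Fin n) (J : Finset (Fin m))
    (hF : ∃ F : Fin (2 * k) → Finset (Fin m), (∀ c, F c ⊆ J) ∧
      (∀ c c', c ≠ c' → Disjoint (F c) (F c')) ∧ ∀ c, Dij tail head 1 (F c)) :
    ∃ J₁ ⊆ J, Dij tail head k J₁ ∧ Dij tail head k (J \ J₁) := by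
  obtain ⟨F, h1, h2, h3⟩ := hF
  obtain ⟨S, hS⟩ : ∃ S : Finset (Fin (2 * k)), S.card = k :=
    ⟨univ.map (Fin.castLEEmb (show k ≤ 2 * k by omega)), by rw [card_map, card_univ, Fintype.card_fin]⟩
  have hSc : Sᶜ.card = k := by
    rw [card_compl, hS, Fintype.card_fin]
    omega
  refine ⟨S.biUnion F, ?_, ?_, ?_⟩
  · intro e he
    obtain ⟨c, _, he⟩ := mem_biUnion.1 he
    exact h1 c he
  · have h4 := fin_union F h2 h3 S (S.biUnion F) fun c hc => subset_biUnion_of_mem F hc
    rwa [hS] at h4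
  · have h4 := fin_union F h2 h3 Sᶜ (J \ S.biUnion F) fun c hc e he => by
      rw [mem_sdiff]
      refine ⟨h1 c he, fun hh => ?_⟩
      obtain ⟨c', hc', he'⟩ := mem_biUnion.1 hh
      have hne : c ≠ c' := fun hcc => (mem_compl.1 hc) (hcc ▸ hc')
      exact Finset.disjoint_left.1 (h2 c c' hne) he he'
    rwa [hSc] at h4

end Ts
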