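import Pool.Agent.H.MP_3adc02_co.ts.Tree

/-! Lifting a packing after complete splitting (note, Part 3). -/

open Finset

namespace Ts

variable {T E : Type} [Fintype T] [DecidableEq T] [Fintype E] [DecidableEq E]

/- PROOF.
b c x := (a' c x).1 for x <> t.  L c := {f : tl f = inl t, f = b c (hd f)} (out-arcs of t of colour c; hd f <> t by no loops: a1, a2 for {t}).
p' c x := tl' (a' c x) is the parent in the small packing: it is tl (b c x) if b c x is not in L c, and tl (phi f) for f = b c x in L c.
CHOICE: for every c with L c nonempty there is f_c in L c such that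
 (*) no ancestor' z (in colour c of the small packing, itself included) of the vertex tl (phi f_c) has b c z in L c (nothing to check if it is a source), and
 (**) if r' is the s-root' of colour c (p' c r' = inr s) then: b c r' in L c implies f_c = b c r'; and if b c r' notin L c and the set C of
      vertices reached from r' by children' x with b c x notin L c is contained in TT s, then tl (phi f_c) is in C.
 Proof.  No root or C not inside TT s: take f_c in L c such that hd f_c has the fewest ancestors'.  b c r' in L c: f_c := b c r'.  Otherwise hG for C (as a set of the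
 subtype) gives a child' z notin C of a vertex u in C; then b c z in L c (else z in C): f_c := b c z; u = tl (phi f_c); ancestors' of u are on the path from r'
 to u in C.
ARCS INTO t: there are tau of them (a1); f_c -> phi f_c are different for different c (phi injective, f_c different since colours are).  Extend
 c -> phi f_c (L c nonempty) to a bijection from Fin tau onto the arcs into t.  a c t := its value, a c x := b c x for x <> t.
p1, p2 clear.  p3: W nonempty, all parents (new) in W.  t notin W: then b c x notin L c for x in W (else its tail t is in W), so W is closed under parents':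
 contradiction with hP.p3.  t in W: L c empty: W minus t is closed under parents' and nonempty (the tail of a c t is not t).  L c nonempty: the parent of t
 is u = tl (phi f_c) in W (not a source, else contradiction); by (*) the set of all ancestors' of u is in W (induction) and closed under parents': contradiction.
P4: a root arc inr s' -> t is phi f for some f (hphi3), f has some colour c (every arc with head hd f is a' c (hd f) for one c, by counting: hI.a1 and
 p1, p2 of a'), hd f is the s'-root' of colour c; s' = s by a3r (t in TT s), so f_c = f by (**) and the arc has colour c at t (bijection), and the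
 root of colour c moves from hd f to t; nothing else changes.
Gd side !s: S subset TT (!s), root in S, suppose S is closed under new children.  t notin S.  For x <> t with p' c x in S: if b c x in L c then tl (phi f) in TT (!s) but
 phi f has head t in TT s: a3 contradiction.  So S is closed under children' and contains the root': contradiction with hG.
Gd side s: S subset TT s, root in S, S closed under new children.  If t in S: all hd f, f in L c, are in S, so S minus t is closed under children' and contains the root':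
 contradiction.  If t notin S: then the root is not t, it is the root' r' and b c r' notin L c [if L c empty: S itself is closed under children': contradiction];
 C subset S by closure, so C subset TT s and tl (phi f_c) in C subset S, so its child t is in S: contradiction.
-/
private theorem lift_inl {t : T} {v : {x // x ≠ t} ⊕ Bool} {u : {x // x ≠ t}} {w : T ⊕ Bool}
    (h : Sum.map Subtype.val id v = w) : v = Sum.inl u ↔ w = Sum.inl u.1 := by
  subst h
  cases v with
  | inl a => simp [Subtype.ext_iff]
  | inr a => simp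

private theorem lift_inr {t : T} {v : {x // x ≠ t} ⊕ Bool} {b : Bool} {w : T ⊕ Bool}
    (h : Sum.map Subtype.val id v = w) : v = Sum.inr b ↔ w = Sum.inr b := by
  subst h
  cases v with
  | inl a => simp
  | inr a => simp

private theorem lift_not {a b : Bool} (h : a ≠ b) : (!a) = b := by
  cases a <;> cases b <;> simp_all

/-- No loops. -/
private theorem lift_noloop {τ : ℕ} {hd : E → T} {tl : E → T ⊕ Bool} {TT : Bool → Finset T}
    (hI : Inst τ hd tl TT) {t : T} {e : E} (he : hd e = t) : tl e ≠ Sum.inl t := by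
  intro h
  have h1 := hI.a2 {t} (singleton_nonempty t)
  have h2 := hI.a1 t
  have h3 : (univ.filter (fun e => hd e ∈ ({t} : Finset T) ∧
      ∀ u ∈ ({t} : Finset T), tl e ≠ Sum.inl u)) ⊂ univ.filter (fun e => hd e = t) := by
    refine ⟨fun f hf => ?_, fun hsub => ?_⟩
    · simp only [mem_filter, mem_univ, true_and, mem_singleton] at hf ⊢
      exact hf.1
    · have h4 : e ∈ univ.filter (fun e => hd e = t) := by simp [he]
      have h5 := hsub h4
      simp only [mem_filter, mem_univ, true_and, mem_singleton] at h5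
      exact h5.2 t rfl h
  have h4 := card_lt_card h3
  omega

/-- The vertices reached from the root by children outside of `L`. -/
private def LiftC {U : Type} (p : U → U ⊕ Bool) (L : U → Prop) (r w : U) : Prop :=
  Ds p r w ∧ ∀ z, Ds p z w → ¬ L z

/-- The choice of the arc. -/
private theorem lift_choice {U : Type} [Fintype U] [DecidableEq U] {p : U → U ⊕ Bool}
    (hp : Acy p) (L : U → Prop) {s : Bool} {SS : Finset U}
    (h4 : ∀ r r', p r = Sum.inr s → p r' = Sum.inr s → r = r')
    (hG : ∀ S : Finset U, S ⊆ SS → (∃ t ∈ S, p t = Sum.inr s) →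
      ∃ z, z ∉ S ∧ ∃ u ∈ S, p z = Sum.inl u) {x : U} (hx : L x) :
    ∃ y, L y ∧ (∀ u, p y = Sum.inl u → ∀ z, Ds p z u → ¬ L z) ∧
      ∀ r, p r = Sum.inr s → (L r → y = r) ∧
        (¬ L r → (∀ w, LiftC p L r w → w ∈ SS) → ∃ u, p y = Sum.inl u ∧ LiftC p L r u) := by
  classical
  by_cases hA : ∃ r, p r = Sum.inr s ∧ L r
  · obtain ⟨r, h1, h2⟩ := hA
    refine ⟨r, h2, fun u hu => ?_, fun r' hr' => ⟨fun _ => h4 r r' h1 hr', fun h3 => ?_⟩⟩
    · rw [h1] at hu; cases hu
    · rw [h4 r' r hr' h1] at h3
      exact absurd h2 h3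
  by_cases hB : ∃ r, p r = Sum.inr s ∧ ∀ w, LiftC p L r w → w ∈ SS
  · obtain ⟨r, h1, h2⟩ := hB
    have hr : ¬ L r := fun h => hA ⟨r, h1, h⟩
    have hrC : LiftC p L r r := ⟨ds_refl r, fun z hz => by rw [ds_root h1 hz]; exact hr⟩
    obtain ⟨z, hz, u, hu, hzu⟩ := hG (univ.filter (fun w => LiftC p L r w))
      (fun w hw => h2 w (by simpa using hw)) ⟨r, by simpa using hrC, h1⟩
    simp only [mem_filter, mem_univ, true_and] at hz hu
    have hLz : L z := by
      by_contra hn
      apply hz
      refine ⟨ds_tail hu.1 hzu, fun w hw => ?_⟩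
      rcases ds_par hzu hw with h3 | h3
      · rw [h3]; exact hn
      · exact hu.2 w h3
    refine ⟨z, hLz, fun u' hu' w hw => ?_, fun r' hr' => ⟨fun h3 => ?_, fun _ _ => ?_⟩⟩
    · rw [hzu] at hu'
      rw [← Sum.inl.inj hu'] at hw
      exact hu.2 w hw
    · exact absurd ⟨r', hr', h3⟩ hA
    · rw [h4 r' r hr' h1]
      exact ⟨u, hzu, hu⟩
  · obtain ⟨y, h1, -, h3⟩ := exists_min hp L hx
    refine ⟨y, h1, fun u hu z hz => ?_, fun r hr => ⟨fun h5 => ?_, fun _ h6 => ?_⟩⟩
    · apply h3 z (ds_tail hz hu)
      rintro rfl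
      exact not_ds_par hp hu hz
    · exact absurd ⟨r, hr, h5⟩ hA
    · exact absurd ⟨r, hr, h6⟩ hB

theorem lift {τ : ℕ} {hd : E → T} {tl : E → T ⊕ Bool} {TT : Bool → Finset T}
    (hI : Inst τ hd tl TT) {s : Bool} {t : T} (ht : t ∈ TT s) (φ : E → E)
    (tl' : {e // hd e ≠ t} → {x // x ≠ t} ⊕ Bool)
    (hφ1 : ∀ f, tl f = Sum.inl t → hd (φ f) = t)
    (hφ2 : ∀ f g, tl f = Sum.inl t → tl g = Sum.inl t → φ f = φ g → f = g)
    (hφ3 : ∀ e, hd e = t → ∀ s', tl e = Sum.inr s' → ∃ f, tl f = Sum.inl t ∧ φ f = e)
    (h1 : ∀ e, tl e.1 ≠ Sum.inl t → Sum.map Subtype.val id (tl' e) = tl e.1)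
    (h2 : ∀ e, tl e.1 = Sum.inl t → Sum.map Subtype.val id (tl' e) = tl (φ e.1))
    (a' : Fin τ → {x // x ≠ t} → {e // hd e ≠ t})
    (hP : Pk0 τ (fun e : {e // hd e ≠ t} => (⟨hd e.1, e.2⟩ : {x // x ≠ t})) tl' a')
    (h4 : P4 tl' a') (hG : Gd tl' (fun b => (TT b).subtype (fun x => x ≠ t)) a') :
    ∃ a : Fin τ → T → E, Pk0 τ hd tl a ∧ P4 tl a ∧ Gd tl TT a := by
  classical
  set L : Fin τ → {x // x ≠ t} → Prop := fun c x => tl (a' c x).1 = Sum.inl t with hL
  have hp' : ∀ c, Acy (fun x => tl' (a' c x)) := hP.p3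
  have hhd : ∀ c x, hd (a' c x).1 = x.1 := fun c x => congrArg Subtype.val (hP.p1 c x)
  have hnl : ∀ e, hd e = t → tl e ≠ Sum.inl t := fun e he => lift_noloop hI he
  -- the choice
  have hch : ∀ c, ∃ e, (∃ x, L c x) → ∃ y, e = φ (a' c y).1 ∧ L c y ∧
      (∀ u, tl' (a' c y) = Sum.inl u → ∀ z, Ds (fun x => tl' (a' c x)) z u → ¬ L c z) ∧
      ∀ r, tl' (a' c r) = Sum.inr s → (L c r → y = r) ∧
        (¬ L c r → (∀ w, LiftC (fun x => tl' (a' c x)) (L c) r w →
          w ∈ (TT s).subtype (fun x => x ≠ t)) →
          ∃ u, tl' (a' c y) = Sum.inl u ∧ LiftC (fun x => tl' (a' c x)) (L c) r u) := by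
    intro c
    by_cases hx : ∃ x, L c x
    · obtain ⟨x, hx⟩ := hx
      obtain ⟨y, hy⟩ := lift_choice (hp' c) (L c) (s := s)
        (SS := (TT s).subtype (fun x => x ≠ t)) (fun r r' h h' => h4 c s r r' h h')
        (fun S hS h => hG c s S hS h) hx
      exact ⟨φ (a' c y).1, fun _ => ⟨y, rfl, hy⟩⟩
    · have h5 : 0 < (univ.filter (fun e => hd e = t)).card := by
        rw [hI.a1 t]; exact Fin.pos c
      obtain ⟨e, -⟩ := card_pos.1 h5
      exact ⟨e, fun h => absurd h hx⟩
  choose f hf using hch
  obtain ⟨g, hg⟩ := Finset.exists_equiv_extend_of_card_eq (α := Fin τ)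
    (t := univ.filter (fun e => hd e = t)) (s := univ.filter (fun c => ∃ x, L c x)) (f := f)
    (by rw [Fintype.card_fin, hI.a1 t])
    (by
      intro e he
      simp only [mem_image, mem_filter, mem_univ, true_and] at he ⊢
      obtain ⟨c, hc, rfl⟩ := he
      obtain ⟨y, hy, hy', -⟩ := hf c hc
      rw [hy]
      exact hφ1 _ hy')
    (by
      intro c hc d hd' hcd
      simp only [coe_filter, mem_univ, true_and, Set.mem_ofPred_eq] at hc hd'
      obtain ⟨y, hy, hy', -⟩ := hf c hc
      obtain ⟨z, hz, hz', -⟩ := hf d hd'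
      rw [hy, hz] at hcd
      have h5 := hφ2 _ _ hy' hz' hcd
      have h6 : y = z := by
        apply Subtype.ext
        rw [← hhd c y, ← hhd d z, h5]
      subst h6
      exact hP.p2 y (Subtype.ext h5))
  have hg' : ∀ c, (∃ x, L c x) → (g c : E) = f c := fun c hc => hg c (by simpa using hc)
  have hgt : ∀ c, hd (g c : E) = t := fun c => (mem_filter.1 (g c).2).2
  -- parents
  have q1 : ∀ c x u, ¬ L c x → (tl' (a' c x) = Sum.inl u ↔ tl (a' c x).1 = Sum.inl u.1) :=
    fun c x u h => lift_inl (h1 _ h)
  have q2 : ∀ c x b, ¬ L c x → (tl' (a' c x) = Sum.inr b ↔ tl (a' c x).1 = Sum.inr b) :=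
    fun c x b h => lift_inr (h1 _ h)
  have q3 : ∀ c x u, L c x → (tl' (a' c x) = Sum.inl u ↔ tl (φ (a' c x).1) = Sum.inl u.1) :=
    fun c x u h => lift_inl (h2 _ h)
  have q4 : ∀ c x b, L c x → (tl' (a' c x) = Sum.inr b ↔ tl (φ (a' c x).1) = Sum.inr b) :=
    fun c x b h => lift_inr (h2 _ h)
  -- the new packing
  set a : Fin τ → T → E := fun c x => if h : x = t then (g c : E) else (a' c ⟨x, h⟩).1 with ha
  have at' : ∀ c, a c t = (g c : E) := fun c => by simp [ha]
  have ax : ∀ c (x : {x // x ≠ t}), a c x.1 = (a' c x).1 := fun c x => by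
    simp only [ha]; rw [dif_neg x.2]
  -- a root arc into t
  have hroot : ∀ c s', tl (g c : E) = Sum.inr s' →
      s' = s ∧ ∃ x0, tl' (a' c x0) = Sum.inr s ∧ L c x0 := by
    intro c s' h5
    have hs' : s' = s := by
      have h6 := hI.a3r _ _ h5
      rw [hgt] at h6
      by_contra hne
      rw [lift_not hne] at h6
      exact h6 ht
    refine ⟨hs', ?_⟩
    obtain ⟨f0, hf0, hf0'⟩ := hφ3 _ (hgt c) s' h5
    have hne : hd f0 ≠ t := fun h => hnl f0 h hf0
    -- the colour of f0
    obtain ⟨d, hd0⟩ : ∃ d, (a' d ⟨hd f0, hne⟩).1 = f0 := by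
      have h7 : univ.image (fun d => (a' d ⟨hd f0, hne⟩).1) = univ.filter (fun e => hd e = hd f0) := by
        apply eq_of_subset_of_card_le
        · intro e he
          simp only [mem_image, mem_univ, true_and, mem_filter] at he ⊢
          obtain ⟨d, rfl⟩ := he
          exact hhd d _
        · rw [hI.a1, card_image_of_injective, card_univ, Fintype.card_fin]
          intro d d' hdd
          exact hP.p2 _ (Subtype.ext hdd)
      have h8 : f0 ∈ univ.filter (fun e => hd e = hd f0) := by simp
      rw [← h7] at h8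
      simpa using h8
    set x0 : {x // x ≠ t} := ⟨hd f0, hne⟩ with hx0
    have hLx : L d x0 := by simp only [hL]; rw [hd0]; exact hf0
    have hr : tl' (a' d x0) = Sum.inr s := by
      rw [q4 d x0 s hLx, hd0, hf0', h5, hs']
    obtain ⟨y, hy, -, -, hy4⟩ := hf d ⟨x0, hLx⟩
    have hyx : y = x0 := (hy4 x0 hr).1 hLx
    have hgd : (g d : E) = (g c : E) := by
      rw [hg' d ⟨x0, hLx⟩, hy, hyx, hd0, hf0']
    have hdc : d = c := g.injective (Subtype.ext hgd)
    rw [← hdc]
    exact ⟨x0, hr, hLx⟩
  refine ⟨a, ⟨?_, ?_, ?_⟩, ?_, ?_⟩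
  · intro c x
    by_cases hx : x = t
    · rw [hx, at', hgt]
    · have := ax c ⟨x, hx⟩
      simp only at this
      rw [this, hhd]
  · intro x c d hcd
    simp only at hcd
    by_cases hx : x = t
    · rw [hx, at', at'] at hcd
      exact g.injective (Subtype.ext hcd)
    · have h5 := ax c ⟨x, hx⟩
      have h6 := ax d ⟨x, hx⟩
      simp only at h5 h6
      rw [h5, h6] at hcd
      exact hP.p2 ⟨x, hx⟩ (Subtype.ext hcd)
  · intro c W hW
    by_contra hcon
    push Not at hcon
    -- a parent-closed set in the small packing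
    have hclosed : ∀ W' : Finset {x // x ≠ t}, W'.Nonempty →
        (∀ x ∈ W', ∃ u ∈ W', tl' (a' c x) = Sum.inl u) → False := by
      intro W' hW' h5
      obtain ⟨x, hx, hx'⟩ := hP.p3 c W' hW'
      obtain ⟨u, hu, hu'⟩ := h5 x hx
      exact hx' u hu hu'
    by_cases htW : t ∈ W
    · obtain ⟨u0, hu0, hu0'⟩ := hcon t htW
      rw [at'] at hu0'
      have hu0t : u0 ≠ t := by
        rintro rfl
        exact hnl _ (hgt c) hu0'
      by_cases hLc : ∃ x, L c x
      · obtain ⟨y, hy, hLy, hy3, -⟩ := hf c hLc
        rw [hg' c hLc, hy] at hu0'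
        have h5 : tl' (a' c y) = Sum.inl ⟨u0, hu0t⟩ := (q3 c y _ hLy).2 hu0'
        have h6 := hy3 _ h5
        apply hclosed (univ.filter (fun z => Ds (fun x => tl' (a' c x)) z ⟨u0, hu0t⟩ ∧ z.1 ∈ W))
          ⟨⟨u0, hu0t⟩, by simpa using ⟨ds_refl _, hu0⟩⟩
        intro z hz
        simp only [mem_filter, mem_univ, true_and] at hz
        have hLz := h6 z hz.1
        obtain ⟨v, hv, hv'⟩ := hcon z.1 hz.2
        rw [ax] at hv'
        have hvt : v ≠ t := by
          rintro rfl
          exact hLz hv'
        have h7 : tl' (a' c z) = Sum.inl ⟨v, hvt⟩ := (q1 c z _ hLz).2 hv'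
        refine ⟨⟨v, hvt⟩, ?_, h7⟩
        simp only [mem_filter, mem_univ, true_and]
        exact ⟨ds_trans (ds_single h7) hz.1, hv⟩
      · apply hclosed (W.subtype (fun x => x ≠ t)) ⟨⟨u0, hu0t⟩, by simpa using hu0⟩
        intro z hz
        rw [mem_subtype] at hz
        have hLz : ¬ L c z := fun h => hLc ⟨z, h⟩
        obtain ⟨v, hv, hv'⟩ := hcon z.1 hz
        rw [ax] at hv'
        have hvt : v ≠ t := by
          rintro rfl
          exact hLz hv'
        exact ⟨⟨v, hvt⟩, by simpa using hv, (q1 c z _ hLz).2 hv'⟩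
    · obtain ⟨x0, hx0⟩ := hW
      have hx0t : x0 ≠ t := by rintro rfl; exact htW hx0
      apply hclosed (W.subtype (fun x => x ≠ t)) ⟨⟨x0, hx0t⟩, by simpa using hx0⟩
      intro z hz
      rw [mem_subtype] at hz
      obtain ⟨v, hv, hv'⟩ := hcon z.1 hz
      rw [ax] at hv'
      have hvt : v ≠ t := by rintro rfl; exact htW hv
      have hLz : ¬ L c z := by
        intro h
        simp only [hL] at h
        rw [hv'] at h
        exact hvt (Sum.inl.inj h)
      exact ⟨⟨v, hvt⟩, by simpa using hv, (q1 c z _ hLz).2 hv'⟩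
  · -- P4
    have hone : ∀ c s' (x : {x // x ≠ t}), tl (a c t) = Sum.inr s' →
        tl (a c x.1) = Sum.inr s' → False := by
      intro c s' x h5 h6
      rw [at'] at h5
      rw [ax] at h6
      obtain ⟨hs', x0, hx0, hLx0⟩ := hroot c s' h5
      subst hs'
      have hLx : ¬ L c x := by
        intro h
        simp only [hL] at h
        rw [h6] at h; cases h
      have h7 := (q2 c x _ hLx).2 h6
      rw [h4 c s' x x0 h7 hx0] at hLx
      exact hLx hLx0
    intro c s' x x' h5 h6
    by_cases hx : x = t
    · by_cases hx' : x' = t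
      · rw [hx, hx']
      · rw [hx] at h5
        exact (hone c s' ⟨x', hx'⟩ h5 h6).elim
    · by_cases hx' : x' = t
      · rw [hx'] at h6
        exact (hone c s' ⟨x, hx⟩ h6 h5).elim
      · have e1 := ax c ⟨x, hx⟩
        have e2 := ax c ⟨x', hx'⟩
        simp only at e1 e2
        rw [e1] at h5
        rw [e2] at h6
        have hL1 : ¬ L c ⟨x, hx⟩ := by
          intro h
          simp only [hL] at h
          rw [h5] at h; cases h
        have hL2 : ¬ L c ⟨x', hx'⟩ := by
          intro h
          simp only [hL] at h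
          rw [h6] at h; cases h
        have := h4 c s' _ _ ((q2 c _ _ hL1).2 h5) ((q2 c _ _ hL2).2 h6)
        exact congrArg Subtype.val this
  · -- P5
    intro c s1 S hS hr
    by_contra hcon
    push Not at hcon
    have hcl : ∀ z u, u ∈ S → tl (a c z) = Sum.inl u → z ∈ S := by
      intro z u hu hzu
      by_contra hz
      exact hcon z hz u hu hzu
    obtain ⟨r0, hr0, hr0'⟩ := hr
    have hsub : S.subtype (fun x => x ≠ t) ⊆ (TT s1).subtype (fun x => x ≠ t) := by
      intro x hx
      rw [mem_subtype] at hx ⊢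
      exact hS hx
    -- the subtype of S is closed under the children of the small packing
    have hfin : (∀ z u, u.1 ∈ S → tl' (a' c z) = Sum.inl u → L c z → z.1 ∈ S) →
        (∃ x0 : {x // x ≠ t}, x0.1 ∈ S ∧ tl' (a' c x0) = Sum.inr s1) → False := by
      intro h5 ⟨x0, hx0, hx0'⟩
      obtain ⟨z, hz, u, hu, hzu⟩ := hG c s1 _ hsub ⟨x0, by rw [mem_subtype]; exact hx0, hx0'⟩
      rw [mem_subtype] at hz hu
      by_cases hLz : L c z
      · exact hz (h5 z u hu hzu hLz)
      · apply hz
        apply hcl z.1 u.1 hu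
        rw [ax]
        exact (q1 c z u hLz).1 hzu
    have hr1 : r0 ≠ t → ∃ x0 : {x // x ≠ t}, x0.1 = r0 ∧ ¬ L c x0 ∧
        tl' (a' c x0) = Sum.inr s1 := by
      intro hne
      have e1 := ax c ⟨r0, hne⟩
      simp only at e1
      rw [e1] at hr0'
      have hL1 : ¬ L c ⟨r0, hne⟩ := by
        intro h
        simp only [hL] at h
        rw [hr0'] at h; cases h
      exact ⟨⟨r0, hne⟩, rfl, hL1, (q2 c _ _ hL1).2 hr0'⟩
    by_cases hs1 : s1 = s
    · subst hs1
      by_cases htS : t ∈ S
      · apply hfin
        · intro z u _ _ hLz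
          apply hcl z.1 t htS
          rw [ax]
          exact hLz
        · by_cases hrt : r0 = t
          · rw [hrt, at'] at hr0'
            obtain ⟨-, x0, hx0, hLx0⟩ := hroot c _ hr0'
            refine ⟨x0, ?_, hx0⟩
            apply hcl x0.1 t htS
            rw [ax]
            exact hLx0
          · obtain ⟨x0, h5, -, h6⟩ := hr1 hrt
            exact ⟨x0, by rw [h5]; exact hr0, h6⟩
      · have hrt : r0 ≠ t := by rintro rfl; exact htS hr0
        obtain ⟨x0, h5, h6, h7⟩ := hr1 hrt
        by_cases hLc : ∃ x, L c x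
        · obtain ⟨y, hy, hLy, -, hy4⟩ := hf c hLc
          have hCS : ∀ w, LiftC (fun x => tl' (a' c x)) (L c) x0 w → w.1 ∈ S := by
            rintro w ⟨hw1, hw2⟩
            induction hw1 with
            | refl => rw [h5]; exact hr0
            | @tail w x h8 h9 ih =>
              have h10 : tl' (a' c x) = Sum.inl w := h9
              have h11 : w.1 ∈ S := ih fun z hz => hw2 z (ds_tail hz h10)
              have h12 : ¬ L c x := hw2 x (ds_refl x)
              apply hcl x.1 w.1 h11
              rw [ax]
              exact (q1 c x w h12).1 h10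
          obtain ⟨u, hu, hu'⟩ := (hy4 x0 h7).2 h6 fun w hw => by
            rw [mem_subtype]; exact hS (hCS w hw)
          apply htS
          apply hcl t u.1 (hCS u hu')
          rw [at', hg' c hLc, hy]
          exact (q3 c y u hLy).1 hu
        · exact hfin (fun z u _ _ hLz => absurd ⟨z, hLz⟩ hLc) ⟨x0, by rw [h5]; exact hr0, h7⟩
    · have hs1' : (!s1) = s := lift_not hs1
      have htS : t ∉ S := by
        intro h
        have h5 := hI.disj s1
        rw [hs1'] at h5
        exact (disjoint_left.1 h5) (hS h) ht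
      have hrt : r0 ≠ t := by rintro rfl; exact htS hr0
      obtain ⟨x0, h5, h6, h7⟩ := hr1 hrt
      refine hfin (fun z u hu hzu hLz => ?_) ⟨x0, by rw [h5]; exact hr0, h7⟩
      exfalso
      have h8 := hI.a3 _ u.1 s1 ((q3 c z u hLz).1 hzu) (hS hu)
      rw [hφ1 _ hLz, hs1'] at h8
      exact h8 ht

end Ts
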