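import Pool.Agent.H.MP_3adc02_co.ts.Defs

/-! Splitting off one pair at a vertex of low degree (note, Part 3, Mader lemma). -/

open Finset

namespace Ts

variable {T E : Type} [Fintype T] [DecidableEq T] [Fintype E] [DecidableEq E]

/-- number of arcs of `A` leaving `X` -/
def DD (A : Finset E) (hd : E → T) (tl : E → T ⊕ Bool) (X : Finset (T ⊕ Bool)) : ℕ :=
  (A.filter (fun e => tl e ∈ X ∧ Sum.inl (hd e) ∉ X)).card

/-- valid sets for the source `s`, the vertices `S0` of type `s` and the special vertex `t` -/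
def Val (s : Bool) (S0 : Finset T) (t : T) (X : Finset (T ⊕ Bool)) : Prop :=
  Sum.inr s ∈ X ∧ (∃ z, z ≠ Sum.inl t ∧ z ∉ X) ∧
    (Sum.inr (!s) ∈ X ∨ ∀ u, Sum.inl u ∈ X → u ∈ S0)

/-- the demand of `X` -/
def bb (τ e1 : ℕ) (s : Bool) (X : Finset (T ⊕ Bool)) : ℕ := if Sum.inr (!s) ∈ X then τ else e1

omit [Fintype T] [Fintype E] [DecidableEq E] in
private theorem Mad_sub (A : Finset E) (hd : E → T) (tl : E → T ⊕ Bool) (X Y : Finset (T ⊕ Bool)) :
    DD A hd tl (X ∩ Y) + DD A hd tl (X ∪ Y) ≤ DD A hd tl X + DD A hd tl Y := by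
  simp only [DD, card_filter, ← sum_add_distrib]
  apply sum_le_sum
  intro e _
  by_cases h1 : tl e ∈ X <;> by_cases h2 : tl e ∈ Y <;> by_cases h3 : Sum.inl (hd e) ∈ X <;>
    by_cases h4 : Sum.inl (hd e) ∈ Y <;> simp [h1, h2, h3, h4]

omit [Fintype T] [Fintype E] [DecidableEq E] in
private theorem Mad_sub' {A : Finset E} {hd : E → T} {tl : E → T ⊕ Bool} {X Y : Finset (T ⊕ Bool)}
    {f : E} (hf : f ∈ A) (h1 : tl f ∈ X) (h2 : tl f ∉ Y) (h3 : Sum.inl (hd f) ∉ X)
    (h4 : Sum.inl (hd f) ∈ Y) :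
    DD A hd tl (X ∩ Y) + DD A hd tl (X ∪ Y) < DD A hd tl X + DD A hd tl Y := by
  simp only [DD, card_filter, ← sum_add_distrib]
  apply sum_lt_sum
  · intro e _
    by_cases h1 : tl e ∈ X <;> by_cases h2 : tl e ∈ Y <;> by_cases h3 : Sum.inl (hd e) ∈ X <;>
      by_cases h4 : Sum.inl (hd e) ∈ Y <;> simp [h1, h2, h3, h4]
  · exact ⟨f, hf, by simp [h1, h2, h3, h4]⟩

omit [Fintype T] [Fintype E] [DecidableEq E] in
private theorem Mad_ins (A : Finset E) (hd : E → T) (tl : E → T ⊕ Bool) {X : Finset (T ⊕ Bool)}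
    {t : T} (ht : Sum.inl t ∉ X) :
    DD A hd tl (insert (Sum.inl t) X) + (A.filter (fun e => tl e ∈ X ∧ hd e = t)).card =
      DD A hd tl X + (A.filter (fun e => tl e = Sum.inl t ∧
        Sum.inl (hd e) ∉ insert (Sum.inl t) X)).card := by
  simp only [DD, card_filter, ← sum_add_distrib]
  apply sum_congr rfl
  intro e _
  by_cases h1 : tl e = Sum.inl t
  · have h2 : tl e ∉ X := by
      rw [h1]
      exact ht
    simp [h1, ht]
  · by_cases h2 : tl e ∈ X
    · by_cases h3 : hd e = t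
      · simp [h1, h2, h3, ht]
      · by_cases h4 : Sum.inl (hd e) ∈ X <;> simp [h1, h2, h3, h4]
    · simp [h1, h2]

omit [Fintype T] [Fintype E] in
private theorem Mad_new {A : Finset E} {hd : E → T} {tl : E → T ⊕ Bool} (X : Finset (T ⊕ Bool))
    {e f : E} (he : e ∈ A) (hf : f ∈ A) (hef : f ≠ e) :
    DD (A.erase e) hd (Function.update tl f (tl e)) X +
        ((if tl e ∈ X ∧ Sum.inl (hd e) ∉ X then 1 else 0) +
          (if tl f ∈ X ∧ Sum.inl (hd f) ∉ X then 1 else 0)) =
      DD A hd tl X + (if tl e ∈ X ∧ Sum.inl (hd f) ∉ X then 1 else 0) := by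
  simp only [DD, card_filter]
  have hf' : f ∈ A.erase e := mem_erase.2 ⟨hef, hf⟩
  rw [← add_sum_erase A _ he, ← add_sum_erase (A.erase e) _ hf', ← add_sum_erase (A.erase e) _ hf']
  have h1 : ∑ x ∈ (A.erase e).erase f,
      (if Function.update tl f (tl e) x ∈ X ∧ Sum.inl (hd x) ∉ X then 1 else 0) =
      ∑ x ∈ (A.erase e).erase f, (if tl x ∈ X ∧ Sum.inl (hd x) ∉ X then 1 else 0) := by
    apply sum_congr rfl
    intro x hx
    rw [Function.update_of_ne (ne_of_mem_erase hx)]
  rw [h1, Function.update_self]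
  ring

omit [Fintype T] in
private theorem Mad_val_inter {s : Bool} {S0 : Finset T} {t : T} {X Y : Finset (T ⊕ Bool)}
    (hX : Val s S0 t X) (hY : Val s S0 t Y) : Val s S0 t (X ∩ Y) := by
  obtain ⟨h1, ⟨z, h2, h3⟩, h4⟩ := hX
  obtain ⟨k1, _, k4⟩ := hY
  refine ⟨mem_inter.2 ⟨h1, k1⟩, ⟨z, h2, fun h => h3 (mem_inter.1 h).1⟩, ?_⟩
  rcases h4 with h4 | h4
  · rcases k4 with k4 | k4
    · exact Or.inl (mem_inter.2 ⟨h4, k4⟩)
    · exact Or.inr fun u hu => k4 u (mem_inter.1 hu).2
  · exact Or.inr fun u hu => h4 u (mem_inter.1 hu).1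

omit [Fintype T] in
private theorem Mad_val_union {s : Bool} {S0 : Finset T} {t : T} {X Y : Finset (T ⊕ Bool)}
    (hX : Val s S0 t X) (hY : Val s S0 t Y) (h : ∃ z, z ≠ Sum.inl t ∧ z ∉ X ∪ Y) :
    Val s S0 t (X ∪ Y) := by
  obtain ⟨h1, _, h4⟩ := hX
  obtain ⟨k1, _, k4⟩ := hY
  refine ⟨mem_union_left _ h1, h, ?_⟩
  rcases h4 with h4 | h4
  · exact Or.inl (mem_union_left _ h4)
  · rcases k4 with k4 | k4
    · exact Or.inl (mem_union_right _ k4)
    · exact Or.inr fun u hu => (mem_union.1 hu).elim (h4 u) (k4 u)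

omit [Fintype T] in
private theorem Mad_val_insert {s : Bool} {S0 : Finset T} {t : T} (ht : t ∈ S0)
    {X : Finset (T ⊕ Bool)} (hX : Val s S0 t X) : Val s S0 t (insert (Sum.inl t) X) := by
  obtain ⟨h1, ⟨z, h2, h3⟩, h4⟩ := hX
  refine ⟨mem_insert_of_mem h1, ⟨z, h2, fun h => (mem_insert.1 h).elim h2 h3⟩, ?_⟩
  rcases h4 with h4 | h4
  · exact Or.inl (mem_insert_of_mem h4)
  · refine Or.inr fun u hu => ?_
    rcases mem_insert.1 hu with h5 | h5
    · rw [Sum.inl.inj h5]
      exact ht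
    · exact h4 u h5

omit [Fintype T] in
private theorem Mad_val_erase {s : Bool} {S0 : Finset T} {t : T}
    {X : Finset (T ⊕ Bool)} (hX : Val s S0 t X) : Val s S0 t (X.erase (Sum.inl t)) := by
  obtain ⟨h1, ⟨z, h2, h3⟩, h4⟩ := hX
  refine ⟨mem_erase.2 ⟨by simp, h1⟩, ⟨z, h2, fun h => h3 (mem_erase.1 h).2⟩, ?_⟩
  rcases h4 with h4 | h4
  · exact Or.inl (mem_erase.2 ⟨by simp, h4⟩)
  · exact Or.inr fun u hu => h4 u (mem_erase.1 hu).2

omit [Fintype T] in
private theorem Mad_bb (τ e1 : ℕ) (s : Bool) (X Y : Finset (T ⊕ Bool)) :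
    bb τ e1 s (X ∩ Y) + bb τ e1 s (X ∪ Y) = bb τ e1 s X + bb τ e1 s Y := by
  unfold bb
  by_cases h1 : Sum.inr (!s) ∈ X <;> by_cases h2 : Sum.inr (!s) ∈ Y <;> simp [h1, h2, add_comm]

omit [Fintype T] in
private theorem Mad_bb_insert (τ e1 : ℕ) (s : Bool) (t : T) (X : Finset (T ⊕ Bool)) :
    bb τ e1 s (insert (Sum.inl t) X) = bb τ e1 s X := by
  unfold bb
  simp

omit [Fintype T] in
private theorem Mad_bb_erase (τ e1 : ℕ) (s : Bool) (t : T) (X : Finset (T ⊕ Bool)) :
    bb τ e1 s (X.erase (Sum.inl t)) = bb τ e1 s X := by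
  unfold bb
  simp

/- PROOF.
v := hd f; v <> t by hloop (f is not a loop).  For e in A with hd e = t (so e <> f) and X valid, D' X = D X - 1 if (t notin X, tl e in X, v in X) or
(t in X, tl e notin X, v notin X) and D' X = D X otherwise (here t in X means Sum.inl t in X, v in X means Sum.inl v in X).
Suppose all e are bad: for every e in A with hd e = t, with p = tl e, there is a valid tight X (D X = bb X) with
 (alpha) t in X, v notin X, p notin X, or (beta) t notin X, v in X, p in X.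
Tools: D X + D Y >= D (X cap Y) + D (X cup Y), with an extra 1 if some arc goes between X \ Y and Y \ X; bb is modular on valid sets.
X cap Y is valid if X, Y are.  X cup Y is valid unless every z <> inl t is in it.
(a) alpha-sets (valid, tight, t in, v out) are closed under intersection (the union misses v).  If there is one, let A* be the intersection
    of all (a minimal one): p alpha-bad iff p notin A*.
(b) beta-sets (valid, tight, t out, v in) are closed under union: suppose X cup Y contains everything except t.  X + t is valid, so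
    D (X + t) >= bb (X + t) = bb X = D X, and D (X + t) = D X - #(X -> t) + #(t -> outside X + t), so #(t -> outside X + t) >= #(X -> t).  The same for Y.
    The out-arcs of t to outside X + t and to outside Y + t are different arcs (X cup Y is everything else) and f is in neither class,
    so #out(t) >= 1 + #(X -> t) + #(Y -> t) >= 1 + #in(t): contradiction to hdeg.  So the union is valid, hence tight.  B* := the largest beta-set;
    p beta-bad iff p in B*.
(c) if all p are in B*: D (B* + t) = D B* - #in(t) + #(t -> outside B* + t) <= D B* - #in(t) + #out(t) - 1 < bb: contradiction.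
(d) no alpha-set: all p in B*, (c).  No beta-set: all p notin A*: D (A* - t) = D A* - #(t -> outside A*) + 0 <= D A* - 1, but A* - t is valid.
    Both exist: if A* cup B* contains everything then p notin A* implies p in B*, so all p are in B*: (c).  Otherwise A* cup B* is valid (it contains t,
    so the missing element is <> t) and f is an arc between A* \ B* and B* \ A*: 2 bb >= 2 bb + 1, contradiction.
-/
theorem mader {A : Finset E} {hd : E → T} {tl : E → T ⊕ Bool} {s : Bool} {S0 : Finset T} {t : T}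
    (ht : t ∈ S0) {τ e1 : ℕ} (hloop : ∀ e ∈ A, hd e = t → tl e ≠ Sum.inl t)
    (hD : ∀ X, Val s S0 t X → bb τ e1 s X ≤ DD A hd tl X)
    (hdeg : (A.filter (fun e => tl e = Sum.inl t)).card ≤ (A.filter (fun e => hd e = t)).card)
    {f : E} (hf : f ∈ A) (hft : tl f = Sum.inl t) :
    ∃ e ∈ A, hd e = t ∧
      ∀ X, Val s S0 t X → bb τ e1 s X ≤ DD (A.erase e) hd (Function.update tl f (tl e)) X := by
  have hvt : hd f ≠ t := fun h => hloop f hf h hft
  have hvt' : (Sum.inl (hd f) : T ⊕ Bool) ≠ Sum.inl t := fun h => hvt (Sum.inl.inj h)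
  -- tight sets
  set al : Finset (T ⊕ Bool) → Prop := fun X => (Val s S0 t X ∧ DD A hd tl X = bb τ e1 s X) ∧
    Sum.inl t ∈ X ∧ Sum.inl (hd f) ∉ X with hal
  set be : Finset (T ⊕ Bool) → Prop := fun X => (Val s S0 t X ∧ DD A hd tl X = bb τ e1 s X) ∧
    Sum.inl t ∉ X ∧ Sum.inl (hd f) ∈ X with hbe
  have htin : ∀ X Y, (Val s S0 t X ∧ DD A hd tl X = bb τ e1 s X) →
      (Val s S0 t Y ∧ DD A hd tl Y = bb τ e1 s Y) → (∃ z, z ≠ Sum.inl t ∧ z ∉ X ∪ Y) →
      (Val s S0 t (X ∩ Y) ∧ DD A hd tl (X ∩ Y) = bb τ e1 s (X ∩ Y)) ∧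
      (Val s S0 t (X ∪ Y) ∧ DD A hd tl (X ∪ Y) = bb τ e1 s (X ∪ Y)) := by
    intro X Y hX hY hz
    have v1 := Mad_val_inter hX.1 hY.1
    have v2 := Mad_val_union hX.1 hY.1 hz
    have h1 := hD _ v1
    have h2 := hD _ v2
    have h3 := Mad_sub A hd tl X Y
    have h4 := Mad_bb τ e1 s X Y
    have h5 := hX.2
    have h6 := hY.2
    exact ⟨⟨v1, by omega⟩, ⟨v2, by omega⟩⟩
  have halc : ∀ X Y, al X → al Y → al (X ∩ Y) := by
    intro X Y hX hY
    have h1 := htin X Y hX.1 hY.1 ⟨Sum.inl (hd f), hvt', fun h =>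
      (mem_union.1 h).elim hX.2.2 hY.2.2⟩
    exact ⟨h1.1, mem_inter.2 ⟨hX.2.1, hY.2.1⟩, fun h => hX.2.2 (mem_inter.1 h).1⟩
  -- the arcs of `t` leaving `X + t`
  have hout : ∀ X, be X → (A.filter (fun e => tl e ∈ X ∧ hd e = t)).card ≤
      (A.filter (fun e => tl e = Sum.inl t ∧ Sum.inl (hd e) ∉ insert (Sum.inl t) X)).card := by
    intro X hX
    have h1 := Mad_ins A hd tl hX.2.1
    have h2 := hD _ (Mad_val_insert ht hX.1.1)
    rw [Mad_bb_insert] at h2
    have h3 := hX.1.2
    omega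
  have hbec : ∀ X Y, be X → be Y → be (X ∪ Y) := by
    intro X Y hX hY
    by_cases hz : ∃ z, z ≠ Sum.inl t ∧ z ∉ X ∪ Y
    · have h1 := htin X Y hX.1 hY.1 hz
      exact ⟨h1.2, fun h => (mem_union.1 h).elim hX.2.1 hY.2.1, mem_union_left _ hX.2.2⟩
    · exfalso
      have hall : ∀ z, z ≠ Sum.inl t → z ∈ X ∪ Y := by
        intro z hzt
        by_contra h
        exact hz ⟨z, hzt, h⟩
      have h1 := hout X hX
      have h2 := hout Y hY
      set oX := A.filter (fun e => tl e = Sum.inl t ∧ Sum.inl (hd e) ∉ insert (Sum.inl t) X)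
      set oY := A.filter (fun e => tl e = Sum.inl t ∧ Sum.inl (hd e) ∉ insert (Sum.inl t) Y)
      have hdis : Disjoint oX oY := by
        rw [disjoint_left]
        intro e he he'
        have k1 := (mem_filter.1 he).2.2
        have k2 := (mem_filter.1 he').2.2
        rw [mem_insert, not_or] at k1 k2
        rcases mem_union.1 (hall _ k1.1) with h | h
        · exact k1.2 h
        · exact k2.2 h
      have hfn : f ∉ oX ∪ oY := by
        intro h
        rcases mem_union.1 h with h | h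
        · exact (mem_filter.1 h).2.2 (mem_insert_of_mem hX.2.2)
        · exact (mem_filter.1 h).2.2 (mem_insert_of_mem hY.2.2)
      have hsub : insert f (oX ∪ oY) ⊆ A.filter (fun e => tl e = Sum.inl t) := by
        intro e he
        rcases mem_insert.1 he with rfl | he
        · exact mem_filter.2 ⟨hf, hft⟩
        · rcases mem_union.1 he with h | h
          · exact mem_filter.2 ⟨(mem_filter.1 h).1, (mem_filter.1 h).2.1⟩
          · exact mem_filter.2 ⟨(mem_filter.1 h).1, (mem_filter.1 h).2.1⟩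
      have h3 := card_le_card hsub
      rw [card_insert_of_notMem hfn, card_union_of_disjoint hdis] at h3
      have hsub2 : A.filter (fun e => hd e = t) ⊆ A.filter (fun e => tl e ∈ X ∧ hd e = t) ∪
          A.filter (fun e => tl e ∈ Y ∧ hd e = t) := by
        intro e he
        have k1 := mem_filter.1 he
        rcases mem_union.1 (hall _ (hloop e k1.1 k1.2)) with h | h
        · exact mem_union_left _ (mem_filter.2 ⟨k1.1, h, k1.2⟩)
        · exact mem_union_right _ (mem_filter.2 ⟨k1.1, h, k1.2⟩)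
      have h4 := (card_le_card hsub2).trans (card_union_le _ _)
      omega
  -- (c)
  have hc : ∀ B, be B → ¬ ∀ e ∈ A, hd e = t → tl e ∈ B := by
    intro B hB hall
    have h1 := hout B hB
    have h2 : A.filter (fun e => hd e = t) ⊆ A.filter (fun e => tl e ∈ B ∧ hd e = t) := by
      intro e he
      have k1 := mem_filter.1 he
      exact mem_filter.2 ⟨k1.1, hall e k1.1 k1.2, k1.2⟩
    have h3 := card_le_card h2
    have h4 : (A.filter (fun e => tl e = Sum.inl t ∧
        Sum.inl (hd e) ∉ insert (Sum.inl t) B)).card <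
        (A.filter (fun e => tl e = Sum.inl t)).card := by
      apply card_lt_card
      rw [ssubset_iff_of_subset]
      · exact ⟨f, mem_filter.2 ⟨hf, hft⟩, fun h =>
          (mem_filter.1 h).2.2 (mem_insert_of_mem hB.2.2)⟩
      · intro e he
        exact mem_filter.2 ⟨(mem_filter.1 he).1, (mem_filter.1 he).2.1⟩
    omega
  have hda : ∀ A0, al A0 → ¬ ∀ e ∈ A, hd e = t → tl e ∉ A0 := by
    intro A0 hA0 hall
    have h1 := Mad_ins A hd tl (notMem_erase (Sum.inl t) A0)
    rw [insert_erase hA0.2.1] at h1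
    have h2 : (A.filter (fun e => tl e ∈ A0.erase (Sum.inl t) ∧ hd e = t)).card = 0 := by
      rw [card_eq_zero, filter_eq_empty_iff]
      rintro e he ⟨k1, k2⟩
      exact hall e he k2 (mem_erase.1 k1).2
    have h3 : 0 < (A.filter (fun e => tl e = Sum.inl t ∧ Sum.inl (hd e) ∉ A0)).card :=
      card_pos.2 ⟨f, mem_filter.2 ⟨hf, hft, hA0.2.2⟩⟩
    have h4 := hD _ (Mad_val_erase hA0.1.1)
    rw [Mad_bb_erase] at h4
    have h5 := hA0.1.2
    omega
  have hmaxb : (∃ B, be B) → ∃ B, be B ∧ ∀ Y, be Y → Y ⊆ B := by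
    classical
    rintro ⟨B0, hB0⟩
    obtain ⟨B, hB, hmax⟩ := exists_max_image (univ.filter be) (fun X => X.card)
      ⟨B0, mem_filter.2 ⟨mem_univ _, hB0⟩⟩
    have hB' := (mem_filter.1 hB).2
    refine ⟨B, hB', fun Y hY => ?_⟩
    have h1 := hmax (B ∪ Y) (mem_filter.2 ⟨mem_univ _, hbec B Y hB' hY⟩)
    have h2 : B = B ∪ Y := eq_of_subset_of_card_le subset_union_left h1
    rw [h2]
    exact subset_union_right
  have hmina : (∃ B, al B) → ∃ B, al B ∧ ∀ Y, al Y → B ⊆ Y := by
    classical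
    rintro ⟨B0, hB0⟩
    obtain ⟨B, hB, hmin⟩ := exists_min_image (univ.filter al) (fun X => X.card)
      ⟨B0, mem_filter.2 ⟨mem_univ _, hB0⟩⟩
    have hB' := (mem_filter.1 hB).2
    refine ⟨B, hB', fun Y hY => ?_⟩
    have h1 := hmin (B ∩ Y) (mem_filter.2 ⟨mem_univ _, halc B Y hB' hY⟩)
    have h2 : B ∩ Y = B := eq_of_subset_of_card_le inter_subset_left h1
    rw [← h2]
    exact inter_subset_right
  by_contra hno
  have hbad : ∀ e ∈ A, hd e = t → (∃ X, al X ∧ tl e ∉ X) ∨ ∃ X, be X ∧ tl e ∈ X := by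
    intro e he het
    have h1 : ∃ X, Val s S0 t X ∧
        DD (A.erase e) hd (Function.update tl f (tl e)) X < bb τ e1 s X := by
      by_contra h
      apply hno
      refine ⟨e, he, het, fun X hX => ?_⟩
      by_contra h2
      exact h ⟨X, hX, not_le.1 h2⟩
    obtain ⟨X, hX, hlt⟩ := h1
    have hef : f ≠ e := by
      rintro rfl
      exact hvt het
    have h2 := Mad_new (hd := hd) (tl := tl) X he hf hef
    have h3 := hD X hX
    rw [het, hft] at h2
    by_cases k1 : tl e ∈ X <;> by_cases k2 : (Sum.inl t : T ⊕ Bool) ∈ X <;>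
      by_cases k3 : (Sum.inl (hd f) : T ⊕ Bool) ∈ X <;> simp only [k1, k2, k3, not_true_eq_false,
        not_false_eq_true, and_true, and_false, true_and, false_and, if_true, if_false] at h2
    all_goals first
      | (exfalso; omega)
      | exact Or.inr ⟨X, ⟨⟨hX, by omega⟩, k2, k3⟩, k1⟩
      | exact Or.inl ⟨X, ⟨⟨hX, by omega⟩, k2, k3⟩, k1⟩
  have hin : ∃ e ∈ A, hd e = t := by
    have h1 : 0 < (A.filter (fun e => tl e = Sum.inl t)).card :=
      card_pos.2 ⟨f, mem_filter.2 ⟨hf, hft⟩⟩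
    obtain ⟨e, he⟩ := card_pos.1 (lt_of_lt_of_le h1 hdeg)
    exact ⟨e, (mem_filter.1 he).1, (mem_filter.1 he).2⟩
  obtain ⟨e0, he0, he0t⟩ := hin
  by_cases hA : ∃ X, al X
  · obtain ⟨A0, hA0, hAmin⟩ := hmina hA
    by_cases hB : ∃ X, be X
    · obtain ⟨B0, hB0, hBmax⟩ := hmaxb hB
      by_cases hz : ∃ z, z ≠ Sum.inl t ∧ z ∉ A0 ∪ B0
      · have v1 := Mad_val_inter hA0.1.1 hB0.1.1
        have v2 := Mad_val_union hA0.1.1 hB0.1.1 hz
        have h1 := hD _ v1
        have h2 := hD _ v2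
        have h3 := Mad_sub' (hd := hd) (tl := tl) (X := A0) (Y := B0) hf (hft ▸ hA0.2.1)
          (hft ▸ hB0.2.1) hA0.2.2 hB0.2.2
        have h4 := Mad_bb τ e1 s A0 B0
        have h5 := hA0.1.2
        have h6 := hB0.1.2
        omega
      · apply hc B0 hB0
        intro e he het
        rcases hbad e he het with ⟨X, hX, hXe⟩ | ⟨X, hX, hXe⟩
        · have h1 : tl e ∉ A0 := fun h => hXe (hAmin X hX h)
          have h2 : tl e ∈ A0 ∪ B0 := by
            by_contra h
            exact hz ⟨tl e, hloop e he het, h⟩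
          exact (mem_union.1 h2).resolve_left h1
        · exact hBmax X hX hXe
    · apply hda A0 hA0
      intro e he het
      rcases hbad e he het with ⟨X, hX, hXe⟩ | ⟨X, hX, hXe⟩
      · exact fun h => hXe (hAmin X hX h)
      · exact absurd ⟨X, hX⟩ hB
  · have hB : ∃ X, be X := by
      rcases hbad e0 he0 he0t with ⟨X, hX, _⟩ | ⟨X, hX, _⟩
      · exact absurd ⟨X, hX⟩ hA
      · exact ⟨X, hX⟩
    obtain ⟨B0, hB0, hBmax⟩ := hmaxb hB
    apply hc B0 hB0
    intro e he het
    rcases hbad e he het with ⟨X, hX, _⟩ | ⟨X, hX, hXe⟩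
    · exact absurd ⟨X, hX⟩ hA
    · exact hBmax X hX hXe

end Ts
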