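import Pool.Agent.H.MP_3adc02_co.ts.Bal

/-! The relaxed packing (note, 4a). -/

open Finset

namespace Ts

variable {T E : Type} [Fintype T] [DecidableEq T] [Fintype E] [DecidableEq E]

/- PROOF.
edmondsT with C = Fin tau, R c = empty, A = univ, condition = a2 (all tau colours are needed).  For every t and c the singleton {t} gives an arc of B c
with head t; choose a c t.  The B c are disjoint and there are exactly tau arcs into t (a1), so B c has exactly one arc into t.  p3: the arc of B c
entering W is a c (its head).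
-/
theorem pk0_exists {τ : ℕ} {hd : E → T} {tl : E → T ⊕ Bool} {TT : Bool → Finset T}
    (hI : Inst τ hd tl TT) : ∃ a : Fin τ → T → E, Pk0 τ hd tl a := by
  classical
  obtain ⟨B, _, hdis, hB⟩ := edmondsT (C := Fin τ) hd tl univ (fun _ => ∅) (by
    intro W hW
    refine le_trans ?_ (hI.a2 W hW)
    refine (card_le_univ _).trans ?_
    rw [Fintype.card_fin])
  have h1 : ∀ (c : Fin τ) (t : T), ∃ e ∈ B c, hd e = t := by
    intro c t
    obtain ⟨e, he, h2, _⟩ := hB c {t} (singleton_nonempty t) (disjoint_empty_left _)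
    exact ⟨e, he, mem_singleton.1 h2⟩
  choose a ha hat using h1
  have hinj : ∀ t, Function.Injective (fun c => a c t) := by
    intro t c c' hcc
    by_contra hne
    have h3 : a c t ∈ B c' := by
      have : a c t = a c' t := hcc
      rw [this]
      exact ha c' t
    exact disjoint_left.1 (hdis c c' hne) (ha c t) h3
  have hsurj : ∀ e : E, ∃ c, a c (hd e) = e := by
    intro e
    have h4 : (univ.image fun c => a c (hd e)) = univ.filter (fun e' => hd e' = hd e) := by
      refine eq_of_subset_of_card_le ?_ ?_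
      · intro x hx
        obtain ⟨c, _, rfl⟩ := mem_image.1 hx
        rw [mem_filter]
        exact ⟨mem_univ _, hat c _⟩
      · rw [hI.a1, card_image_of_injective _ (hinj (hd e)), card_univ, Fintype.card_fin]
    have h5 : e ∈ univ.image fun c => a c (hd e) := by
      rw [h4, mem_filter]
      exact ⟨mem_univ _, rfl⟩
    obtain ⟨c, _, hc⟩ := mem_image.1 h5
    exact ⟨c, hc⟩
  refine ⟨a, hat, hinj, ?_⟩
  intro c W hW
  obtain ⟨e, he, h2, h3⟩ := hB c W hW (disjoint_empty_left _)
  obtain ⟨c', hc'⟩ := hsurj e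
  have hcc : c' = c := by
    by_contra hne
    have h6 : e ∈ B c' := by
      rw [← hc']
      exact ha c' _
    exact disjoint_left.1 (hdis c' c hne) h6 he
  rw [hcc] at hc'
  refine ⟨hd e, h2, fun u hu => ?_⟩
  show tl (a c (hd e)) ≠ Sum.inl u
  rw [hc']
  exact h3 u hu

/-- Every source has at most as many root arcs in all colours as arcs. -/
private theorem rel_sum {τ : ℕ} {hd : E → T} {tl : E → T ⊕ Bool} {a : Fin τ → T → E}
    (ha : Pk0 τ hd tl a) (s : Bool) :
    ∑ c, rc tl a c s ≤ (univ.filter (fun e => tl e = Sum.inr s)).card := by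
  classical
  have h1 : ∑ c, rc tl a c s =
      (univ.filter (fun q : Fin τ × T => tl (a q.1 q.2) = Sum.inr s)).card := by
    unfold rc
    rw [card_filter, ← univ_product_univ, sum_product]
    refine sum_congr rfl fun c _ => ?_
    rw [card_filter]
  rw [h1]
  refine card_le_card_of_injOn (fun q : Fin τ × T => a q.1 q.2) ?_ ?_
  · intro q hq
    have hq' := (mem_filter.1 (mem_coe.1 hq)).2
    exact mem_coe.2 (mem_filter.2 ⟨mem_univ _, hq'⟩)
  · rintro ⟨c, t⟩ _ ⟨c', t'⟩ _ h
    have h2 : a c t = a c' t' := h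
    have h3 : t = t' := by rw [← ha.p1 c t, ← ha.p1 c' t', h2]
    subst h3
    have h4 : c = c' := ha.p2 t h2
    rw [h4]

/-- The sum of the numbers of root arcs of two colours. -/
private theorem rel_pair {τ : ℕ} {tl : E → T ⊕ Bool} {a a' : Fin τ → T → E} {i j : Fin τ}
    (h : ∀ z, (a' i z = a i z ∧ a' j z = a j z) ∨ (a' i z = a j z ∧ a' j z = a i z)) (s : Bool) :
    rc tl a' i s + rc tl a' j s = rc tl a i s + rc tl a j s := by
  unfold rc
  rw [card_filter, card_filter, card_filter, card_filter, ← sum_add_distrib, ← sum_add_distrib]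
  refine sum_congr rfl fun z _ => ?_
  rcases h z with ⟨h1, h2⟩ | ⟨h1, h2⟩
  · rw [h1, h2]
  · rw [h1, h2, add_comm]

private theorem rel_sq {x y x' y' : ℕ} (h : x' + y' = x + y) (h1 : x' ≤ y' + 1) (h2 : y' ≤ x' + 1) :
    x' ^ 2 + y' ^ 2 ≤ x ^ 2 + y ^ 2 := by
  rcases le_total x' y' with h3 | h3
  · rcases Nat.eq_or_lt_of_le h3 with h4 | h4
    · subst h4
      zify at *
      have hx : (x : ℤ) = 2 * x' - y := by linarith
      rw [hx]
      nlinarith [sq_nonneg ((x' : ℤ) - y)]
    · have h5 : y' = x' + 1 := by omega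
      subst h5
      rcases le_or_gt y x' with h6 | h6
      · zify at *
        have hx : (x : ℤ) = 2 * x' + 1 - y := by linarith
        rw [hx]
        nlinarith [mul_nonneg (sub_nonneg.2 h6) (by linarith : (0 : ℤ) ≤ x' + 1 - y)]
      · zify at *
        have hx : (x : ℤ) = 2 * x' + 1 - y := by linarith
        have h7 : (x' : ℤ) + 1 ≤ y := by omega
        rw [hx]
        nlinarith [mul_nonneg (sub_nonneg.2 h7) (by linarith : (0 : ℤ) ≤ y - x')]
  · rcases Nat.eq_or_lt_of_le h3 with h4 | h4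
    · subst h4
      zify at *
      have hx : (x : ℤ) = 2 * y' - y := by linarith
      rw [hx]
      nlinarith [sq_nonneg ((y' : ℤ) - y)]
    · have h5 : x' = y' + 1 := by omega
      subst h5
      rcases le_or_gt y y' with h6 | h6
      · zify at *
        have hx : (x : ℤ) = 2 * y' + 1 - y := by linarith
        rw [hx]
        nlinarith [mul_nonneg (sub_nonneg.2 h6) (by linarith : (0 : ℤ) ≤ y' + 1 - y)]
      · zify at *
        have hx : (x : ℤ) = 2 * y' + 1 - y := by linarith
        have h7 : (y' : ℤ) + 1 ≤ y := by omega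
        rw [hx]
        nlinarith [mul_nonneg (sub_nonneg.2 h7) (by linarith : (0 : ℤ) ≤ y - y')]

private theorem rel_sq_lt {x y x' y' : ℕ} (h : x' + y' = x + y) (h1 : x' ≤ y' + 1)
    (h2 : y' ≤ x' + 1) (hx : 2 ≤ x) (hy : y = 0) : x' ^ 2 + y' ^ 2 < x ^ 2 + y ^ 2 := by
  subst hy
  rw [add_zero] at h
  subst h
  have h3 : 1 ≤ x' := by omega
  have h4 : 1 ≤ y' := by omega
  nlinarith [Nat.mul_le_mul h3 h4]

/- PROOF.
Take a with Pk0 and minimal sum over c, s of (rc tl a c s)^2 (Nat.find or strong induction).  Suppose P4 fails: some rc tl a i s >= 2.  The sum over c of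
rc tl a c s is #{e : tl e = inr s} <= tau (a6; every arc is a c t for exactly one c), so some j has rc tl a j s = 0.  balance for i, j: the sums
rc i s' + rc j s' are unchanged for both s' (swaps), the squares do not increase (|difference| <= 1 is best possible) and decrease strictly for s.
-/
theorem relaxed {τ : ℕ} {hd : E → T} {tl : E → T ⊕ Bool} {TT : Bool → Finset T}
    (hI : Inst τ hd tl TT) : ∃ a : Fin τ → T → E, Pk0 τ hd tl a ∧ P4 tl a := by
  classical
  have hex : ∃ n : ℕ, ∃ a : Fin τ → T → E, Pk0 τ hd tl a ∧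
      ∑ c, ∑ s, (rc tl a c s) ^ 2 = n := by
    obtain ⟨a, ha⟩ := pk0_exists hI
    exact ⟨_, a, ha, rfl⟩
  obtain ⟨a, ha, hsum⟩ := Nat.find_spec hex
  refine ⟨a, ha, ?_⟩
  by_contra hP
  have h1 : ∃ i s, 2 ≤ rc tl a i s := by
    unfold P4 at hP
    push Not at hP
    obtain ⟨i, s, t, t', h2, h3, hne⟩ := hP
    refine ⟨i, s, ?_⟩
    unfold rc
    have h4 : ({t, t'} : Finset T) ⊆ univ.filter (fun z => tl (a i z) = Sum.inr s) := by
      intro z hz
      rw [mem_insert, mem_singleton] at hz
      rw [mem_filter]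
      rcases hz with rfl | rfl
      · exact ⟨mem_univ _, h2⟩
      · exact ⟨mem_univ _, h3⟩
    have h5 := card_le_card h4
    rwa [card_pair hne] at h5
  obtain ⟨i, s, his⟩ := h1
  have h2 : ∃ j, rc tl a j s = 0 := by
    by_contra hcon
    push Not at hcon
    have h3 : ∑ c : Fin τ, 1 < ∑ c, rc tl a c s := by
      refine sum_lt_sum (fun c _ => Nat.one_le_iff_ne_zero.2 (hcon c)) ⟨i, mem_univ i, ?_⟩
      omega
    rw [sum_const, card_univ, Fintype.card_fin, smul_eq_mul, mul_one] at h3
    have h4 := rel_sum ha s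
    have h5 := hI.a6 s
    omega
  obtain ⟨j, hj⟩ := h2
  have hij : i ≠ j := by
    rintro rfl
    omega
  obtain ⟨a', ha', hoth, hsw, hbal⟩ := balance ha hij
  have hlt : ∑ c, ∑ s, (rc tl a' c s) ^ 2 < ∑ c, ∑ s, (rc tl a c s) ^ 2 := by
    rw [← sum_add_sum_compl ({i, j} : Finset (Fin τ)),
      ← sum_add_sum_compl ({i, j} : Finset (Fin τ)) (fun c => ∑ s, (rc tl a c s) ^ 2),
      sum_pair hij, sum_pair hij]
    have h6 : ∑ c ∈ ({i, j} : Finset (Fin τ))ᶜ, ∑ s, (rc tl a' c s) ^ 2 =
        ∑ c ∈ ({i, j} : Finset (Fin τ))ᶜ, ∑ s, (rc tl a c s) ^ 2 := by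
      refine sum_congr rfl fun c hc => ?_
      rw [mem_compl, mem_insert, mem_singleton, not_or] at hc
      unfold rc
      rw [hoth c hc.1 hc.2]
    rw [h6]
    refine Nat.add_lt_add_right ?_ _
    rw [← sum_add_distrib, ← sum_add_distrib]
    refine sum_lt_sum (fun s' _ => rel_sq (rel_pair hsw s') (hbal s').1 (hbal s').2)
      ⟨s, mem_univ s, rel_sq_lt (rel_pair hsw s) (hbal s).1 (hbal s).2 his hj⟩
  rw [hsum] at hlt
  exact Nat.find_min hex hlt ⟨a', ha', rfl⟩

end Ts
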