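import Pool.Agent.H.MP_3adc02_co.ts.Mad

/-! Complete splitting at a vertex of low degree (note, Part 3). -/

open Finset

namespace Ts

variable {T E : Type} [Fintype T] [DecidableEq T] [Fintype E] [DecidableEq E]

omit [Fintype T] [Fintype E] [DecidableEq E] in
private theorem spl_DD_congr {A A' : Finset E} {hd : E → T} {tl tl' : E → T ⊕ Bool}
    (hA : A = A') (h : ∀ e ∈ A, tl e = tl' e) (X : Finset (T ⊕ Bool)) :
    DD A hd tl X = DD A' hd tl' X := by
  subst hA
  unfold DD
  congr 1
  apply filter_congr
  intro e he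
  rw [h e he]

/- PROOF.
(for split_all) Induction on n.  n = 0: phi = id; no arc of A has tail t, so nothing changes.  n + 1: take f in A with tl f = inl t, e from mader (in-arcs >= 1),
A1 = A.erase e, tl1 = update tl f (tl e) (tl e <> inl t by hloop, e <> f).  tl1 has n arcs of A1 with tail t and at least n in-arcs in A1, and no loops
at t (hd f <> t).  phi := update phi1 f e.  The image of the out-arcs under phi is that of phi1 plus e, and the new tails agree (phi1 h has
head t, so phi1 h <> f, so tl1 (phi1 h) = tl (phi1 h)).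
-/
/-- iteration of the Mader lemma -/
theorem split_all {hd : E → T} {s : Bool} {S0 : Finset T} {t : T} (ht : t ∈ S0) {τ e1 : ℕ} (n : ℕ) :
    ∀ (A : Finset E) (tl : E → T ⊕ Bool), (∀ e ∈ A, hd e = t → tl e ≠ Sum.inl t) →
      (∀ X, Val s S0 t X → bb τ e1 s X ≤ DD A hd tl X) →
      (A.filter (fun e => tl e = Sum.inl t)).card = n → n ≤ (A.filter (fun e => hd e = t)).card →
      ∃ φ : E → E, (∀ f ∈ A, tl f = Sum.inl t → φ f ∈ A ∧ hd (φ f) = t) ∧
        (∀ f ∈ A, ∀ g ∈ A, tl f = Sum.inl t → tl g = Sum.inl t → φ f = φ g → f = g) ∧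
        ∀ X, Val s S0 t X → bb τ e1 s X ≤
          DD (A.filter (fun e => ∀ f ∈ A, tl f = Sum.inl t → φ f ≠ e)) hd
            (fun e => if tl e = Sum.inl t then tl (φ e) else tl e) X := by
  induction n with
  | zero =>
    intro A tl _ hD hn _
    have h0 : ∀ f ∈ A, tl f ≠ Sum.inl t := by
      intro f hf h
      have hmem : f ∈ A.filter (fun e => tl e = Sum.inl t) := mem_filter.2 ⟨hf, h⟩
      rw [card_eq_zero.1 hn] at hmem
      exact absurd hmem (notMem_empty f)
    refine ⟨id, fun f hf h => absurd h (h0 f hf), fun f hf g _ h _ _ => absurd h (h0 f hf), ?_⟩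
    intro X hX
    refine (hD X hX).trans (le_of_eq ?_)
    refine spl_DD_congr ?_ ?_ X
    · ext e
      simp only [mem_filter]
      exact ⟨fun h => ⟨h, fun f hf hft => absurd hft (h0 f hf)⟩, fun h => h.1⟩
    · intro e he
      show tl e = if tl e = Sum.inl t then tl (id e) else tl e
      rw [if_neg (h0 e he)]
  | succ n ih =>
    intro A tl hloop hD hn hin
    have hne : (A.filter (fun e => tl e = Sum.inl t)).Nonempty := by
      rw [← card_pos, hn]
      exact Nat.succ_pos n
    obtain ⟨f, hf'⟩ := hne
    rw [mem_filter] at hf'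
    obtain ⟨hf, hft⟩ := hf'
    obtain ⟨e, he, het, hD1⟩ := mader ht hloop hD (by rw [hn]; exact hin) hf hft
    have hte : tl e ≠ Sum.inl t := hloop e he het
    have hef : f ≠ e := by
      intro h
      rw [h] at hft
      exact hte hft
    have hhf : hd f ≠ t := fun h => hloop f hf h hft
    have hup : ∀ g, g ≠ f → Function.update tl f (tl e) g = tl g := fun g hg =>
      Function.update_of_ne hg _ _
    have hupf : Function.update tl f (tl e) f = tl e := Function.update_self _ _ _
    obtain ⟨φ1, h1, h2, h3⟩ := ih (A.erase e) (Function.update tl f (tl e)) (by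
        intro g hg hgt
        have hgf : g ≠ f := fun h => hhf (h ▸ hgt)
        rw [hup g hgf]
        exact hloop g (mem_of_mem_erase hg) hgt) hD1 (by
        have hset : (A.erase e).filter (fun g => Function.update tl f (tl e) g = Sum.inl t) =
            (A.filter (fun g => tl g = Sum.inl t)).erase f := by
          ext g
          simp only [mem_filter, mem_erase]
          constructor
          · rintro ⟨⟨_, hgA⟩, hgt⟩
            have hgf : g ≠ f := by
              intro h
              rw [h, hupf] at hgt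
              exact hte hgt
            rw [hup g hgf] at hgt
            exact ⟨hgf, hgA, hgt⟩
          · rintro ⟨hgf, hgA, hgt⟩
            refine ⟨⟨?_, hgA⟩, ?_⟩
            · intro h
              rw [h] at hgt
              exact hte hgt
            · rw [hup g hgf]
              exact hgt
        rw [hset, card_erase_of_mem (mem_filter.2 ⟨hf, hft⟩), hn]
        rfl) (by
        have hset : (A.erase e).filter (fun g => hd g = t) =
            (A.filter (fun g => hd g = t)).erase e := by
          ext g
          simp only [mem_filter, mem_erase]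
          exact ⟨fun h => ⟨h.1.1, h.1.2, h.2⟩, fun h => ⟨⟨h.1, h.2.1⟩, h.2.2⟩⟩
        rw [hset, card_erase_of_mem (mem_filter.2 ⟨he, het⟩)]
        exact Nat.le_sub_of_add_le hin)
    have hmem1 : ∀ g ∈ A, tl g = Sum.inl t → g ≠ f →
        g ∈ A.erase e ∧ Function.update tl f (tl e) g = Sum.inl t := by
      intro g hg hgt hgf
      refine ⟨mem_erase.2 ⟨?_, hg⟩, ?_⟩
      · intro h
        rw [h] at hgt
        exact hte hgt
      · rw [hup g hgf]
        exact hgt
    have hmem2 : ∀ g ∈ A.erase e, Function.update tl f (tl e) g = Sum.inl t →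
        g ∈ A ∧ tl g = Sum.inl t ∧ g ≠ f := by
      intro g hg hgt
      have hgf : g ≠ f := by
        intro h
        rw [h, hupf] at hgt
        exact hte hgt
      rw [hup g hgf] at hgt
      exact ⟨mem_of_mem_erase hg, hgt, hgf⟩
    have hφf : Function.update φ1 f e f = e := Function.update_self _ _ _
    have hφ : ∀ g, g ≠ f → Function.update φ1 f e g = φ1 g := fun g hg =>
      Function.update_of_ne hg _ _
    refine ⟨Function.update φ1 f e, ?_, ?_, ?_⟩
    · intro g hg hgt
      by_cases hgf : g = f
      · rw [hgf, hφf]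
        exact ⟨he, het⟩
      · rw [hφ g hgf]
        obtain ⟨a1, a2⟩ := hmem1 g hg hgt hgf
        exact ⟨mem_of_mem_erase (h1 g a1 a2).1, (h1 g a1 a2).2⟩
    · intro g hg h hh hgt hht heq
      by_cases hgf : g = f
      · by_cases hhf' : h = f
        · rw [hgf, hhf']
        · exfalso
          rw [hgf, hφf, hφ h hhf'] at heq
          obtain ⟨a1, a2⟩ := hmem1 h hh hht hhf'
          exact (ne_of_mem_erase (h1 h a1 a2).1) heq.symm
      · by_cases hhf' : h = f
        · exfalso
          rw [hhf', hφf, hφ g hgf] at heq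
          obtain ⟨a1, a2⟩ := hmem1 g hg hgt hgf
          exact (ne_of_mem_erase (h1 g a1 a2).1) heq
        · rw [hφ g hgf, hφ h hhf'] at heq
          obtain ⟨a1, a2⟩ := hmem1 g hg hgt hgf
          obtain ⟨b1, b2⟩ := hmem1 h hh hht hhf'
          exact h2 g a1 h b1 a2 b2 heq
    · intro X hX
      refine (h3 X hX).trans (le_of_eq ?_)
      refine spl_DD_congr ?_ ?_ X
      · ext g
        simp only [mem_filter]
        constructor
        · rintro ⟨hg, hg2⟩
          refine ⟨mem_of_mem_erase hg, fun h hh hht => ?_⟩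
          by_cases hhf' : h = f
          · rw [hhf', hφf]
            exact (ne_of_mem_erase hg).symm
          · rw [hφ h hhf']
            obtain ⟨b1, b2⟩ := hmem1 h hh hht hhf'
            exact hg2 h b1 b2
        · rintro ⟨hg, hg2⟩
          refine ⟨mem_erase.2 ⟨?_, hg⟩, fun h hh hht => ?_⟩
          · intro hge
            have := hg2 f hf hft
            rw [hφf] at this
            exact this hge.symm
          · obtain ⟨b1, b2, b3⟩ := hmem2 h hh hht
            have := hg2 h b1 b2
            rw [hφ h b3] at this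
            exact this
      · intro g hg
        have hgA : g ∈ A.erase e := (mem_filter.1 hg).1
        show (if Function.update tl f (tl e) g = Sum.inl t then
            Function.update tl f (tl e) (φ1 g) else Function.update tl f (tl e) g) =
          if tl g = Sum.inl t then tl (Function.update φ1 f e g) else tl g
        by_cases hgf : g = f
        · rw [hgf, hupf, if_neg hte, if_pos hft, hφf]
        · rw [hup g hgf, hφ g hgf]
          by_cases hgt : tl g = Sum.inl t
          · rw [if_pos hgt, if_pos hgt]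
            apply hup
            intro h
            have h5 := (h1 g hgA (by rw [hup g hgf]; exact hgt)).2
            rw [h] at h5
            exact hhf h5
          · rw [if_neg hgt, if_neg hgt]

omit [DecidableEq T] [DecidableEq E] [Fintype T] in
private theorem spl_card_sub (p : E → Prop) [DecidablePred p] [Fintype {e // p e}]
    (P : E → Prop) [DecidablePred P] :
    (univ.filter (fun e : {e // p e} => P e.1)).card =
      (univ.filter (fun e => p e ∧ P e)).card := by
  refine card_bij (fun e _ => e.1) ?_ ?_ ?_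
  · intro e he
    rw [mem_filter] at he ⊢
    exact ⟨mem_univ _, e.2, he.2⟩
  · intro e _ e' _ h
    exact Subtype.ext h
  · intro e he
    rw [mem_filter] at he
    exact ⟨⟨e, he.2.1⟩, mem_filter.2 ⟨mem_univ _, he.2.2⟩, rfl⟩

omit [Fintype T] [DecidableEq T] in
private theorem spl_map_inj {t : T} {y z : {x // x ≠ t} ⊕ Bool}
    (h : Sum.map Subtype.val id y = Sum.map Subtype.val id z) : y = z := by
  rcases y with y | y <;> rcases z with z | z
  · simp only [Sum.map_inl, Sum.inl.injEq] at h
    rw [Subtype.ext h]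
  · simp at h
  · simp at h
  · simp only [Sum.map_inr, id, Sum.inr.injEq] at h
    rw [h]

/- PROOF.
No loops: a1 and a2 for W = {t}: all tau arcs into t have tails <> inl t (filter equality by card).  bb <= DD for valid X (with e1 = #{e : tl e = inr s},
A = univ, S0 = TT s): X contains inr (!s): W = {u : inl u notin X} nonempty, a2.  Otherwise S = {u : inl u in X} subset TT s: DD X = (e1 - #{inr s -> S}) + #{leaving S}
>= e1 by a4.  split_all with n = #out(t) < tau = #in(t).  F := final arc set (not in the image of phi), tlf := final tails.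
(i) X = {inr s, inl t}: valid; DD F X counts arcs of F with final tail inr s and head <> t (no final tail is t) so #{e in F : tlf e = inr s, hd e <> t} >= e1; the
    arcs with final tail inr s are: unmatched arcs with tail inr s and the f with tl (phi f) = inr s, at most e1 in total; so no arc inr s -> t is unmatched
    and #{e : hd e <> t, tlf e = inr s} = e1.  By a3r no arc comes from inr (!s) into t (t in TT s).  This gives the third claim.
(ii) all arcs with hd e <> t are in F (phi f has head t).  tl' e := tlf e as an element of {x // x <> t} + Bool (tlf e <> inl t).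
(iii) Inst: disj, a1, a3r, a3 direct (for f with tail p = tl (phi f): p is inr s, or in T with p notin TT (!s) by a3, and hd f notin TT (!s) by a3 since t in TT s).
    a2: W nonempty without t: X = everything outside W; DD F X counts exactly the arcs with head in W and final tail not in W.  a4 for s: S subset TT s without t:
    X = {inr s, inl t} + S: e1 <= (e1 - #{inr s -> S}) + #{leaving S}.  a4 for !s: nothing changed (arcs with tails in TT (!s) or inr (!s)
    are not involved, heads <> t).  a6: the count for s is e1, for !s unchanged.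
-/
theorem splitting {τ : ℕ} {hd : E → T} {tl : E → T ⊕ Bool} {TT : Bool → Finset T}
    (hI : Inst τ hd tl TT) {s : Bool} {t : T} (ht : t ∈ TT s)
    (hdeg : (univ.filter (fun e => tl e = Sum.inl t)).card < τ) :
    ∃ (φ : E → E) (tl' : {e // hd e ≠ t} → {x // x ≠ t} ⊕ Bool),
      (∀ f, tl f = Sum.inl t → hd (φ f) = t) ∧
      (∀ f g, tl f = Sum.inl t → tl g = Sum.inl t → φ f = φ g → f = g) ∧
      (∀ e, hd e = t → ∀ s', tl e = Sum.inr s' → ∃ f, tl f = Sum.inl t ∧ φ f = e) ∧
      (∀ e, tl e.1 ≠ Sum.inl t → Sum.map Subtype.val id (tl' e) = tl e.1) ∧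
      (∀ e, tl e.1 = Sum.inl t → Sum.map Subtype.val id (tl' e) = tl (φ e.1)) ∧
      Inst τ (fun e : {e // hd e ≠ t} => (⟨hd e.1, e.2⟩ : {x // x ≠ t})) tl'
        (fun b => (TT b).subtype (fun x => x ≠ t)) := by
  classical
  have hloop : ∀ e, hd e = t → tl e ≠ Sum.inl t := by
    have h1 := hI.a2 {t} (singleton_nonempty t)
    have h2 := hI.a1 t
    have hsub : univ.filter (fun e => hd e ∈ ({t} : Finset T) ∧ ∀ u ∈ ({t} : Finset T),
        tl e ≠ Sum.inl u) ⊆ univ.filter (fun e => hd e = t) := by
      intro e he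
      rw [mem_filter] at he ⊢
      exact ⟨he.1, mem_singleton.1 he.2.1⟩
    have heq := eq_of_subset_of_card_le hsub (by rw [h2]; exact h1)
    intro e he
    have hm : e ∈ univ.filter (fun e => hd e = t) := mem_filter.2 ⟨mem_univ _, he⟩
    rw [← heq, mem_filter] at hm
    exact hm.2.2 t (mem_singleton_self t)
  have hDall : ∀ X, Val s (TT s) t X →
      bb τ (univ.filter (fun e => tl e = Sum.inr s)).card s X ≤ DD univ hd tl X := by
    rintro X ⟨hs, ⟨z, hzt, hzX⟩, hX⟩
    unfold bb DD
    by_cases hns : Sum.inr (!s) ∈ X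
    · rw [if_pos hns]
      have hbool : ∀ b : Bool, (Sum.inr b : T ⊕ Bool) ∈ X := by
        intro b
        by_cases hb : b = s
        · rw [hb]; exact hs
        · have : b = !s := by cases b <;> cases s <;> simp_all
          rw [this]; exact hns
      have hz : ∃ u0, z = Sum.inl u0 := by
        rcases z with u | b
        · exact ⟨u, rfl⟩
        · exact absurd (hbool b) hzX
      obtain ⟨u0, rfl⟩ := hz
      refine (hI.a2 (univ.filter (fun u => Sum.inl u ∉ X)) ⟨u0, by
        rw [mem_filter]; exact ⟨mem_univ _, hzX⟩⟩).trans ?_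
      apply card_le_card
      intro e he
      simp only [mem_filter, mem_univ, true_and] at he ⊢
      refine ⟨?_, he.1⟩
      rcases htl : tl e with u | b
      · by_contra hu
        exact he.2 u hu htl
      · exact hbool b
    · rw [if_neg hns]
      rcases hX with hX | hX
      · exact absurd hX hns
      obtain ⟨S, hS⟩ : ∃ S : Finset T, S = univ.filter (fun u => Sum.inl u ∈ X) := ⟨_, rfl⟩
      have hmS : ∀ u, u ∈ S ↔ Sum.inl u ∈ X := by
        intro u; rw [hS]; simp
      have h4 := hI.a4 s S (fun u hu => hX u ((hmS u).1 hu))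
      have hsplit : (univ.filter (fun e => tl e = Sum.inr s)).card =
          (univ.filter (fun e => tl e = Sum.inr s ∧ hd e ∈ S)).card +
          (univ.filter (fun e => tl e = Sum.inr s ∧ hd e ∉ S)).card := by
        rw [← card_filter_add_card_filter_not (s := univ.filter (fun e => tl e = Sum.inr s))
          (fun e => hd e ∈ S), filter_filter, filter_filter]
      have hle : (univ.filter (fun e => hd e ∉ S ∧ ∃ u ∈ S, tl e = Sum.inl u)).card +
          (univ.filter (fun e => tl e = Sum.inr s ∧ hd e ∉ S)).card ≤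
          (univ.filter (fun e => tl e ∈ X ∧ Sum.inl (hd e) ∉ X)).card := by
        rw [← card_union_of_disjoint]
        · apply card_le_card
          intro e he
          simp only [mem_union, mem_filter, mem_univ, true_and] at he ⊢
          rcases he with ⟨h1, u, hu, h2⟩ | ⟨h1, h2⟩
          · exact ⟨h2 ▸ (hmS u).1 hu, fun h => h1 ((hmS _).2 h)⟩
          · exact ⟨h1 ▸ hs, fun h => h2 ((hmS _).2 h)⟩
        · rw [disjoint_left]
          intro e he he'
          simp only [mem_filter, mem_univ, true_and] at he he'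
          obtain ⟨_, u, _, h2⟩ := he
          rw [h2] at he'
          exact absurd he'.1 (by simp)
      omega
  have hnin : (univ.filter (fun e => tl e = Sum.inl t)).card ≤
      (univ.filter (fun e => hd e = t)).card := by
    rw [hI.a1 t]
    exact hdeg.le
  obtain ⟨φ, h1, h2, h3⟩ := split_all (s := s) ht
    (univ.filter (fun e => tl e = Sum.inl t)).card univ tl (fun e _ => hloop e) hDall rfl hnin
  obtain ⟨e1, he1⟩ : ∃ k, k = (univ.filter (fun e => tl e = Sum.inr s)).card := ⟨_, rfl⟩
  rw [← he1] at h3
  have hφt : ∀ f, tl f = Sum.inl t → hd (φ f) = t := fun f hf => (h1 f (mem_univ f) hf).2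
  have hφi : ∀ f g, tl f = Sum.inl t → tl g = Sum.inl t → φ f = φ g → f = g :=
    fun f g hf hg => h2 f (mem_univ f) g (mem_univ g) hf hg
  obtain ⟨tlf, htlf⟩ : ∃ r : E → T ⊕ Bool,
      r = fun e => if tl e = Sum.inl t then tl (φ e) else tl e := ⟨_, rfl⟩
  rw [← htlf] at h3
  have htp : ∀ e, tl e = Sum.inl t → tlf e = tl (φ e) := by
    intro e he
    rw [htlf]
    exact if_pos he
  have htn : ∀ e, tl e ≠ Sum.inl t → tlf e = tl e := by
    intro e he
    rw [htlf]
    exact if_neg he
  have htt : ∀ e, tlf e ≠ Sum.inl t := by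
    intro e
    by_cases he : tl e = Sum.inl t
    · rw [htp e he]
      exact hloop _ (hφt e he)
    · rw [htn e he]
      exact he
  -- the arcs of F with head different from t
  have hDF : ∀ X : Finset (T ⊕ Bool), Sum.inl t ∈ X ∨ (∀ e, hd e = t → False) →
      DD (univ.filter (fun e => ∀ f ∈ univ, tl f = Sum.inl t → φ f ≠ e)) hd tlf X ≤
        (univ.filter (fun e => hd e ≠ t ∧ (tlf e ∈ X ∧ Sum.inl (hd e) ∉ X))).card := by
    intro X hX
    unfold DD
    apply card_le_card
    intro e he
    simp only [mem_filter, mem_univ, true_and] at he ⊢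
    refine ⟨?_, he.2⟩
    intro h
    rcases hX with hX | hX
    · rw [h] at he
      exact he.2.2 hX
    · exact hX e h
  -- the set P
  have hPQ : (univ.filter (fun e => hd e ≠ t ∧ tlf e = Sum.inr s)).card +
      (univ.filter (fun e => (hd e = t ∧ tl e = Sum.inr s) ∧
        ∀ f, tl f = Sum.inl t → φ f ≠ e)).card ≤ e1 := by
    rw [he1, ← card_image_of_injOn (s := univ.filter (fun e => hd e ≠ t ∧ tlf e = Sum.inr s))
      (f := fun e => if tl e = Sum.inl t then φ e else e), ← card_union_of_disjoint]
    · apply card_le_card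
      intro e he
      rw [mem_union] at he
      rcases he with he | he
      · rw [mem_image] at he
        obtain ⟨f, hf, hfe⟩ := he
        simp only [mem_filter, mem_univ, true_and] at hf ⊢
        by_cases hft : tl f = Sum.inl t
        · rw [if_pos hft] at hfe
          rw [← hfe, ← htp f hft]
          exact hf.2
        · rw [if_neg hft] at hfe
          rw [← hfe, ← htn f hft]
          exact hf.2
      · simp only [mem_filter, mem_univ, true_and] at he ⊢
        exact he.1.2
    · rw [disjoint_left]
      intro e he he'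
      rw [mem_image] at he
      obtain ⟨f, hf, hfe⟩ := he
      simp only [mem_filter, mem_univ, true_and] at hf he'
      by_cases hft : tl f = Sum.inl t
      · rw [if_pos hft] at hfe
        exact he'.2 f hft hfe
      · rw [if_neg hft] at hfe
        rw [hfe] at hf
        exact hf.1 he'.1.1
    · intro f hf g hg hfg
      simp only [coe_filter, mem_univ, true_and, Set.mem_ofPred_eq] at hf hg
      simp only at hfg
      by_cases hft : tl f = Sum.inl t
      · rw [if_pos hft] at hfg
        by_cases hgt : tl g = Sum.inl t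
        · rw [if_pos hgt] at hfg
          exact hφi f g hft hgt hfg
        · rw [if_neg hgt] at hfg
          exact absurd (hfg ▸ hφt f hft) hg.1
      · rw [if_neg hft] at hfg
        by_cases hgt : tl g = Sum.inl t
        · rw [if_pos hgt] at hfg
          exact absurd (hfg ▸ hφt g hgt) hf.1
        · rw [if_neg hgt] at hfg
          exact hfg
  have hPge : e1 ≤ (univ.filter (fun e => hd e ≠ t ∧ tlf e = Sum.inr s)).card := by
    obtain ⟨X, hX⟩ : ∃ X : Finset (T ⊕ Bool), X = {Sum.inr s, Sum.inl t} := ⟨_, rfl⟩
    have hns : (Sum.inr (!s) : T ⊕ Bool) ∉ X := by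
      rw [hX]
      simp
    have hval : Val s (TT s) t X := by
      refine ⟨by rw [hX]; simp, ⟨Sum.inr (!s), by simp, hns⟩, Or.inr ?_⟩
      intro u hu
      rw [hX] at hu
      simp only [mem_insert, mem_singleton, reduceCtorEq, Sum.inl.injEq, false_or] at hu
      rw [hu]
      exact ht
    have h4 := h3 X hval
    unfold bb at h4
    rw [if_neg hns] at h4
    refine (h4.trans (hDF X (Or.inl (by rw [hX]; simp)))).trans ?_
    apply card_le_card
    intro e he
    simp only [mem_filter, mem_univ, true_and] at he ⊢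
    refine ⟨he.1, ?_⟩
    have h5 := he.2.1
    rw [hX] at h5
    simp only [mem_insert, mem_singleton] at h5
    rcases h5 with h5 | h5
    · exact h5
    · exact absurd h5 (htt e)
  have hPle : (univ.filter (fun e => hd e ≠ t ∧ tlf e = Sum.inr s)).card ≤ e1 := by omega
  have hQ : ∀ e, hd e = t → tl e = Sum.inr s → ∃ f, tl f = Sum.inl t ∧ φ f = e := by
    intro e he het
    by_contra hcon
    push Not at hcon
    have hpos : 0 < (univ.filter (fun e => (hd e = t ∧ tl e = Sum.inr s) ∧
        ∀ f, tl f = Sum.inl t → φ f ≠ e)).card := by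
      rw [card_pos]
      exact ⟨e, mem_filter.2 ⟨mem_univ _, ⟨he, het⟩, hcon⟩⟩
    omega
  have hbs : ∀ b : Bool, b ≠ s → b = !s := by
    intro b hb
    cases b <;> cases s <;> simp_all
  have hrt : ∀ e b, hd e = t → tl e = Sum.inr b → b = s := by
    intro e b he heb
    by_contra hb
    have := hI.a3r e b heb
    rw [he, hbs b hb, Bool.not_not] at this
    exact this ht
  have hex : ∀ e : {e // hd e ≠ t}, ∃ y : {x // x ≠ t} ⊕ Bool,
      Sum.map Subtype.val id y = tlf e.1 := by
    intro e
    rcases h : tlf e.1 with u | b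
    · refine ⟨Sum.inl ⟨u, ?_⟩, rfl⟩
      intro hu
      rw [hu] at h
      exact htt e.1 h
    · exact ⟨Sum.inr b, rfl⟩
  choose tl' htl' using hex
  have hinl : ∀ e (u : {x // x ≠ t}), tl' e = Sum.inl u ↔ tlf e.1 = Sum.inl u.1 := by
    intro e u
    rw [← htl' e]
    constructor
    · intro h; rw [h]; rfl
    · intro h; exact spl_map_inj h
  have hinr : ∀ e (b : Bool), tl' e = Sum.inr b ↔ tlf e.1 = Sum.inr b := by
    intro e b
    rw [← htl' e]
    constructor
    · intro h; rw [h]; rfl
    · intro h; exact spl_map_inj h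
  refine ⟨φ, tl', hφt, hφi, ?_, ?_, ?_, ?_⟩
  · intro e he s' hes
    have hs' : s' = s := hrt e s' he hes
    rw [hs'] at hes
    exact hQ e he hes
  · intro e he
    rw [htl' e, htn e.1 he]
  · intro e he
    rw [htl' e, htp e.1 he]
  -- the instance
  have htail : ∀ e b, tlf e = Sum.inr b → tl e = Sum.inr b ∨ (tl e = Sum.inl t ∧ b = s) := by
    intro e b h
    by_cases he : tl e = Sum.inl t
    · rw [htp e he] at h
      exact Or.inr ⟨he, hrt _ b (hφt e he) h⟩
    · rw [htn e he] at h
      exact Or.inl h
  have hW : ∀ W : Finset {x // x ≠ t}, ∀ x : T, x ∈ W.map (Function.Embedding.subtype _) ↔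
      ∃ h : x ≠ t, (⟨x, h⟩ : {x // x ≠ t}) ∈ W := by
    intro W x
    rw [mem_map]
    constructor
    · rintro ⟨y, hy, rfl⟩
      exact ⟨y.2, hy⟩
    · rintro ⟨h, hx⟩
      exact ⟨⟨x, h⟩, hx, rfl⟩
  constructor
  · -- disj
    intro b
    rw [disjoint_left]
    intro x hx hx'
    rw [mem_subtype] at hx hx'
    exact disjoint_left.1 (hI.disj b) hx hx'
  · -- a1
    intro x
    rw [← hI.a1 x.1]
    refine card_bij (fun e _ => e.1) ?_ ?_ ?_
    · intro e he
      rw [mem_filter] at he ⊢
      exact ⟨mem_univ _, congrArg Subtype.val he.2⟩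
    · intro e _ e' _ h
      exact Subtype.ext h
    · intro e he
      rw [mem_filter] at he
      exact ⟨⟨e, by rw [he.2]; exact x.2⟩, mem_filter.2 ⟨mem_univ _, Subtype.ext he.2⟩, rfl⟩
  · -- a2
    intro W hWne
    obtain ⟨W1, hW1⟩ : ∃ W1 : Finset T, W1 = W.map (Function.Embedding.subtype _) := ⟨_, rfl⟩
    have hmW : ∀ x : T, x ∈ W1 ↔ ∃ h : x ≠ t, (⟨x, h⟩ : {x // x ≠ t}) ∈ W := by
      intro x; rw [hW1]; exact hW W x
    obtain ⟨X, hX⟩ : ∃ X : Finset (T ⊕ Bool), X = univ.filter (fun z => ∀ u ∈ W1, z ≠ Sum.inl u) :=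
      ⟨_, rfl⟩
    have hmX : ∀ z, z ∈ X ↔ ∀ u ∈ W1, z ≠ Sum.inl u := by
      intro z; rw [hX]; simp
    obtain ⟨u0, hu0⟩ := hWne
    have hval : Val s (TT s) t X := by
      refine ⟨(hmX _).2 (fun u _ => by simp), ⟨Sum.inl u0.1, ?_, ?_⟩,
        Or.inl ((hmX _).2 (fun u _ => by simp))⟩
      · intro h
        exact u0.2 (Sum.inl.inj h)
      · intro h
        exact (hmX _).1 h u0.1 ((hmW _).2 ⟨u0.2, hu0⟩) rfl
    have h4 := h3 X hval
    unfold bb at h4
    rw [if_pos ((hmX _).2 (fun u _ => by simp))] at h4
    have htX : Sum.inl t ∈ X := by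
      rw [hmX]
      intro u hu h
      obtain ⟨hut, _⟩ := (hmW u).1 hu
      exact hut (Sum.inl.inj h).symm
    refine (h4.trans (hDF X (Or.inl htX))).trans ?_
    have hcs := spl_card_sub (fun e => hd e ≠ t) (fun e => tlf e ∈ X ∧ Sum.inl (hd e) ∉ X)
    rw [← hcs]
    apply card_le_card
    intro e he
    simp only [mem_filter, mem_univ, true_and] at he ⊢
    refine ⟨?_, ?_⟩
    · have h5 := he.2
      rw [hmX] at h5
      push Not at h5
      obtain ⟨u, hu, hu2⟩ := h5
      obtain ⟨hut, hu3⟩ := (hmW u).1 hu
      have : (⟨hd e.1, e.2⟩ : {x // x ≠ t}) = ⟨u, hut⟩ := Subtype.ext (Sum.inl.inj hu2)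
      rw [this]
      exact hu3
    · intro u hu h
      rw [hinl] at h
      exact (hmX _).1 he.1 u.1 ((hmW _).2 ⟨u.2, hu⟩) h
  · -- a3r
    intro e b h
    rw [hinr] at h
    rw [mem_subtype]
    rcases htail e.1 b h with h4 | ⟨h4, h5⟩
    · exact hI.a3r e.1 b h4
    · rw [h5]
      exact hI.a3 e.1 t s h4 ht
  · -- a3
    intro e u b h hu
    rw [hinl] at h
    rw [mem_subtype] at hu ⊢
    by_cases he : tl e.1 = Sum.inl t
    · rw [htp e.1 he] at h
      have h5 := hI.a3 (φ e.1) u.1 b h hu
      rw [hφt e.1 he] at h5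
      have hb : b = s := by
        by_contra hb
        rw [hbs b hb, Bool.not_not] at h5
        exact h5 ht
      rw [hb]
      exact hI.a3 e.1 t s he ht
    · rw [htn e.1 he] at h
      exact hI.a3 e.1 u.1 b h hu
  · -- a4
    intro b S hS
    obtain ⟨S1, hS1⟩ : ∃ S1 : Finset T, S1 = S.map (Function.Embedding.subtype _) := ⟨_, rfl⟩
    have hmS : ∀ x : T, x ∈ S1 ↔ ∃ h : x ≠ t, (⟨x, h⟩ : {x // x ≠ t}) ∈ S := by
      intro x; rw [hS1]; exact hW S x
    have hS1T : ∀ x ∈ S1, x ∈ TT b := by
      intro x hx
      obtain ⟨h, hx2⟩ := (hmS x).1 hx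
      have := hS hx2
      rw [mem_subtype] at this
      exact this
    have hL : (univ.filter (fun e : {e // hd e ≠ t} => tl' e = Sum.inr b ∧
        (⟨hd e.1, e.2⟩ : {x // x ≠ t}) ∈ S)).card =
        (univ.filter (fun e => hd e ≠ t ∧ (tlf e = Sum.inr b ∧ hd e ∈ S1))).card := by
      rw [← spl_card_sub (fun e => hd e ≠ t) (fun e => tlf e = Sum.inr b ∧ hd e ∈ S1)]
      congr 1
      apply filter_congr
      intro e _
      rw [hinr, hmS]
      constructor
      · rintro ⟨h4, h5⟩
        exact ⟨h4, e.2, h5⟩
      · rintro ⟨h4, _, h5⟩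
        exact ⟨h4, h5⟩
    have hR : (univ.filter (fun e : {e // hd e ≠ t} => (⟨hd e.1, e.2⟩ : {x // x ≠ t}) ∉ S ∧
        ∃ u ∈ S, tl' e = Sum.inl u)).card =
        (univ.filter (fun e => hd e ≠ t ∧ (hd e ∉ S1 ∧ ∃ u ∈ S1, tlf e = Sum.inl u))).card := by
      rw [← spl_card_sub (fun e => hd e ≠ t) (fun e => hd e ∉ S1 ∧ ∃ u ∈ S1, tlf e = Sum.inl u)]
      congr 1
      apply filter_congr
      intro e _
      rw [hmS]
      constructor
      · rintro ⟨h4, u, hu, h5⟩
        rw [hinl] at h5
        exact ⟨fun ⟨_, h6⟩ => h4 h6, u.1, (hmS _).2 ⟨u.2, hu⟩, h5⟩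
      · rintro ⟨h4, u, hu, h5⟩
        obtain ⟨hut, hu2⟩ := (hmS u).1 hu
        exact ⟨fun h6 => h4 ⟨e.2, h6⟩, ⟨u, hut⟩, hu2, (hinl e ⟨u, hut⟩).2 h5⟩
    show (univ.filter (fun e : {e // hd e ≠ t} => tl' e = Sum.inr b ∧
        (⟨hd e.1, e.2⟩ : {x // x ≠ t}) ∈ S)).card ≤
      (univ.filter (fun e : {e // hd e ≠ t} => (⟨hd e.1, e.2⟩ : {x // x ≠ t}) ∉ S ∧
        ∃ u ∈ S, tl' e = Sum.inl u)).card
    rw [hL, hR]
    by_cases hb : b = s
    · subst hb
      obtain ⟨X, hX⟩ : ∃ X : Finset (T ⊕ Bool),
          X = univ.filter (fun z => z = Sum.inr b ∨ z = Sum.inl t ∨ ∃ u ∈ S1, z = Sum.inl u) :=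
        ⟨_, rfl⟩
      have hmX : ∀ z, z ∈ X ↔ (z = Sum.inr b ∨ z = Sum.inl t ∨ ∃ u ∈ S1, z = Sum.inl u) := by
        intro z; rw [hX]; simp
      have hns : (Sum.inr (!b) : T ⊕ Bool) ∉ X := by
        rw [hmX]
        rintro (h | h | ⟨u, _, h⟩)
        · have := Sum.inr.inj h
          cases b <;> simp at this
        · simp at h
        · simp at h
      have hval : Val b (TT b) t X := by
        refine ⟨(hmX _).2 (Or.inl rfl), ⟨Sum.inr (!b), by simp, hns⟩, Or.inr ?_⟩
        intro u hu
        rw [hmX] at hu
        rcases hu with h | h | ⟨v, hv, h⟩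
        · simp at h
        · rw [Sum.inl.inj h]; exact ht
        · rw [Sum.inl.inj h]; exact hS1T v hv
      have h4 := h3 X hval
      unfold bb at h4
      rw [if_neg hns] at h4
      have h5 := h4.trans (hDF X (Or.inl ((hmX _).2 (Or.inr (Or.inl rfl)))))
      have h6 : (univ.filter (fun e => hd e ≠ t ∧ (tlf e ∈ X ∧ Sum.inl (hd e) ∉ X))).card ≤
          (univ.filter (fun e => (hd e ≠ t ∧ tlf e = Sum.inr b) ∧ hd e ∉ S1)).card +
          (univ.filter (fun e => hd e ≠ t ∧ (hd e ∉ S1 ∧ ∃ u ∈ S1, tlf e = Sum.inl u))).card := by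
        refine le_trans ?_ (card_union_le _ _)
        apply card_le_card
        intro e he
        simp only [mem_union, mem_filter, mem_univ, true_and] at he ⊢
        obtain ⟨h7, h8, h9⟩ := he
        have h10 : hd e ∉ S1 := fun h => h9 ((hmX _).2 (Or.inr (Or.inr ⟨hd e, h, rfl⟩)))
        rcases (hmX _).1 h8 with h | h | h
        · exact Or.inl ⟨⟨h7, h⟩, h10⟩
        · exact absurd h (htt e)
        · exact Or.inr ⟨h7, h10, h⟩
      have h7 : (univ.filter (fun e => hd e ≠ t ∧ tlf e = Sum.inr b)).card =
          (univ.filter (fun e => hd e ≠ t ∧ (tlf e = Sum.inr b ∧ hd e ∈ S1))).card +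
          (univ.filter (fun e => (hd e ≠ t ∧ tlf e = Sum.inr b) ∧ hd e ∉ S1)).card := by
        rw [← card_filter_add_card_filter_not
          (s := univ.filter (fun e => hd e ≠ t ∧ tlf e = Sum.inr b)) (fun e => hd e ∈ S1),
          filter_filter, filter_filter]
        congr 2
        apply filter_congr
        intro e _
        exact and_assoc
      omega
    · have hb' := hbs b hb
      have h4 := hI.a4 b S1 (fun x hx => hS1T x hx)
      refine le_trans ?_ (h4.trans ?_)
      · apply card_le_card
        intro e he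
        simp only [mem_filter, mem_univ, true_and] at he ⊢
        refine ⟨?_, he.2.2⟩
        rcases htail e b he.2.1 with h | h
        · exact h
        · exact absurd h.2 hb
      · apply card_le_card
        intro e he
        simp only [mem_filter, mem_univ, true_and] at he ⊢
        obtain ⟨h5, u, hu, h6⟩ := he
        have h7 := hI.a3 e u b h6 (hS1T u hu)
        have hut : u ≠ t := ((hmS u).1 hu).1
        have h8 : tl e ≠ Sum.inl t := by
          rw [h6]
          intro h
          exact hut (Sum.inl.inj h)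
        refine ⟨?_, h5, u, hu, ?_⟩
        · intro h
          rw [h, hb', Bool.not_not] at h7
          exact h7 ht
        · rw [htn e h8]
          exact h6
  · -- a6
    intro b
    have hL : (univ.filter (fun e : {e // hd e ≠ t} => tl' e = Sum.inr b)).card =
        (univ.filter (fun e => hd e ≠ t ∧ tlf e = Sum.inr b)).card := by
      rw [← spl_card_sub (fun e => hd e ≠ t) (fun e => tlf e = Sum.inr b)]
      congr 1
      apply filter_congr
      intro e _
      exact hinr e b
    rw [hL]
    by_cases hb : b = s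
    · subst hb
      have := hI.a6 b
      omega
    · refine le_trans ?_ (hI.a6 b)
      apply card_le_card
      intro e he
      simp only [mem_filter, mem_univ, true_and] at he ⊢
      rcases htail e b he.2 with h | h
      · exact h
      · exact absurd h.2 hb

end Ts
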