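import Pool.Agent.H.MP_3adc02_co.ts.ThmB
import Pool.Agent.H.MP_3adc02_co.ts.Spl
import Pool.Agent.H.MP_3adc02_co.ts.Lift

/-! Theorem A: every digraph instance has a good packing. -/

open Finset

namespace Ts

theorem thmA : ThmA := by
  intro T E _ _ _ _ τ hd tl TT hI
  obtain ⟨n, hn⟩ : ∃ n, n = Fintype.card T := ⟨_, rfl⟩
  induction n using Nat.strong_induction_on generalizing T E with
  | _ n ih =>
    by_cases hlow : ∃ s, ∃ t ∈ TT s, (univ.filter (fun e => tl e = Sum.inl t)).card < τ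
    · obtain ⟨s, t, ht, hdeg⟩ := hlow
      obtain ⟨φ, tl', hφ1, hφ2, hφ3, h1, h2, hI'⟩ := splitting hI ht hdeg
      have hcard : Fintype.card {x : T // x ≠ t} < n := by
        rw [hn]
        exact Fintype.card_subtype_lt (x := t) (by simp)
      obtain ⟨a', hP, h4, hG⟩ := ih _ hcard {x : T // x ≠ t} {e : E // hd e ≠ t} _ tl' _ hI' rfl
      exact lift hI ht φ tl' hφ1 hφ2 hφ3 h1 h2 a' hP h4 hG
    · push Not at hlow
      exact thmB hI hlow

end Ts
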