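import Pool.Agent.H.MP_3adc02_co.ts.Cns
import Pool.Agent.H.MP_3adc02_co.ts.Rel

/-! The high degree case (note, Part 4). -/

open Finset

namespace Ts

variable {T E : Type} [Fintype T] [DecidableEq T] [Fintype E] [DecidableEq E]

/- PROOF.
If Gd fails for c, s, S and the root t in S, then S is closed under children in colour c, so all descendants of t are in S, subset of TT s: Bad.
-/
theorem gd_of_not_bad {τ : ℕ} {hd : E → T} {tl : E → T ⊕ Bool} {TT : Bool → Finset T}
    {a : Fin τ → T → E} (h : ∀ c s, ¬ Bad tl TT a c s) : Gd tl TT a := by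
  intro c s S hS ⟨t, htS, ht⟩
  by_contra hc
  apply h c s
  refine ⟨t, ht, fun z hz => hS ?_⟩
  induction hz with
  | refl => exact htS
  | @tail u w _ h2 ih =>
    by_contra hw
    exact hc ⟨w, hw, u, ih, h2⟩

/- PROOF.
Start with relaxed (Rel).  Outer strong induction on the number of pairs (c, s) with Bad (classical card), statement: every packing
(Pk0, P4) can be improved to one without bad pairs.  If there is no bad pair: gd_of_not_bad.  Otherwise fix a bad pair (i, s) with root r
and do an inner strong induction on #{z : not Ds (colour i) r z}: step gives a' whose bad pairs are bad pairs of a; if Bad a' i s fails, the number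
of bad pairs is smaller; if it still holds, its root is r by P4 (tl (a' i r) = inr s) and the inner number is smaller.
-/
theorem thmB {τ : ℕ} {hd : E → T} {tl : E → T ⊕ Bool} {TT : Bool → Finset T}
    (hI : Inst τ hd tl TT)
    (hdeg : ∀ s, ∀ t ∈ TT s, τ ≤ (univ.filter (fun e => tl e = Sum.inl t)).card) :
    ∃ a : Fin τ → T → E, Pk0 τ hd tl a ∧ P4 tl a ∧ Gd tl TT a := by
  classical
  obtain ⟨a0, ha0, h40⟩ := relaxed hI
  have outer : ∀ n : ℕ, ∀ a : Fin τ → T → E, Pk0 τ hd tl a → P4 tl a →
      (univ.filter (fun x : Fin τ × Bool => Bad tl TT a x.1 x.2)).card = n →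
      ∃ b : Fin τ → T → E, Pk0 τ hd tl b ∧ P4 tl b ∧ ∀ c s, ¬ Bad tl TT b c s := by
    intro n
    induction n using Nat.strong_induction_on with
    | _ n ihn =>
      intro a ha h4 hn
      by_cases hno : ∀ c s, ¬ Bad tl TT a c s
      · exact ⟨a, ha, h4, hno⟩
      · push Not at hno
        obtain ⟨i, s, hbad⟩ := hno
        obtain ⟨r, hr, hb⟩ := id hbad
        have inner : ∀ m : ℕ, ∀ b : Fin τ → T → E, Pk0 τ hd tl b → P4 tl b →
            (∀ c s', Bad tl TT b c s' → Bad tl TT a c s') → tl (b i r) = Sum.inr s →
            (∀ z, Ds (fun t => tl (b i t)) r z → z ∈ TT s) →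
            (univ.filter (fun z => ¬ Ds (fun t => tl (b i t)) r z)).card = m →
            ∃ b' : Fin τ → T → E, Pk0 τ hd tl b' ∧ P4 tl b' ∧
              (∀ c s', Bad tl TT b' c s' → Bad tl TT a c s') ∧ ¬ Bad tl TT b' i s := by
          intro m
          induction m using Nat.strong_induction_on with
          | _ m ihm =>
            intro b hb1 hb4 hbb hbr hbT hm
            obtain ⟨b', h1, h2, h3, h5, h6, x, hx1, hx2⟩ := step hI hdeg hb1 hb4 hbr hbT
            by_cases hB : Bad tl TT b' i s
            · obtain ⟨r', hr', hT'⟩ := hB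
              have hrr : r' = r := h2 i s r' r hr' h5
              subst hrr
              refine ihm _ ?_ b' h1 h2 (fun c s' hc => hbb c s' (h3 c s' hc)) h5 hT' rfl
              rw [← hm]
              apply card_lt_card
              refine ⟨fun z hz => ?_, fun hsub => ?_⟩
              · simp only [mem_filter, mem_univ, true_and] at hz ⊢
                exact fun h => hz (h6 z h)
              · have hx3 : x ∈ univ.filter (fun z => ¬ Ds (fun t => tl (b' i t)) r' z) :=
                  hsub (by simp [hx1])
                simp only [mem_filter, mem_univ, true_and] at hx3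
                exact hx3 hx2
            · exact ⟨b', h1, h2, fun c s' hc => hbb c s' (h3 c s' hc), hB⟩
        obtain ⟨b, h1, h2, h3, h5⟩ := inner _ a ha h4 (fun _ _ h => h) hr hb rfl
        refine ihn _ ?_ b h1 h2 rfl
        rw [← hn]
        apply card_lt_card
        refine ⟨fun x hx => ?_, fun hsub => ?_⟩
        · simp only [mem_filter, mem_univ, true_and] at hx ⊢
          exact h3 _ _ hx
        · have hx : ((i, s) : Fin τ × Bool) ∈
              univ.filter (fun x : Fin τ × Bool => Bad tl TT b x.1 x.2) := hsub (by simp [hbad])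
          simp only [mem_filter, mem_univ, true_and] at hx
          exact h5 hx
  obtain ⟨b, h1, h2, h3⟩ := outer _ a0 ha0 h40 rfl
  exact ⟨b, h1, h2, gd_of_not_bad (hd := hd) h3⟩

end Ts
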