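import Pool.Agent.H.MP_3adc02_co.ts.Defs

/-! Ancestors in acyclic parent maps. -/

open Finset

namespace Ts

variable {T : Type} [Fintype T] [DecidableEq T] {p : T → T ⊕ Bool}

theorem ds_refl (x : T) : Ds p x x := Relation.ReflTransGen.refl

theorem ds_trans {x y z : T} (h : Ds p x y) (h' : Ds p y z) : Ds p x z :=
  Relation.ReflTransGen.trans h h'

theorem ds_single {u x : T} (h : p x = Sum.inl u) : Ds p u x := Relation.ReflTransGen.single h

theorem ds_tail {w u x : T} (hw : Ds p w u) (h : p x = Sum.inl u) : Ds p w x :=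
  Relation.ReflTransGen.tail hw h

/-- An ancestor of `x` is `x` or an ancestor of the parent of `x`. -/
theorem ds_par {u x w : T} (h : p x = Sum.inl u) (hw : Ds p w x) : w = x ∨ Ds p w u := by
  rcases Relation.ReflTransGen.cases_tail hw with h1 | ⟨c, h1, h2⟩
  · left; exact h1.symm
  · right
    have : c = u := by
      have h3 : p x = Sum.inl c := h2
      rw [h] at h3
      exact (Sum.inl.inj h3).symm
    rw [← this]; exact h1

/-- A root has no proper ancestor. -/
theorem ds_root {x w : T} {s : Bool} (h : p x = Sum.inr s) (hw : Ds p w x) : w = x := by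
  rcases Relation.ReflTransGen.cases_tail hw with h1 | ⟨c, _, h2⟩
  · exact h1.symm
  · have h3 : p x = Sum.inl c := h2
    rw [h] at h3; cases h3

/-- Two ancestors of a vertex are comparable. -/
theorem ds_chain {u w x : T} (hu : Ds p u x) (hw : Ds p w x) : Ds p u w ∨ Ds p w u := by
  induction hu with
  | refl => right; exact hw
  | tail h1 h2 ih =>
    rcases ds_par h2 hw with h | h
    · left; rw [h]; exact Relation.ReflTransGen.tail h1 h2
    · exact ih h

/-- Either `u = x` or some child of `u` is an ancestor of `x`. -/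
theorem ds_head {u x : T} (h : Ds p u x) : u = x ∨ ∃ c, p c = Sum.inl u ∧ Ds p c x := by
  rcases Relation.ReflTransGen.cases_head h with h | ⟨c, h1, h2⟩
  · left; exact h
  · right; exact ⟨c, h1, h2⟩

/-- The parent of `x` is not a descendant of `x`. -/
theorem not_ds_par (ha : Acy p) {u x : T} (h : p x = Sum.inl u) : ¬ Ds p x u := by
  classical
  intro hxu
  obtain ⟨t, ht, ht'⟩ := ha (univ.filter (fun z => Ds p x z ∧ Ds p z u))
    ⟨x, by simp [ds_refl, hxu]⟩
  simp only [mem_filter, mem_univ, true_and] at ht ht'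
  rcases Relation.ReflTransGen.cases_tail ht.1 with h1 | ⟨c, h1, h2⟩
  · subst h1
    exact ht' u ⟨hxu, ds_refl u⟩ h
  · exact ht' c ⟨h1, ds_trans (ds_single h2) ht.2⟩ h2

theorem ds_anti (ha : Acy p) {u w : T} (h1 : Ds p u w) (h2 : Ds p w u) : u = w := by
  rcases Relation.ReflTransGen.cases_tail h1 with h | ⟨c, h3, h4⟩
  · exact h.symm
  · exact absurd (ds_trans h2 h3) (not_ds_par ha h4)

/-- The component root of `x` in `W`. -/
theorem exists_comp_root (ha : Acy p) (W : Finset T) {x : T} (hx : x ∈ W) :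
    ∃ q ∈ W, (∀ u ∈ W, p q ≠ Sum.inl u) ∧ Ds p q x ∧ ∀ z, Ds p q z → Ds p z x → z ∈ W := by
  classical
  obtain ⟨q, hq, hq'⟩ := ha (W.filter (fun w => Ds p w x ∧ ∀ z, Ds p w z → Ds p z x → z ∈ W))
    ⟨x, by
      simp only [mem_filter]
      exact ⟨hx, ds_refl x, fun z h1 h2 => by rw [ds_anti ha h2 h1]; exact hx⟩⟩
  simp only [mem_filter] at hq hq'
  refine ⟨q, hq.1, fun u hu h => hq' u ⟨hu, ?_, ?_⟩ h, hq.2.1, hq.2.2⟩
  · exact ds_trans (ds_single h) hq.2.1
  · intro z h1 h2
    rcases ds_chain h2 hq.2.1 with h3 | h3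
    · rcases ds_par h h3 with h4 | h4
      · rw [h4]; exact hq.1
      · rw [ds_anti ha h4 h1]; exact hu
    · exact hq.2.2 z h3 h2

/-- Every vertex has a root. -/
theorem exists_root (ha : Acy p) (x : T) : ∃ r s, Ds p r x ∧ p r = Sum.inr s := by
  obtain ⟨q, _, h2, h3, _⟩ := exists_comp_root ha univ (mem_univ x)
  rcases hq : p q with u | s
  · exact absurd hq (h2 u (mem_univ u))
  · exact ⟨q, s, h3, hq⟩

/-- Induction along ancestors: a vertex with a property and a minimal set of ancestors. -/
theorem exists_min (ha : Acy p) (P : T → Prop) {x : T} (hx : P x) :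
    ∃ q, P q ∧ Ds p q x ∧ ∀ z, Ds p z q → z ≠ q → ¬ P z := by
  classical
  obtain ⟨n, hn⟩ : ∃ n, n = (univ.filter (fun z => Ds p z x)).card := ⟨_, rfl⟩
  induction n using Nat.strong_induction_on generalizing x with
  | _ n ih =>
    by_cases h : ∃ z, Ds p z x ∧ z ≠ x ∧ P z
    · obtain ⟨z, h1, h2, h3⟩ := h
      have hlt : (univ.filter (fun w => Ds p w z)).card < n := by
        rw [hn]
        apply card_lt_card
        refine ⟨fun w hw => ?_, fun hsub => ?_⟩
        · simp only [mem_filter, mem_univ, true_and] at hw ⊢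
          exact ds_trans hw h1
        · have : x ∈ univ.filter (fun w => Ds p w z) := hsub (by simp [ds_refl])
          simp only [mem_filter, mem_univ, true_and] at this
          exact h2 (ds_anti ha h1 this)
      obtain ⟨q, h4, h5, h6⟩ := ih _ hlt h3 rfl
      exact ⟨q, h4, ds_trans h5 h1, h6⟩
    · push Not at h
      exact ⟨x, hx, ds_refl x, fun z h1 h2 h3 => h z h1 h2 h3⟩

end Ts
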